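import Pool.Agent.helper75.NS.Branch

/-!
# From branches in the full extension to invariant branches: the moved case
-/

namespace Pool.Agent.helper75.NS

open Cardinal Set Fa

section K

variable {K : Type} [LinearOrder K] [WellFoundedLT K] [Inhabited K]

theorem Gd.card3 {b r : K} (hb : Gd b) (hr : ∃ ν : K, InA ν ∧ b < ν ∧ ν ≤ r) :
    #(Iio b × Set (Iio b) × Dl b) < #(Iio r) := by
  obtain ⟨ν, hν, hbν, hνr⟩ := hr
  obtain ⟨s, hs, hsν, hbs⟩ := hb.2 ν hν hbν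
  have h1 : #(Dl b) < #(Iio s) := (card_Dl hb.1 b le_rfl).trans_lt (hs.two_two hbs)
  have h2 : #(Set (Iio b)) < #(Iio s) := by
    rw [mk_set]
    exact hs.sl.isStrongPrelimit hbs
  rw [mk_prod, lift_id, lift_id, mk_prod, lift_id, lift_id]
  exact (mul_lt_of_lt hs.inf hbs (mul_lt_of_lt hs.inf h2 h1)).trans_le
    (card_mono (hsν.lt.le.trans hνr))

variable {mu L : K} {R : K → K → K → K → Set (Set (Fa K))} {b : K → K → Set (Set (Fa K))}
  {p : Set (Fa K)}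

section idx

variable (Y : Type) [LinearOrder Y] [WellFoundedLT Y]

/-- The steps of the construction. -/
abbrev Ix (mu : K) (bt : K → K) (y : Y → Set K × Set (Fa K)) : Type :=
  {s : K ×ₗ Y // (ofLex s).1 < mu ∧ (y (ofLex s).2).1 ⊆ Iio (ofLex s).1 ∧
    (y (ofLex s).2).2 ∈ Dl (bt (ofLex s).1)}

end idx

variable {Y : Type} [LinearOrder Y] [WellFoundedLT Y] {bt : K → K} {y : Y → Set K × Set (Fa K)}

/-- The stage of a step. -/
def ze (t : Ix Y mu bt y) : K := (ofLex t.1).1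

/-- The set of a step. -/
def zs (t : Ix Y mu bt y) : Set K := (y (ofLex t.1).2).1

/-- The condition of a step. -/
def zt (t : Ix Y mu bt y) : Set (Fa K) := (y (ofLex t.1).2).2

theorem ze_mono {t t' : Ix Y mu bt y} (h : ze t < ze t') : t < t' :=
  Prod.Lex.lt_iff.2 (Or.inl h)

theorem ze_le {t t' : Ix Y mu bt y} (h : t < t') : ze t ≤ ze t' := by
  rcases Prod.Lex.lt_iff.1 (show t.1 < t'.1 from h) with h1 | h1
  · exact le_of_lt h1
  · exact le_of_eq h1.1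

theorem few_ix (hy : Function.Injective y) (hbt : ∀ i < mu, i < bt i ∧ bt i < mu ∧ Gd (bt i))
    (hc : (bt '' Iio mu).Countable) : Few (fun t : Ix Y mu bt y => bt (ze t)) := by
  intro r hr
  have h1 : {t : Ix Y mu bt y | ∃ ν : K, InA ν ∧ bt (ze t) < ν ∧ ν ≤ r} ⊆
      ⋃ c ∈ {c | c ∈ bt '' Iio mu ∧ ∃ ν : K, InA ν ∧ c < ν ∧ ν ≤ r},
        {t : Ix Y mu bt y | bt (ze t) = c} := fun t ht =>
    mem_iUnion₂.2 ⟨bt (ze t), ⟨mem_image_of_mem _ t.2.1, ht⟩, rfl⟩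
  refine sm_mono h1 (sm_biUnion hr.reg ?_ ?_)
  · exact (le_aleph0_iff_set_countable.2 (hc.mono fun b hb => hb.1)).trans_lt hr.unc
  · rintro c ⟨⟨i, hi, rfl⟩, hc'⟩
    refine lt_of_le_of_lt ?_ ((hbt i hi).2.2.card3 hc')
    refine mk_le_of_injective (f := fun t : {t : Ix Y mu bt y | bt (ze t) = bt i} =>
      ((⟨ze t.1, (hbt _ t.1.2.1).1.trans_le t.2.le⟩ : Iio (bt i)),
        ({x | (x : K) ∈ zs t.1} : Set (Iio (bt i))),
        (⟨zt t.1, by
          have := t.1.2.2.2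
          have e : bt (ze t.1) = bt i := t.2
          rwa [show bt (ofLex t.1.1).1 = bt i from e] at this⟩ : Dl (bt i)))) ?_
    rintro ⟨t, ht⟩ ⟨t', ht'⟩ h
    simp only [Prod.mk.injEq] at h
    obtain ⟨h2, h3, h4⟩ := h
    have h2' := congrArg (fun z : Iio (bt i) => (z : K)) h2
    have h4' := congrArg (fun z : Dl (bt i) => (z : Set (Fa K))) h4
    have h5 : zs t = zs t' := by
      ext x
      by_cases hx : x < bt i
      · have := congrArg (fun S : Set (Iio (bt i)) => (⟨x, hx⟩ : Iio (bt i)) ∈ S) h3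
        exact this.to_iff
      · refine ⟨fun hxt => absurd ?_ hx, fun hxt => absurd ?_ hx⟩
        · exact (lt_trans (t.2.2.1 hxt) (hbt _ t.2.1).1).trans_le (le_of_eq ht)
        · exact (lt_trans (t'.2.2.1 hxt) (hbt _ t'.2.1).1).trans_le (le_of_eq ht')
    refine Subtype.ext (Subtype.ext ?_)
    have h6 : (ofLex t.1) = (ofLex t'.1) := Prod.ext h2' (hy (Prod.ext h5 h4'))
    exact h6

open Classical in
/-- The union of the changes of the steps in `U`. -/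
noncomputable def Wu {Θ : Type} (i0 : ℕ) (d : Θ → Set (Fa K) × Ed K) (U : Set Θ) : Ed K :=
  ⟨fun x n => decide (n < i0 ∧ ∃ t ∈ U, (d t).2.w x n = true), i0, fun x n hn => by
    rw [decide_eq_false_iff_not]
    exact fun h => absurd h.1 (not_lt.2 hn)⟩

open Classical in
theorem Wu_true {Θ : Type} {i0 : ℕ} {d : Θ → Set (Fa K) × Ed K} {U : Set Θ} {x : K} {n : ℕ} :
    (Wu i0 d U).w x n = true ↔ n < i0 ∧ ∃ t ∈ U, (d t).2.w x n = true := by
  change decide _ = true ↔ _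
  rw [decide_eq_true_iff]

theorem Wu_false {Θ : Type} {i0 : ℕ} {d : Θ → Set (Fa K) × Ed K} {U : Set Θ} {x : K} {n : ℕ}
    (h : ∀ t ∈ U, (d t).2.w x n = false) : (Wu i0 d U).w x n = false := by
  rw [← Bool.not_eq_true, Wu_true]
  rintro ⟨_, t, ht, h1⟩
  rw [h t ht] at h1
  exact absurd h1 (by decide)

theorem Wu_congr {Θ : Type} {i0 : ℕ} {d d' : Θ → Set (Fa K) × Ed K} {U : Set Θ}
    (h : ∀ t ∈ U, d t = d' t) : Wu i0 d U = Wu i0 d' U := by
  ext x n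
  rw [Bool.eq_iff_iff, Wu_true, Wu_true]
  refine and_congr Iff.rfl (exists_congr fun t => and_congr_right fun ht => ?_)
  rw [h t ht]

/-- Steps before `t` whose stage is in the set of `t`. -/
def V1 (t : Ix Y mu bt y) : Set (Ix Y mu bt y) := {s | s < t ∧ ze s ∈ zs t}

/-- Steps before `t` whose stage is in the set of `t` or the stage of `t`. -/
def V2 (t : Ix Y mu bt y) : Set (Ix Y mu bt y) := {s | s < t ∧ (ze s ∈ zs t ∨ ze s = ze t)}

/-- The condition before step `t`. -/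
def Qs (q1 : Set (Fa K)) (t : Ix Y mu bt y) (d : Ix Y mu bt y → Set (Fa K) × Ed K) :
    Set (Fa K) := QU q1 (fun s => bt (ze s)) (fun s => (d s).1) (Iio t)

/-- The requirement of step `t`. -/
structure Tm (mu L : K) (bt : K → K) (y : Y → Set K × Set (Fa K)) (b : K → K → Set (Set (Fa K)))
    (i0 : ℕ) (q1 : Set (Fa K)) (t : Ix Y mu bt y) (d : Ix Y mu bt y → Set (Fa K) × Ed K)
    (a : Set (Fa K) × Ed K) : Prop where
  dl : a.1 ∈ Dl L
  qs : a.1 = ∅ ∨ Qs q1 t d ⊆ a.1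
  row : ∀ x n, i0 ≤ n → a.2.w x n = false
  col : ∃ e < L, (∀ s < t, ∀ f ∈ (d s).1, f.st = L → f.xi < e) ∧
    (∀ s < t, ∀ x n, (d s).2.w x n = true → x < e) ∧ (∀ f ∈ q1, f.st = L → f.xi < e) ∧
    ∀ x n, x < e → a.2.w x n = false
  bdd : ∃ e < L, ∀ x n, a.2.w x n = true → x < e
  dec : (∃ z ∈ Dl L, Qs q1 t d ⊆ z ∧ zt t ⊆ z) → Qs q1 t d ⊆ a.1 ∧ zt t ⊆ a.1 ∧
    ∃ al < L, ∃ i < mu, ∃ i' < mu, i ≠ i' ∧ ac L (Wu i0 d (V2 t) * a.2) a.1 ∈ b al i ∧
      ac L (Wu i0 d (V1 t)) a.1 ∈ b al i'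

theorem Tm.loc {i0 : ℕ} {q1 : Set (Fa K)} {t : Ix Y mu bt y}
    {d d' : Ix Y mu bt y → Set (Fa K) × Ed K} {a : Set (Fa K) × Ed K}
    (h : ∀ s < t, d s = d' s) (hT : Tm mu L bt y b i0 q1 t d a) :
    Tm mu L bt y b i0 q1 t d' a := by
  have e1 : Qs q1 t d' = Qs q1 t d := QU_congr fun s hs => by rw [h s hs]
  have e2 : Wu i0 d' (V2 t) = Wu i0 d (V2 t) := Wu_congr fun s hs => (h s hs.1).symm
  have e3 : Wu i0 d' (V1 t) = Wu i0 d (V1 t) := Wu_congr fun s hs => (h s hs.1).symm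
  refine ⟨hT.dl, by rw [e1]; exact hT.qs, hT.row, ?_, hT.bdd, by rw [e1, e2, e3]; exact hT.dec⟩
  obtain ⟨e, he, h1, h2, h3, h4⟩ := hT.col
  exact ⟨e, he, fun s hs => by rw [← h s hs]; exact h1 s hs,
    fun s hs => by rw [← h s hs]; exact h2 s hs, h3, h4⟩

/-- Changes of later steps do not matter. -/
theorem Tm.fix_q1 {i0 : ℕ} {q1 : Set (Fa K)} {d : Ix Y mu bt y → Set (Fa K) × Ed K}
    {U : Set (Ix Y mu bt y)} (hU : ∀ t ∈ U, Tm mu L bt y b i0 q1 t d (d t)) :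
    ac L (Wu i0 d U) q1 = q1 := ac_id fun f hf hfL => Wu_false fun t ht => by
  obtain ⟨e, he, h1, h2, h3, h4⟩ := (hU t ht).col
  exact h4 _ _ (h3 f hf hfL)

theorem Tm.exists_next (hs : InS mu) (hL : IsSuc mu L) (hy : Function.Injective y)
    (hbt : ∀ i < mu, i < bt i ∧ bt i < mu ∧ Gd (bt i)) (hc : (bt '' Iio mu).Countable)
    (hb : ∀ a i, Ro L (b a i)) (h : Br mu L R b p) {i0 : ℕ} {q1 : Set (Fa K)} (hq1 : q1 ∈ Dl L)
    (hpq : p ⊆ q1) (hm : Mv mu L b i0 q1) (t : Ix Y mu bt y)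
    (d : Ix Y mu bt y → Set (Fa K) × Ed K)
    (hd : ∀ s < t, Tm mu L bt y b i0 q1 s d (d s)) : ∃ a, Tm mu L bt y b i0 q1 t d a := by
  classical
  have hLr : IsReg L := hL.reg hs.inf
  have hA : InA L := ⟨mu, hs, hL⟩
  have hsm : #(Ix Y mu bt y) < #(Iio L) := by
    refine lt_of_le_of_lt ?_ (few_ix hy hbt hc L hLr)
    rw [← mk_univ]
    exact mk_le_mk_of_subset fun s _ => ⟨L, hA, (hbt _ s.2.1).2.1.trans hL.lt, le_rfl⟩
  -- a bound for everything so far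
  obtain ⟨e, he, he1, he2, he3⟩ : ∃ e < L, (∀ s < t, ∀ f ∈ (d s).1, f.st = L → f.xi < e) ∧
      (∀ s < t, ∀ x n, (d s).2.w x n = true → x < e) ∧ (∀ f ∈ q1, f.st = L → f.xi < e) := by
    have h1 : ∀ s : Ix Y mu bt y, ∃ c < L, s < t → (∀ f ∈ (d s).1, f.st = L → f.xi < c) ∧
        (∀ x n, (d s).2.w x n = true → x < c) := by
      intro s
      by_cases hst : s < t
      · obtain ⟨c1, hc1, h2⟩ := Dl.col (hd s hst).dl hLr
        obtain ⟨c2, hc2, h3⟩ := (hd s hst).bdd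
        exact ⟨max c1 c2, max_lt hc1 hc2, fun _ => ⟨fun f hf hfL =>
          (h2 f hf hfL).trans_le (le_max_left _ _), fun x n hx =>
          (h3 x n hx).trans_le (le_max_right _ _)⟩⟩
      · exact ⟨mu, hL.lt, fun h' => absurd h' hst⟩
    choose c hcL hc2 using h1
    obtain ⟨e0, he0, h3⟩ := hLr.bdd (X := range c) (mk_range_le.trans_lt hsm) (by
      rintro _ ⟨s, rfl⟩
      exact hcL s)
    obtain ⟨e1, he1, h4⟩ := Dl.col hq1 hLr
    exact ⟨max e0 e1, max_lt he0 he1, fun s hst f hf hfL => ((hc2 s hst).1 f hf hfL).trans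
      ((h3 _ ⟨s, rfl⟩).trans_le (le_max_left _ _)), fun s hst x n hx =>
      ((hc2 s hst).2 x n hx).trans ((h3 _ ⟨s, rfl⟩).trans_le (le_max_left _ _)),
      fun f hf hfL => (h4 f hf hfL).trans_le (le_max_right _ _)⟩
  by_cases hz : ∃ z ∈ Dl L, Qs q1 t d ⊆ z ∧ zt t ⊆ z
  · obtain ⟨z, hzL, hz1, hz2⟩ := hz
    set w1 := Wu i0 d (V1 t) with hw1
    set w2 := Wu i0 d (V2 t) with hw2
    have hf1 : ac L w1 q1 = q1 := Tm.fix_q1 fun s hs' => hd s hs'.1
    have hf2 : ac L w2 q1 = q1 := Tm.fix_q1 fun s hs' => hd s hs'.1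
    have hq1z : q1 ⊆ z := sub_QU.trans hz1
    by_cases hi : ∃ z2 ∈ Dl L, z ⊆ z2 ∧ ∃ al < L, ∃ i < mu, ∃ i' < mu, i ≠ i' ∧
        ac L w2 z2 ∈ b al i ∧ ac L w1 z2 ∈ b al i'
    · obtain ⟨z2, hz2L, hzz, al, hal, i, hi, i', hi', hii, h1, h2⟩ := hi
      refine ⟨(z2, 1), hz2L, Or.inr (hz1.trans hzz), fun x n _ => Ed.one_w x n,
        ⟨e, he, he1, he2, he3, fun x n _ => Ed.one_w x n⟩, ⟨e, he, fun x n hx => ?_⟩,
        fun _ => ⟨hz1.trans hzz, hz2.trans hzz, al, hal, i, hi, i', hi', hii, ?_, h2⟩⟩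
      · exact absurd ((Ed.one_w x n).symm.trans hx) (by decide)
      · change ac L (w2 * 1) z2 ∈ b al i
        rw [mul_one]
        exact h1
    · push Not at hi
      obtain ⟨u, hu1, hu2, r', hr', hzr, al, hal, i, hi1, i', hi', hii, h1, h2⟩ :=
        hm (ac L w2 z) (Dl.ac hzL) (by
          have := ac_mono (L := L) (w := w2) hq1z
          rwa [hf2] at this) e he
      have hzr' : z ⊆ ac L w2 r' := ac_sub_iff.1 hzr
      have hp1 : p ⊆ ac L w1 (ac L w2 r') := by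
        have h3 := ac_mono (L := L) (w := w1) (hq1z.trans hzr')
        rw [hf1] at h3
        exact hpq.trans h3
      obtain ⟨i2, hi2, s, hsb, hrs⟩ := h.tot al hal (ac L w1 (ac L w2 r')) (Dl.ac (Dl.ac hr')) hp1
      have hsL := (hb al i2).sub hsb
      -- the condition
      set r2 := ac L w1 s with hr2
      have hr2L : r2 ∈ Dl L := Dl.ac hsL
      have hrr2 : ac L w2 r' ⊆ r2 := ac_sub_iff.1 hrs
      have hzr2 : z ⊆ r2 := hzr'.trans hrr2
      have h3 : ac L w1 r2 ∈ b al i2 := by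
        rw [hr2, ac_ac]
        exact hsb
      have h4 : ac L w2 r2 ∈ b al i := (hb al i).up _ h1 _ (Dl.ac hr2L) (by
        have := ac_mono (L := L) (w := w2) hrr2
        rwa [ac_ac] at this)
      have h5 : i = i2 := by
        by_contra hne
        exact hi r2 hr2L hzr2 al hal i hi1 i2 hi2 hne h4 h3
      subst h5
      have h6 : ac L (w2 * u) r2 ∈ b al i' := by
        refine (hb al i').up _ h2 _ (Dl.ac hr2L) ?_
        have h7 := ac_mono (L := L) (w := w2 * u) hrr2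
        rw [← ac_mul, Ed.mul_comm', ← mul_assoc] at h7
        have h8 : w2 * w2 = 1 := inv_mul_cancel w2
        rw [h8, one_mul] at h7
        exact h7
      obtain ⟨e', he', h7⟩ := Dl.col hr2L hLr
      let u' : Ed K := ⟨fun x n => u.w x n && decide (x < e'), i0, fun x n hn => by
        rw [hu1 x n hn, Bool.false_and]⟩
      have hu' : ∀ x n, u'.w x n = (u.w x n && decide (x < e')) := fun _ _ => rfl
      refine ⟨(r2, u'), hr2L, Or.inr (hz1.trans hzr2), fun x n hn => ?_,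
        ⟨e, he, he1, he2, he3, fun x n hx => ?_⟩, ⟨e', he', fun x n hx => ?_⟩,
        fun _ => ⟨hz1.trans hzr2, hz2.trans hzr2, al, hal, i', hi', i, hi1, hii.symm, ?_, h3⟩⟩
      · change u'.w x n = false
        rw [hu', hu1 x n hn, Bool.false_and]
      · change u'.w x n = false
        rw [hu', hu2 x n hx, Bool.false_and]
      · change u'.w x n = true at hx
        rw [hu', Bool.and_eq_true, decide_eq_true_iff] at hx
        exact hx.2
      · change ac L (w2 * u') r2 ∈ b al i'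
        have h8 : ac L (w2 * u') r2 = ac L (w2 * u) r2 := ac_congr fun f hf hfL => by
          rw [Ed.mul_w, Ed.mul_w, hu', decide_eq_true (h7 f hf hfL), Bool.and_true]
        rw [h8]
        exact h6
  · refine ⟨(∅, 1), empty_Dl L, Or.inl rfl, fun x n _ => Ed.one_w x n,
      ⟨e, he, he1, he2, he3, fun x n _ => Ed.one_w x n⟩, ⟨e, he, fun x n hx => ?_⟩,
      fun h' => absurd h' hz⟩
    exact absurd ((Ed.one_w x n).symm.trans hx) (by decide)

/-- The change for a set of stages. -/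
noncomputable def WR (i0 : ℕ) (d : Ix Y mu bt y → Set (Fa K) × Ed K) (A : Set K) : Ed K :=
  Wu i0 d {t | ze t ∈ A}

theorem WR_in {i0 : ℕ} {q1 : Set (Fa K)} {d : Ix Y mu bt y → Set (Fa K) × Ed K}
    (hd : ∀ t, Tm mu L bt y b i0 q1 t d (d t)) {A : Set K} {t : Ix Y mu bt y}
    (hA : ze t ∈ A) (hS : ∀ x < ze t, x ∈ A ↔ x ∈ zs t) :
    ac L (WR i0 d A) (d t).1 = ac L (Wu i0 d (V2 t) * (d t).2) (d t).1 := by
  refine ac_congr fun f hf hfL => ?_
  obtain ⟨e, he, h1, h2, h3, h4⟩ := (hd t).col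
  have hlater : ∀ s, t < s → (d s).2.w f.xi f.nn = false := by
    intro s hs
    obtain ⟨e', _, h1', _, _, h4'⟩ := (hd s).col
    exact h4' _ _ (h1' t hs f hf hfL)
  rw [Ed.mul_w]
  by_cases hx : f.xi < e
  · rw [h4 _ _ hx, Bool.xor_false, Bool.eq_iff_iff]
    change (Wu i0 d {t | ze t ∈ A}).w _ _ = true ↔ _
    rw [Wu_true, Wu_true]
    refine and_congr_right fun _ => ⟨?_, ?_⟩
    · rintro ⟨s, hs, h5⟩
      refine ⟨s, ?_, h5⟩
      rcases lt_trichotomy s t with h6 | h6 | h6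
      · refine ⟨h6, ?_⟩
        rcases (ze_le h6).lt_or_eq with h7 | h7
        · exact Or.inl ((hS _ h7).1 hs)
        · exact Or.inr h7
      · subst h6
        rw [h4 _ _ hx] at h5
        exact absurd h5 (by decide)
      · rw [hlater s h6] at h5
        exact absurd h5 (by decide)
    · rintro ⟨s, ⟨hst, hs⟩, h5⟩
      refine ⟨s, ?_, h5⟩
      change ze s ∈ A
      rcases hs with hs | hs
      · exact (hS _ (t.2.2.1 hs)).2 hs
      · rw [hs]
        exact hA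
  · have h5 : (Wu i0 d (V2 t)).w f.xi f.nn = false := by
      refine Wu_false fun s hs => ?_
      rw [← Bool.not_eq_true]
      exact fun h6 => hx (h2 s hs.1 _ _ h6)
    rw [h5, Bool.false_xor, Bool.eq_iff_iff]
    change (Wu i0 d {t | ze t ∈ A}).w _ _ = true ↔ _
    rw [Wu_true]
    constructor
    · rintro ⟨_, s, hs, h6⟩
      rcases lt_trichotomy s t with h7 | h7 | h7
      · exact absurd (h2 s h7 _ _ h6) hx
      · rw [← h7]
        exact h6
      · rw [hlater s h7] at h6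
        exact absurd h6 (by decide)
    · intro h6
      refine ⟨?_, t, hA, h6⟩
      by_contra hn
      rw [(hd t).row _ _ (not_lt.1 hn)] at h6
      exact absurd h6 (by decide)

theorem WR_out {i0 : ℕ} {q1 : Set (Fa K)} {d : Ix Y mu bt y → Set (Fa K) × Ed K}
    (hd : ∀ t, Tm mu L bt y b i0 q1 t d (d t)) {A : Set K} {t : Ix Y mu bt y}
    (hA : ze t ∉ A) (hS : ∀ x < ze t, x ∈ A ↔ x ∈ zs t) :
    ac L (WR i0 d A) (d t).1 = ac L (Wu i0 d (V1 t)) (d t).1 := by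
  refine ac_congr fun f hf hfL => ?_
  have hlater : ∀ s, t < s → (d s).2.w f.xi f.nn = false := by
    intro s hs
    obtain ⟨e', _, h1', _, _, h4'⟩ := (hd s).col
    exact h4' _ _ (h1' t hs f hf hfL)
  rw [Bool.eq_iff_iff]
  change (Wu i0 d {t | ze t ∈ A}).w _ _ = true ↔ _
  rw [Wu_true, Wu_true]
  refine and_congr_right fun _ => ⟨?_, ?_⟩
  · rintro ⟨s, hs, h5⟩
    refine ⟨s, ?_, h5⟩
    rcases lt_trichotomy s t with h6 | h6 | h6
    · refine ⟨h6, ?_⟩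
      rcases (ze_le h6).lt_or_eq with h7 | h7
      · exact (hS _ h7).1 hs
      · exfalso
        have hs' : ze s ∈ A := hs
        rw [h7] at hs'
        exact hA hs'
    · subst h6
      exact absurd hs hA
    · rw [hlater s h6] at h5
      exact absurd h5 (by decide)
  · rintro ⟨s, ⟨hst, hs⟩, h5⟩
    exact ⟨s, (hS _ (t.2.2.1 hs)).2 hs, h5⟩

/-- The moved case is impossible. -/
theorem not_mv (hs : InS mu) (hL : IsSuc mu L) (hR : ∀ a i c k, Ivs L (R a i c k))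
    (hb : ∀ a i, Ro L (b a i)) (h : Br mu L R b p) {i0 : ℕ} {q1 : Set (Fa K)} (hq1 : q1 ∈ Dl L)
    (hpq : p ⊆ q1) (hm : Mv mu L b i0 q1) : False := by
  classical
  have hLr : IsReg L := hL.reg hs.inf
  have hA : InA L := ⟨mu, hs, hL⟩
  obtain ⟨bt, hbt, hc⟩ := hs.exists_bt
  obtain ⟨iY, wY⟩ := exists_wellFoundedLT (Set K × Set (Fa K))
  let y : Set K × Set (Fa K) → Set K × Set (Fa K) := id
  have hy : Function.Injective y := fun _ _ h => h
  have hfew := few_ix (mu := mu) (bt := bt) (y := y) hy hbt hc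
  have hsm : #(Ix (Set K × Set (Fa K)) mu bt y) < #(Iio L) := by
    refine lt_of_le_of_lt ?_ (hfew L hLr)
    rw [← mk_univ]
    exact mk_le_mk_of_subset fun s _ => ⟨L, hA, (hbt _ s.2.1).2.1.trans hL.lt, le_rfl⟩
  have hne : Nonempty (Ed K) := ⟨1⟩
  obtain ⟨d, hd, _, hU⟩ := fusion (X := Ed K) (fun s : Ix (Set K × Set (Fa K)) mu bt y =>
    bt (ze s)) hfew hq1.1 (Tm mu L bt y b i0 q1) (fun t d d' a h hT => hT.loc h)
    (fun t d a hT => ⟨hT.dl.1, hT.qs⟩)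
    (fun t d _ hd => Tm.exists_next hs hL hy hbt hc hb h hq1 hpq hm t d hd)
  set q := QU q1 (fun s : Ix (Set K × Set (Fa K)) mu bt y => bt (ze s)) (fun s => (d s).1) univ
    with hq
  have hq1q : q1 ⊆ q := sub_QU
  have hqL : q ∈ Dl L := by
    refine ⟨hU, ?_⟩
    rintro f (hf | hf)
    · exact hq1.2 f hf
    · obtain ⟨t, _, hf⟩ := mem_iUnion₂.1 hf
      obtain ⟨g, hg, e⟩ := sh_st' hf
      rw [← e]
      exact (hd t).dl.2 g hg
  -- the levels used
  have hal : ∀ t : Ix (Set K × Set (Fa K)) mu bt y, ∃ al < L,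
      (∃ z ∈ Dl L, Qs q1 t d ⊆ z ∧ zt t ⊆ z) → ∃ i < mu, ∃ i' < mu, i ≠ i' ∧
        ac L (Wu i0 d (V2 t) * (d t).2) (d t).1 ∈ b al i ∧
        ac L (Wu i0 d (V1 t)) (d t).1 ∈ b al i' := by
    intro t
    by_cases hz : ∃ z ∈ Dl L, Qs q1 t d ⊆ z ∧ zt t ⊆ z
    · obtain ⟨_, _, al, hal, h1⟩ := (hd t).dec hz
      exact ⟨al, hal, fun _ => h1⟩
    · exact ⟨mu, hL.lt, fun h' => absurd h' hz⟩
  choose al halL hal' using hal
  obtain ⟨as, has, hast⟩ := hLr.bdd (X := range al) (mk_range_le.trans_lt hsm) (by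
    rintro _ ⟨s, rfl⟩
    exact halL s)
  have hfixR : ∀ A : Set K, ac L (WR i0 d A) q1 = q1 := fun A => Tm.fix_q1 fun t _ => hd t
  have hBrR : ∀ A : Set K, Br mu L R (mvb L (WR i0 d A) b) q := fun A =>
    ((h.mono hpq).mvb hR (hfixR A)).mono hq1q
  -- two different sets give different branches
  have dist0 : ∀ (A A' : Set K) (z : K), z < mu → z ∈ A → z ∉ A' → (∀ x < z, x ∈ A ↔ x ∈ A') →
      ∀ u ∈ Dl L, q ⊆ u → ∃ v ∈ Dl L, u ⊆ v ∧ ∃ al < as, ∃ i < mu, ∃ i' < mu, i ≠ i' ∧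
        v ∈ mvb L (WR i0 d A) b al i ∧ v ∈ mvb L (WR i0 d A') b al i' := by
    intro A A' z hz hzA hzA' hAA u hu hqu
    let t : Ix (Set K × Set (Fa K)) mu bt y := ⟨toLex (z, (A ∩ Iio z, NS.le (bt z) u)), hz,
      fun x hx => hx.2, Dl.le hu⟩
    have hzt : ze t = z := rfl
    have hzs : zs t = A ∩ Iio z := rfl
    have hzc : zt t = NS.le (bt z) u := rfl
    have hQu : Qs q1 t d ⊆ u := (QU_mono (subset_univ _)).trans hqu
    have hex : ∃ z ∈ Dl L, Qs q1 t d ⊆ z ∧ zt t ⊆ z := ⟨u, hu, hQu, le_sub⟩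
    obtain ⟨i, hi, i', hi', hii, h1, h2⟩ := hal' t hex
    obtain ⟨h3, h4, _⟩ := (hd t).dec hex
    have h5 : sh (bt z) (d t).1 ⊆ u :=
      (sh_sub_QU (bt := fun s : Ix (Set K × Set (Fa K)) mu bt y => bt (ze s))
        (r := fun s => (d s).1) (mem_univ t)).trans hqu
    obtain ⟨_, h6⟩ := Dl.union_rec hu (hd t).dl h5 h4
    refine ⟨u ∪ (d t).1, h6, subset_union_left, al t, hast _ ⟨t, rfl⟩, i, hi, i', hi', hii,
      ?_, ?_⟩
    · have h7 := WR_in hd (A := A) (t := t) hzA fun x hx => by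
        rw [hzs]
        exact ⟨fun h => ⟨h, hx⟩, fun h => h.1⟩
      rw [← h7] at h1
      exact (hb _ _).up _ h1 _ (Dl.ac h6) (ac_mono subset_union_right)
    · have h7 := WR_out hd (A := A') (t := t) hzA' fun x hx => by
        rw [hzs]
        exact ⟨fun h => ⟨(hAA x hx).2 h, hx⟩, fun h => (hAA x hx).1 h.1⟩
      rw [← h7] at h2
      exact (hb _ _).up _ h2 _ (Dl.ac h6) (ac_mono subset_union_right)
  have dist1 : ∀ A A' : Set K, A ⊆ Iio mu → A' ⊆ Iio mu → A ≠ A' →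
      ∀ u ∈ Dl L, q ⊆ u → ∃ v ∈ Dl L, u ⊆ v ∧ ∃ al < as, ∃ i < mu, ∃ i' < mu, i ≠ i' ∧
        v ∈ mvb L (WR i0 d A) b al i ∧ v ∈ mvb L (WR i0 d A') b al i' := by
    intro A A' hAm hAm' hne u hu hqu
    have hex : {x | ¬ (x ∈ A ↔ x ∈ A')}.Nonempty := by
      by_contra hcon
      rw [not_nonempty_iff_eq_empty, eq_empty_iff_forall_notMem] at hcon
      exact hne (Set.ext fun x => not_not.1 (hcon x))
    obtain ⟨z, hz, hmin⟩ := (wellFounded_lt (α := K)).has_min _ hex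
    have hz' : ¬ (z ∈ A ↔ z ∈ A') := hz
    have hbel : ∀ x < z, x ∈ A ↔ x ∈ A' := fun x hx => by
      by_contra hcon
      exact hmin x hcon hx
    by_cases hzA : z ∈ A
    · have hzA' : z ∉ A' := fun h => hz' ⟨fun _ => h, fun _ => hzA⟩
      exact dist0 A A' z (hAm hzA) hzA hzA' hbel u hu hqu
    · have hzA' : z ∈ A' := by
        by_contra h
        exact hz' ⟨fun h' => absurd h' hzA, fun h' => absurd h' h⟩
      obtain ⟨v, hv, huv, al, hal, i, hi, i', hi', hii, h1, h2⟩ :=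
        dist0 A' A z (hAm' hzA') hzA' hzA (fun x hx => (hbel x hx).symm) u hu hqu
      exact ⟨v, hv, huv, al, hal, i', hi', i, hi, hii.symm, h2, h1⟩
  have dist2 : ∀ A A' : Set K, A ⊆ Iio mu → A' ⊆ Iio mu → A ≠ A' →
      ∀ u ∈ Dl L, q ⊆ u → ∀ k < mu, u ∈ mvb L (WR i0 d A) b as k →
        u ∈ mvb L (WR i0 d A') b as k → False := by
    intro A A' hAm hAm' hne u hu hqu k hk h1 h2
    obtain ⟨v, hv, huv, al, hal, i, hi, i', hi', hii, h3, h4⟩ := dist1 A A' hAm hAm' hne u hu hqu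
    exact hii ((hBrR A).agree (hBrR A') (fun a i => Ro.mvb hb a i) hal has hi hi' hk
      (hqu.trans huv) h3 h4 ((Ro.mvb hb as k).up _ h1 _ hv huv)
      ((Ro.mvb hb as k).up _ h2 _ hv huv))
  -- many sets
  have hcard : #(Iio L) ≤ #(Set (Iio mu)) := by
    rw [hL.card, mk_set]
    exact Order.succ_le_of_lt (cantor _)
  obtain ⟨⟨Φ, hΦ⟩⟩ := Cardinal.le_def _ _ |>.1 hcard
  let RR : Iio L → Set K := fun t => Subtype.val '' Φ t
  have hRR : ∀ t, RR t ⊆ Iio mu := by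
    rintro t _ ⟨x, _, rfl⟩
    exact x.2
  have hRRi : ∀ t t', t ≠ t' → RR t ≠ RR t' := fun t t' hne e =>
    hne (hΦ (Subtype.val_injective.image_injective e))
  let E : K → Set (Set (Fa K)) := fun i => {r | (∃ t, r ∈ mvb L (WR i0 d (RR t)) b as i) ∨
    ∀ v ∈ Dl L, r ⊆ v → ∀ t, v ∉ mvb L (WR i0 d (RR t)) b as i}
  obtain ⟨q2, hq2, hqq2, Rec, h1, h2, h3⟩ := decide_S hs E hqL (fun i hi u hu _ => by
    by_cases hex : ∃ v ∈ Dl L, u ⊆ v ∧ ∃ t, v ∈ mvb L (WR i0 d (RR t)) b as i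
    · obtain ⟨v, hv, huv, t, ht⟩ := hex
      exact ⟨v, Or.inl ⟨t, ht⟩, hv, huv⟩
    · push Not at hex
      exact ⟨u, Or.inr hex, hu, subset_rfl⟩)
  let Z : Set (Iio L) := ⋃ i ∈ Iio mu, ⋃ r ∈ Rec i, {t | r ∈ mvb L (WR i0 d (RR t)) b as i}
  have hZ : #Z < #(Iio L) := by
    refine sm_biUnion hLr.reg (hL.ini _ hL.lt) fun i hi => ?_
    refine sm_biUnion hLr.reg ((h1 i hi).trans (hL.ini _ hL.lt)) fun r hr => ?_
    have hss : {t | r ∈ mvb L (WR i0 d (RR t)) b as i}.Subsingleton := by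
      intro t ht t' ht'
      by_contra hne
      obtain ⟨_, hrL, hqr, _⟩ := h2 i hi r hr
      exact dist2 _ _ (hRR t) (hRR t') (hRRi t t' hne) r hrL hqr i hi ht ht'
    exact (lt_aleph0_iff_set_finite.2 hss.finite).trans_le hLr.reg.aleph0_le
  obtain ⟨ts, hts⟩ : ∃ t, t ∉ Z := by
    by_contra hcon
    push Not at hcon
    have : Z = Set.univ := eq_univ_of_forall hcon
    rw [this, mk_univ] at hZ
    exact lt_irrefl _ hZ
  obtain ⟨k, hk, v, hv, hqv⟩ := (hBrR (RR ts)).tot as has q2 hq2 hqq2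
  have hvL : v ∈ Dl L := (Ro.mvb hb as k).sub hv
  obtain ⟨r, hr, hvr⟩ := h3 k hk v hvL hqv
  have hvr' : v ∪ r ∈ mvb L (WR i0 d (RR ts)) b as k :=
    (Ro.mvb hb as k).up _ hv _ hvr subset_union_left
  obtain ⟨hE, hrL, hqr, _⟩ := h2 k hk r hr
  rcases hE with ⟨t, ht⟩ | hE
  · have htZ : t ∈ Z := mem_iUnion₂.2 ⟨k, hk, mem_iUnion₂.2 ⟨r, hr, ht⟩⟩
    have hne : t ≠ ts := fun e => hts (e ▸ htZ)
    exact dist2 _ _ (hRR t) (hRR ts) (hRRi t ts hne) (v ∪ r) hvr (hqr.trans subset_union_right) k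
      hk ((Ro.mvb hb as k).up _ ht _ hvr subset_union_right) hvr'
  · exact hE _ hvr subset_union_right ts hvr'

/-- From a branch in the full extension to an invariant branch. -/
theorem exists_inv (hs : InS mu) (hL : IsSuc mu L) (hR : ∀ a i c k, Ivs L (R a i c k))
    (hb : ∀ a i, Ro L (b a i)) (hp : p ∈ Dl L) (h : Br mu L R b p) :
    ∃ q ∈ Dl L, p ⊆ q ∧ ∃ b' : K → K → Set (Set (Fa K)), (∀ a i, Ro L (b' a i)) ∧
      (∀ a i, Ivs L (b' a i)) ∧
      (∀ a < L, ∀ r ∈ Dl L, q ⊆ r → ∃ s ∈ Dl L, r ⊆ s ∧ ∃ i < mu, s ∈ b' a i) ∧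
      ∀ a c, a < c → c < L → ∀ i < mu, ∀ k < mu, ∀ r ∈ Dl L, q ⊆ r → r ∈ b' a i → r ∈ b' c k →
        r ∈ R a i c k := by
  rcases mv_or_fx (hL.reg hs.inf) hb h hp with ⟨i0, q1, hq1, hpq, hm⟩ | ⟨q0, hq0, hpq, e, he, hfx⟩
  · exact (not_mv hs hL hR hb h hq1 hpq hm).elim
  · obtain ⟨q, hq, hqq, h1⟩ := inv_of_fx hs hL hb h hq0 hpq he hfx
    exact ⟨q, hq, hpq.trans hqq, h1⟩

end K

end Pool.Agent.helper75.NS
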