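import Pool.Agent.helper75.NS.Branch

/-!
# The narrow system
-/

namespace Pool.Agent.helper75.NS

open Cardinal Set Fa

section K

variable {K : Type} [LinearOrder K] [WellFoundedLT K] [Inhabited K]

/-- The fact `f` is at the coordinate `(L, x, n)`. -/
def At (L x : K) (n : ℕ) (f : Fa K) : Prop := f.st = L ∧ f.xi = x ∧ f.nn = n

/-- `u` forces that the function of the pattern `v` agrees with the generic function on columns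
below `e` and rows from `i` on. -/
def Ag (L : K) (v : Set (Fa K)) (e : K) (i : ℕ) (u : Set (Fa K)) : Prop := lo L v ⊆ u ∧
  ∀ x < e, ∀ n, i ≤ n → ∀ u' ∈ Dl L, u ⊆ u' → ∃ t ∈ Dl L, u' ⊆ t ∧ ∃ f ∈ v, ∃ g ∈ t,
    At L x n f ∧ At L x n g ∧ f.bb = g.bb ∧ f.pre ⊆ t ∧ g.pre ⊆ t

/-- `u` forces that `v` is the first pattern that agrees with the generic function on columns
below `e` and almost all rows. -/
def IsF (L : K) (v : Set (Fa K)) (e : K) (u : Set (Fa K)) : Prop := v ∈ Dl L ∧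
  (∀ u' ∈ Dl L, u ⊆ u' → ∃ t ∈ Dl L, u' ⊆ t ∧ ∃ i, Ag L v e i t) ∧
  ∀ v' ∈ Dl L, WellOrderingRel v' v → ∀ u' ∈ Dl L, u ⊆ u' → ∀ i, ¬ Ag L v' e i u'

/-- `u` forces that the patterns `v`, `v'` agree on columns below `a` and rows from `n` on. -/
def Eqv (L : K) (v v' : Set (Fa K)) (a : K) (n : ℕ) (u : Set (Fa K)) : Prop :=
  ∀ x < a, ∀ m, n ≤ m → ∀ u' ∈ Dl L, u ⊆ u' → ∃ t ∈ Dl L, u' ⊆ t ∧ ∃ f ∈ v, ∃ g ∈ v',
    At L x m f ∧ At L x m g ∧ f.bb = g.bb ∧ f.pre ⊆ t ∧ g.pre ⊆ t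

/-- The narrow system. -/
def cs (L a b : K) (n : ℕ) : Set (Set (Fa K)) := {u | u ∈ Dl L ∧ ∀ u' ∈ Dl L, u ⊆ u' →
  ∃ t ∈ Dl L, u' ⊆ t ∧ ∃ v v', IsF L v a t ∧ IsF L v' b t ∧ Eqv L v v' a n t}

variable {mu L : K}

theorem Ag.mono {v : Set (Fa K)} {e : K} {i : ℕ} {u t : Set (Fa K)} (h : Ag L v e i u)
    (hut : u ⊆ t) : Ag L v e i t :=
  ⟨h.1.trans hut, fun x hx n hn u' hu' htu => h.2 x hx n hn u' hu' (hut.trans htu)⟩

theorem Ag.row {v : Set (Fa K)} {e : K} {i j : ℕ} {u : Set (Fa K)} (h : Ag L v e i u)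
    (hij : i ≤ j) : Ag L v e j u :=
  ⟨h.1, fun x hx n hn u' hu' htu => h.2 x hx n (hij.trans hn) u' hu' htu⟩

theorem IsF.mono {v : Set (Fa K)} {e : K} {u t : Set (Fa K)} (h : IsF L v e u)
    (hut : u ⊆ t) : IsF L v e t :=
  ⟨h.1, fun u' hu' htu => h.2.1 u' hu' (hut.trans htu), fun v' hv' hvv u' hu' htu =>
    h.2.2 v' hv' hvv u' hu' (hut.trans htu)⟩

theorem Eqv.mono {v v' : Set (Fa K)} {a : K} {n : ℕ} {u t : Set (Fa K)} (h : Eqv L v v' a n u)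
    (hut : u ⊆ t) : Eqv L v v' a n t := fun x hx m hm u' hu' htu =>
  h x hx m hm u' hu' (hut.trans htu)

theorem IsF.unique {v v' : Set (Fa K)} {e : K} {u : Set (Fa K)} (hu : u ∈ Dl L)
    (h : IsF L v e u) (h' : IsF L v' e u) : v = v' := by
  rcases trichotomous_of (WellOrderingRel (α := Set (Fa K))) v v' with h1 | h1 | h1
  · obtain ⟨t, ht, hut, i, hi⟩ := h.2.1 u hu subset_rfl
    exact absurd hi (h'.2.2 v h.1 h1 t ht hut i)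
  · exact h1
  · obtain ⟨t, ht, hut, i, hi⟩ := h'.2.1 u hu subset_rfl
    exact absurd hi (h.2.2 v' h'.1 h1 t ht hut i)

theorem exists_isF (hs : InS mu) (hL : IsSuc mu L) {e : K} (he : e < L) {u : Set (Fa K)}
    (hu : u ∈ Dl L) : ∃ t ∈ Dl L, u ⊆ t ∧ ∃ v, IsF L v e t := by
  obtain ⟨q, hq, huq, hfull⟩ := exists_full hs hL he hu
  let S : Set (Set (Fa K)) := {v | v ∈ Dl L ∧ ∃ t ∈ Dl L, u ⊆ t ∧ ∃ i, Ag L v e i t}
  have hne : S.Nonempty := by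
    refine ⟨q, hq, q, hq, huq, 0, lo_sub, fun x hx n _ u' hu' hqu => ?_⟩
    obtain ⟨t, ht, hut, f, hf, h1, h2, h3, h4⟩ := hfull x hx n u' hu' hqu
    exact ⟨t, ht, hut, f, hf, f, hut (hqu hf), ⟨h1, h2, h3⟩, ⟨h1, h2, h3⟩, rfl, h4, h4⟩
  obtain ⟨v, ⟨hv, t, ht, hut, i, hi⟩, hmin⟩ :=
    (IsWellFounded.wf (r := WellOrderingRel (α := Set (Fa K)))).has_min S hne
  refine ⟨t, ht, hut, v, hv, fun u' hu' htu => ⟨u', hu', subset_rfl, i, hi.mono htu⟩,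
    fun v' hv' hvv u' hu' htu j hj => ?_⟩
  exact hmin v' ⟨hv', u', hu', hut.trans htu, j, hj⟩ hvv

/-- The function of a pattern is unique where the pattern is alive. -/
theorem pat_unique {v u : Set (Fa K)} (hv : v ∈ Dl L) (hu : u ∈ Dl L) (h : lo L v ⊆ u)
    {f g : Fa K} (hf : f ∈ v) (hg : g ∈ v) {x : K} {n : ℕ} (h1 : At L x n f) (h2 : At L x n g)
    (h3 : f.pre ⊆ u) (h4 : g.pre ⊆ u) : f.bb = g.bb := by
  by_contra hne
  refine hv.1.val hf hg ⟨h1.1.trans h2.1.symm, h1.2.1.trans h2.2.1.symm,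
    h1.2.2.trans h2.2.2.symm, hne⟩ (hu.1.lo L) (fun x hx => ?_) ?_ ?_ ?_
  · rw [h1.1]
    exact hx.2
  · rw [h1.1]
    exact fun x hx => ⟨h hx, hx.2⟩
  · intro x hx
    refine ⟨h3 hx, ?_⟩
    have := ((hv.1.wf f hf).pre hx).2
    rwa [h1.1] at this
  · intro x hx
    refine ⟨h4 hx, ?_⟩
    have := ((hv.1.wf g hg).pre hx).2
    rwa [h2.1] at this

theorem gen_unique {u : Set (Fa K)} (hu : u ∈ Dl L) {f g : Fa K} (hf : f ∈ u) (hg : g ∈ u) {x : K}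
    {n : ℕ} (h1 : At L x n f) (h2 : At L x n g) (h3 : f.pre ⊆ u) (h4 : g.pre ⊆ u) :
    f.bb = g.bb :=
  hu.1.unique hf hg (h1.1.trans h2.1.symm) (h1.2.1.trans h2.2.1.symm)
    (h1.2.2.trans h2.2.2.symm) h3 h4

theorem pre_ac {w : Ed K} {f : Fa K} {u : Set (Fa K)} (hf : Wf f) (hL : f.st ≤ L)
    (h : f.pre ⊆ u) : f.pre ⊆ ac L w u := fun _ hx =>
  mem_ac_of_lt (h hx) ((hf.pre hx).2.trans_le hL)

theorem Ag.ac {v u : Set (Fa K)} {e : K} {i j : ℕ} (hv : v ∈ Dl L) {w : Ed K}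
    (hw : ∀ x n, j ≤ n → w.w x n = false) (h : Ag L v e i u) :
    Ag L v e (max i j) (NS.ac L w u) := by
  refine ⟨fun f hf => mem_ac_of_lt (h.1 hf) hf.2, fun x hx n hn u' hu' huu => ?_⟩
  obtain ⟨t, ht, hut, f, hf, g, hg, h1, h2, h3, h4, h5⟩ := h.2 x hx n
    ((le_max_left _ _).trans hn) (NS.ac L w u') (Dl.ac hu') (ac_sub_iff.1 huu)
  have hfw := hv.1.wf f hf
  have hgw := ht.1.wf g hg
  refine ⟨NS.ac L w t, Dl.ac ht, ac_sub_iff.1 hut, f, hf, fl L w g, ⟨g, hg, rfl⟩, h1,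
    ⟨fl_st.trans h2.1, fl_xi.trans h2.2.1, fl_nn.trans h2.2.2⟩, ?_, ?_, ?_⟩
  · rw [fl_bb h2.1 hgw.ne, h2.2.1, h2.2.2, hw x n ((le_max_right _ _).trans hn), Bool.xor_false]
    exact h3
  · exact pre_ac hfw h1.1.le h4
  · rw [fl_pre]
    exact pre_ac hgw h2.1.le h5

theorem IsF.ac {v u : Set (Fa K)} {e : K} (w : Ed K) (h : IsF L v e u) :
    IsF L v e (NS.ac L w u) := by
  obtain ⟨j, hj⟩ := w.bd
  refine ⟨h.1, fun u' hu' huu => ?_, fun v' hv' hvv u' hu' huu i hi => ?_⟩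
  · obtain ⟨t, ht, hut, i, hi⟩ := h.2.1 (NS.ac L w u') (Dl.ac hu') (ac_sub_iff.1 huu)
    exact ⟨NS.ac L w t, Dl.ac ht, ac_sub_iff.1 hut, _, hi.ac h.1 fun x n => hj x n⟩
  · exact h.2.2 v' hv' hvv (NS.ac L w u') (Dl.ac hu') (ac_sub_iff.1 huu) _
      (hi.ac hv' fun x n => hj x n)

theorem Eqv.ac {v v' u : Set (Fa K)} {a : K} {n : ℕ} (hv : v ∈ Dl L) (hv' : v' ∈ Dl L) (w : Ed K)
    (h : Eqv L v v' a n u) : Eqv L v v' a n (NS.ac L w u) := by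
  intro x hx m hm u' hu' huu
  obtain ⟨t, ht, hut, f, hf, g, hg, h1, h2, h3, h4, h5⟩ := h x hx m hm (NS.ac L w u')
    (Dl.ac hu') (ac_sub_iff.1 huu)
  exact ⟨NS.ac L w t, Dl.ac ht, ac_sub_iff.1 hut, f, hf, g, hg, h1, h2, h3,
    pre_ac (hv.1.wf f hf) h1.1.le h4, pre_ac (hv'.1.wf g hg) h2.1.le h5⟩

theorem cs_ro (a b : K) (n : ℕ) : Ro L (cs L a b n) where
  sub := fun u hu => hu.1
  up := fun u hu t ht hut => ⟨ht, fun u' hu' htu => hu.2 u' hu' (hut.trans htu)⟩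
  dense := fun u hu hd => ⟨hu, fun u' hu' huu => by
    obtain ⟨r, hr, hur⟩ := hd u' hu' huu
    obtain ⟨t, ht, hrt, h⟩ := hr.2 r hr.1 subset_rfl
    exact ⟨t, ht, hur.trans hrt, h⟩⟩

theorem cs_iv (a b : K) (n : ℕ) : Ivs L (cs L a b n) := fun w u hu => by
  refine ⟨Dl.ac hu.1, fun u' hu' huu => ?_⟩
  obtain ⟨t, ht, hut, v, v', h1, h2, h3⟩ := hu.2 (ac L w u') (Dl.ac hu') (ac_sub_iff.1 huu)
  exact ⟨ac L w t, Dl.ac ht, ac_sub_iff.1 hut, v, v', h1.ac w, h2.ac w, h3.ac h1.1 h2.1 w⟩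

theorem cs_tot (hs : InS mu) (hL : IsSuc mu L) {a b : K} (hab : a < b) (hb : b < L)
    {p : Set (Fa K)} (hp : p ∈ Dl L) : ∃ q ∈ Dl L, p ⊆ q ∧ ∃ n, q ∈ cs L a b n := by
  obtain ⟨u1, hu1, h1, v, hv⟩ := exists_isF hs hL (hab.trans hb) hp
  obtain ⟨u2, hu2, h2, v', hv'⟩ := exists_isF hs hL hb hu1
  obtain ⟨u3, hu3, h3, i, hi⟩ := hv.2.1 u2 hu2 h2
  obtain ⟨u4, hu4, h4, i', hi'⟩ := hv'.2.1 u3 hu3 h3
  refine ⟨u4, hu4, h1.trans (h2.trans (h3.trans h4)), max i i', hu4, fun u' hu' huu =>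
    ⟨u', hu', subset_rfl, v, v', hv.mono (h2.trans (h3.trans (h4.trans huu))),
      hv'.mono (h3.trans (h4.trans huu)), fun x hx m hm t ht hut => ?_⟩⟩
  obtain ⟨t1, ht1, h5, f, hf, g, hg, a1, a2, a3, a4, a5⟩ := hi.2 x hx m
    ((le_max_left _ _).trans hm) t ht (h4.trans (huu.trans hut))
  obtain ⟨t2, ht2, h6, f', hf', g', hg', b1, b2, b3, b4, b5⟩ := hi'.2 x (hx.trans hab) m
    ((le_max_right _ _).trans hm) t1 ht1 (huu.trans (hut.trans h5))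
  refine ⟨t2, ht2, h5.trans h6, f, hf, f', hf', a1, b1, ?_, a4.trans h6, b4⟩
  rw [a3, b3]
  exact gen_unique ht2 (h6 hg) hg' a2 b2 (a5.trans h6) b5

theorem cs_trans {x y z : K} {n : ℕ} (hxy : x < y) {p : Set (Fa K)}
    (h1 : p ∈ cs L x y n) (h2 : p ∈ cs L y z n) : p ∈ cs L x z n := by
  refine ⟨h1.1, fun u' hu' huu => ?_⟩
  obtain ⟨u1, hu1, a1, vx, vy, b1, b2, b3⟩ := h1.2 u' hu' huu
  obtain ⟨u2, hu2, a2, vy', vz, c1, c2, c3⟩ := h2.2 u1 hu1 (huu.trans a1)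
  obtain rfl : vy = vy' := (b2.mono a2).unique hu2 c1
  obtain ⟨u3, hu3, a3, i, hi⟩ := c1.2.1 u2 hu2 subset_rfl
  refine ⟨u3, hu3, a1.trans (a2.trans a3), vx, vz, b1.mono (a2.trans a3), c2.mono a3,
    fun x' hx' m hm t ht hut => ?_⟩
  obtain ⟨t1, ht1, h5, f, hf, g, hg, d1, d2, d3, d4, d5⟩ := b3 x' hx' m hm t ht
    (a2.trans (a3.trans hut))
  obtain ⟨t2, ht2, h6, g', hg', k, hk, e1, e2, e3, e4, e5⟩ := c3 x' (hx'.trans hxy) m hm t1 ht1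
    (a3.trans (hut.trans h5))
  refine ⟨t2, ht2, h5.trans h6, f, hf, k, hk, d1, e2, ?_, d4.trans h6, e5⟩
  rw [d3, ← e3]
  exact pat_unique c1.1 ht2 (hi.1.trans (hut.trans (h5.trans h6))) hg hg' d2 e1 (d5.trans h6) e4

theorem cs_like {x y z : K} {n : ℕ} (hxy : x < y) {p : Set (Fa K)}
    (h1 : p ∈ cs L x z n) (h2 : p ∈ cs L y z n) : p ∈ cs L x y n := by
  refine ⟨h1.1, fun u' hu' huu => ?_⟩
  obtain ⟨u1, hu1, a1, vx, vz, b1, b2, b3⟩ := h1.2 u' hu' huu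
  obtain ⟨u2, hu2, a2, vy, vz', c1, c2, c3⟩ := h2.2 u1 hu1 (huu.trans a1)
  obtain rfl : vz = vz' := (b2.mono a2).unique hu2 c2
  obtain ⟨u3, hu3, a3, i, hi⟩ := c2.2.1 u2 hu2 subset_rfl
  refine ⟨u3, hu3, a1.trans (a2.trans a3), vx, vy, b1.mono (a2.trans a3), c1.mono a3,
    fun x' hx' m hm t ht hut => ?_⟩
  obtain ⟨t1, ht1, h5, f, hf, g, hg, d1, d2, d3, d4, d5⟩ := b3 x' hx' m hm t ht
    (a2.trans (a3.trans hut))
  obtain ⟨t2, ht2, h6, k, hk, g', hg', e1, e2, e3, e4, e5⟩ := c3 x' (hx'.trans hxy) m hm t1 ht1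
    (a3.trans (hut.trans h5))
  refine ⟨t2, ht2, h5.trans h6, f, hf, k, hk, d1, e1, ?_, d4.trans h6, e4⟩
  rw [d3, e3]
  exact pat_unique c2.1 ht2 (hi.1.trans (hut.trans (h5.trans h6))) hg hg' d2 e2 (d5.trans h6) e5

/-- There is no invariant branch. -/
theorem cs_nobr (hs : InS mu) (hL : IsSuc mu L) (n : ℕ) (B : K → Set (Set (Fa K)))
    (hB : ∀ a, Ro L (B a)) (hBi : ∀ a, Ivs L (B a)) {p : Set (Fa K)} (hp : p ∈ Dl L)
    (h1 : ∀ x < L, ∀ q ∈ Dl L, p ⊆ q → ∃ r ∈ Dl L, q ⊆ r ∧ ∃ a, x < a ∧ a < L ∧ r ∈ B a)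
    (h2 : ∀ a b, a < b → b < L → ∀ q ∈ Dl L, p ⊆ q → q ∈ B a → q ∈ B b → q ∈ cs L a b n) :
    False := by
  have hLr : IsReg L := hL.reg hs.inf
  -- a fixed row
  obtain ⟨q, hq, hpq, i, hqi⟩ : ∃ q ∈ Dl L, p ⊆ q ∧ ∃ i, ∀ x < L, ∀ r ∈ Dl L, q ⊆ r →
      ∃ s ∈ Dl L, r ⊆ s ∧ ∃ a, x < a ∧ a < L ∧ s ∈ B a ∧ ∃ v, IsF L v a s ∧ Ag L v a i s := by
    by_contra hcon
    push Not at hcon
    have h3 : ∀ (i : ℕ) (q : {q : Set (Fa K) // q ∈ Dl L ∧ p ⊆ q}), ∃ x < L,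
        ∃ r : {q : Set (Fa K) // q ∈ Dl L ∧ p ⊆ q}, q.1 ⊆ r.1 ∧ ∀ s ∈ Dl L, r.1 ⊆ s →
          ∀ a, x < a → a < L → s ∈ B a → ∀ v, IsF L v a s → ¬ Ag L v a i s := by
      rintro i ⟨q, hq, hpq⟩
      obtain ⟨x, hx, r, hr, hqr, h4⟩ := hcon q hq hpq i
      exact ⟨x, hx, ⟨r, hr, hpq.trans hqr⟩, hqr, h4⟩
    choose X hX F hF hFB using h3
    let g : ℕ → {q : Set (Fa K) // q ∈ Dl L ∧ p ⊆ q} := fun n =>
      Nat.rec ⟨p, hp, subset_rfl⟩ (fun k q => F k q) n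
    have hg : ∀ n, g (n + 1) = F n (g n) := fun n => rfl
    have hgm : ∀ n, (g n).1 ⊆ (g (n + 1)).1 := fun n => by
      rw [hg]
      exact hF n (g n)
    obtain ⟨z, hz, hz'⟩ := hLr.bdd (X := range fun n => X n (g n)) (by
      refine mk_range_le.trans_lt ?_
      rw [mk_nat]
      exact hLr.unc) (by
      rintro _ ⟨n, rfl⟩
      exact hX n (g n))
    have hgU := Dl.iUnion (fun n => (g n).2.1) hgm
    have hpU : p ⊆ ⋃ n, (g n).1 :=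
      (subset_rfl : (g 0).1 ⊆ (g 0).1).trans (subset_iUnion (fun n => (g n).1) 0)
    obtain ⟨r, hr, hgr, a, hza, haL, hrB⟩ := h1 z hz _ hgU hpU
    obtain ⟨t, ht, hrt, v, hv⟩ := exists_isF hs hL haL hr
    obtain ⟨s, hs', hts, i, hi⟩ := hv.2.1 t ht subset_rfl
    refine hFB i (g i) s hs' ?_ a ((hz' _ ⟨i, rfl⟩).trans hza) haL
      ((hB a).up r hrB s hs' (hrt.trans hts)) v (hv.mono hts) hi
    rw [← hg]
    exact ((subset_iUnion (fun n => (g n).1) (i + 1)).trans hgr).trans (hrt.trans hts)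
  obtain ⟨e, he, hcol⟩ := Dl.col hq hLr
  let m := max n i
  obtain ⟨s1, hs1, hqs1, a1, hea1, ha1, hsB1, v1, hv1, hAg1⟩ := hqi e he q hq subset_rfl
  obtain ⟨s2, hs2, h12, f, hf, g, hg, c1, c2, c3, c4, c5⟩ := hAg1.2 e hea1 m (le_max_right _ _) s1
    hs1 subset_rfl
  let w : Ed K := ⟨fun x k => decide (x = e ∧ k = m), m + 1, fun x k hk => by
    rw [decide_eq_false_iff_not]
    rintro ⟨_, h⟩
    omega⟩
  have hw : w.w e m = true := by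
    change decide _ = true
    rw [decide_eq_true_iff]
    exact ⟨rfl, rfl⟩
  have hqw : ac L w q = q := ac_id fun f hf hfL => by
    change decide _ = false
    rw [decide_eq_false_iff_not]
    exact fun h => (hcol f hf hfL).ne h.1
  have hs3 : ac L w s2 ∈ Dl L := Dl.ac hs2
  have hqs3 : q ⊆ ac L w s2 := by
    have := ac_mono (L := L) (w := w) (hqs1.trans h12)
    rwa [hqw] at this
  have hsB3 : ac L w s2 ∈ B a1 := hBi a1 w _ ((hB a1).up _ hsB1 _ hs2 h12)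
  have hF3 : IsF L v1 a1 (ac L w s2) := (hv1.mono h12).ac w
  have hlo3 : lo L v1 ⊆ ac L w s2 := fun x hx => mem_ac_of_lt (h12 (hAg1.1 hx)) hx.2
  have hgw := hs2.1.wf g hg
  have hg3 : fl L w g ∈ ac L w s2 := ⟨g, hg, rfl⟩
  have hg3b : (fl L w g).bb = !g.bb := by
    rw [fl_bb c2.1 hgw.ne, c2.2.1, c2.2.2, hw]
    cases g.bb <;> rfl
  obtain ⟨s4, hs4, h34, a2, ha12, ha2, hsB4, v2, hv2, hAg2⟩ := hqi a1 ha1 _ hs3 hqs3
  have hcs := h2 a1 a2 ha12 ha2 s4 hs4 (hpq.trans (hqs3.trans h34))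
    ((hB a1).up _ hsB3 _ hs4 h34) hsB4
  obtain ⟨s5, hs5, h45, v1', v2', d1, d2, d3⟩ := hcs.2 s4 hs4 subset_rfl
  obtain rfl : v1 = v1' := (hF3.mono (h34.trans h45)).unique hs5 d1
  obtain rfl : v2 = v2' := (hv2.mono h45).unique hs5 d2
  obtain ⟨s6, hs6, h56, f', hf', g', hg', e1, e2, e3, e4, e5⟩ := d3 e hea1 m (le_max_left _ _) s5
    hs5 subset_rfl
  obtain ⟨s7, hs7, h67, f'', hf'', k, hk, k1, k2, k3, k4, k5⟩ := hAg2.2 e (hea1.trans ha12) m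
    (le_max_right _ _) s6 hs6 (h45.trans h56)
  have h57 := h56.trans h67
  have h47 := h45.trans h57
  have h37 := h34.trans h47
  have r1 : f.bb = f'.bb := pat_unique d1.1 hs7 (hlo3.trans h37) hf hf' c1 e1
    ((pre_ac (d1.1.1.wf f hf) c1.1.le c4).trans h37) (e4.trans h67)
  have r2 : g'.bb = f''.bb := pat_unique d2.1 hs7 (hAg2.1.trans h47) hg' hf'' e2 k1
    (e5.trans h67) k4
  have r3 : k.bb = (fl L w g).bb := gen_unique hs7 hk (h37 hg3) k2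
    ⟨fl_st.trans c2.1, fl_xi.trans c2.2.1, fl_nn.trans c2.2.2⟩ k5 (by
      rw [fl_pre]
      exact (pre_ac hgw c2.1.le c5).trans h37)
  rw [hg3b, ← k3, ← r2, ← e3, ← r1, c3] at r3
  revert r3
  cases g.bb <;> decide

end K

end Pool.Agent.helper75.NS
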