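import Pool.Agent.helper75.NS.Stmt
import Pool.Agent.helper74.ForName

/-!
# The combinatorial data from which the model is built
-/

namespace Pool.Agent.helper75.NS

open Pool.Agent.helper74.Forc

/-- Regular open predicates on a preordered set. -/
structure RO {P : Type} [Preorder P] (A : P → Prop) : Prop where
  mono : ∀ p q, q ≤ p → A p → A q
  dense : ∀ p, (∀ q ≤ p, ∃ r ≤ q, A r) → A p

/-- Predicates invariant under the group. -/
def Iv (G : Type) {P : Type} [Group G] [MulAction G P] (A : P → Prop) : Prop :=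
  ∀ (g : G) p, A (g • p) ↔ A p

/-- Names of functions from ordinals below `r` to `r` are bounded. -/
def Bd {K : Type} [LinearOrder K] (P : Type) [Preorder P] (r : K) : Prop :=
  ∀ v < r, ∀ f : K → K → P → Prop, (∀ i c p q, q ≤ p → f i c p → f i c q) →
    ∀ p, (∀ i < v, ∀ q ≤ p, ∃ s ≤ q, ∃ c < r, f i c s) →
      ∃ q ≤ p, ∃ c < r, ∀ i < v, ∀ s ≤ q, ∃ t ≤ s, ∃ c' < c, f i c' t

/-- `p` forces that the relation `R` is a tree on `lam × mu`; the levels are given with
repetitions: every pair is a node. -/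
structure TreeF {K : Type} [LinearOrder K] {P : Type} [Preorder P] (mu lam : K)
    (R : K → K → K → K → P → Prop) (p : P) : Prop where
  pred : ∀ a b, a < b → b < lam → ∀ k < mu, ∀ q ≤ p, ∃ r ≤ q, ∃ i < mu, R a i b k r
  like : ∀ a b c, a < b → b < c → c < lam → ∀ i < mu, ∀ j < mu, ∀ k < mu, ∀ q ≤ p,
    R a i c k q → R b j c k q → R a i b j q
  trans : ∀ a b c, a < b → b < c → c < lam → ∀ i < mu, ∀ j < mu, ∀ k < mu, ∀ q ≤ p,
    R a i b j q → R b j c k q → R a i c k q

/-- `q` forces that `b` is (the graph of a function that is) a cofinal branch of `R`. -/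
structure BranchF {K : Type} [LinearOrder K] {P : Type} [Preorder P] (mu lam : K)
    (R : K → K → K → K → P → Prop) (b : K → K → P → Prop) (q : P) : Prop where
  tot : ∀ a < lam, ∀ r ≤ q, ∃ s ≤ r, ∃ i < mu, b a i s
  lt : ∀ a c, a < c → c < lam → ∀ i < mu, ∀ k < mu, ∀ r ≤ q, b a i r → b c k r → R a i c k r

/-- The combinatorial data. -/
structure NSData (K G P : Type) [LinearOrder K] [WellFoundedLT K] [Group G] [Preorder P]
    [MulAction G P] [OrdAct G P] (w mu lam : K) : Prop where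
  /-- `w` is `ω` -/
  isw : ∃ e : ℕ → K, StrictMono e ∧ ∀ x, x < w ↔ ∃ n, e n = x
  w_mu : w < mu
  mu_lam : mu < lam
  /-- `mu` has cofinality `ω` -/
  cof : ∃ f : ℕ → K, (∀ n, f n < mu) ∧ ∀ x < mu, ∃ n, x < f n
  /-- everything between `mu` and `lam` has the size of `mu` -/
  bij : ∀ a, mu ≤ a → a < lam → ∃ f : K → K, Set.BijOn f (Set.Iio mu) (Set.Iio a)
  bd_lam : Bd P lam
  bd_mu : ∀ x < mu, ∃ r < mu, x < r ∧ Bd P r
  /-- the tree property for invariant names -/
  tp : ∀ R : K → K → K → K → P → Prop, (∀ a i b k, RO (R a i b k)) →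
    (∀ a i b k, Iv G (R a i b k)) → ∀ p, TreeF mu lam R p →
      ∃ q ≤ p, ∃ b : K → K → P → Prop, (∀ a i, RO (b a i)) ∧ (∀ a i, Iv G (b a i)) ∧
        BranchF mu lam R b q
  /-- the narrow system -/
  nsp : ∃ c : K → K → ℕ → P → Prop, (∀ a b n, RO (c a b n)) ∧ (∀ a b n, Iv G (c a b n)) ∧
    (∀ a b, a < b → b < lam → ∀ p, ∃ q ≤ p, ∃ n, c a b n q) ∧
    (∀ x y z n, x < y → y < z → z < lam → ∀ p, c x y n p → c y z n p → c x z n p) ∧
    (∀ x y z n, x < y → y < z → z < lam → ∀ p, c x z n p → c y z n p → c x y n p) ∧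
    ∀ n, ∀ B : K → P → Prop, (∀ a, RO (B a)) → (∀ a, Iv G (B a)) → ∀ p,
      (∀ x < lam, ∀ q ≤ p, ∃ r ≤ q, ∃ a, x < a ∧ a < lam ∧ B a r) →
      ¬ ∀ a b, a < b → b < lam → ∀ q ≤ p, B a q → B b q → c a b n q

end Pool.Agent.helper75.NS
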