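import Pool.Agent.helper75.NS.Decide
import Pool.Agent.helper75.NS.Iface

/-!
# The group of changes of finitely many rows
-/

namespace Pool.Agent.helper75.NS

open Cardinal Set Fa

/-- Functions `K × ℕ → 2` that vanish on all but finitely many rows. -/
@[ext] structure Ed (K : Type) : Type where
  /-- the function -/
  w : K → ℕ → Bool
  bd : ∃ i, ∀ x n, i ≤ n → w x n = false

namespace Ed

variable {K : Type}

instance instMul : Mul (Ed K) := ⟨fun a b => ⟨fun x n => xor (a.w x n) (b.w x n), by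
  obtain ⟨i, hi⟩ := a.bd
  obtain ⟨j, hj⟩ := b.bd
  exact ⟨max i j, fun x n h => by
    rw [hi x n ((le_max_left _ _).trans h), hj x n ((le_max_right _ _).trans h)]
    rfl⟩⟩⟩

instance instOne : One (Ed K) := ⟨⟨fun _ _ => false, 0, fun _ _ _ => rfl⟩⟩

instance instInv : Inv (Ed K) := ⟨fun a => a⟩

theorem mul_w (a b : Ed K) (x : K) (n : ℕ) : (a * b).w x n = xor (a.w x n) (b.w x n) := rfl

theorem one_w (x : K) (n : ℕ) : (1 : Ed K).w x n = false := rfl

theorem inv_w (a : Ed K) (x : K) (n : ℕ) : (a⁻¹).w x n = a.w x n := rfl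

instance instGroup : Group (Ed K) := Group.ofLeftAxioms
  (fun a b c => by
    ext x n
    rw [mul_w, mul_w, mul_w, mul_w, Bool.xor_assoc])
  (fun a => by
    ext x n
    rw [mul_w, one_w, Bool.false_xor])
  (fun a => by
    ext x n
    rw [mul_w, one_w, inv_w, Bool.xor_self])

theorem inv_eq (a : Ed K) : a⁻¹ = a := rfl

theorem mul_comm' (a b : Ed K) : a * b = b * a := by
  ext x n
  rw [mul_w, mul_w, Bool.xor_comm]

end Ed

section K

variable {K : Type} [LinearOrder K] [WellFoundedLT K] [Inhabited K]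

/-- Flip the value of a fact of stage `L`. -/
def fl (L : K) (w : Ed K) : Fa K → Fa K
  | .nil => .nil
  | .mk ν ξ n b o s => .mk ν ξ n (if ν = L then xor b (w.w ξ n) else b) o s

variable {L : K} {w : Ed K} {f g : Fa K}

theorem fl_st : (fl L w f).st = f.st := by cases f <;> rfl

theorem fl_xi : (fl L w f).xi = f.xi := by cases f <;> rfl

theorem fl_nn : (fl L w f).nn = f.nn := by cases f <;> rfl

theorem fl_ln : (fl L w f).ln = f.ln := by cases f <;> rfl

theorem fl_en : (fl L w f).en = f.en := by cases f <;> rfl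

theorem fl_pre : (fl L w f).pre = f.pre := by cases f <;> rfl

theorem fl_ne (h : f ≠ nil) : fl L w f ≠ nil := by
  cases f with
  | nil => exact absurd rfl h
  | mk => exact fun e => nomatch e

theorem fl_bb (h : f.st = L) (h' : f ≠ nil) : (fl L w f).bb = xor f.bb (w.w f.xi f.nn) := by
  cases f with
  | nil => exact absurd rfl h'
  | mk ν ξ n b o s => exact if_pos h

theorem fl_bb' (h : f.st ≠ L) : (fl L w f).bb = f.bb := by
  cases f with
  | nil => rfl
  | mk ν ξ n b o s => exact if_neg h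

theorem fl_of_ne (h : f.st ≠ L) : fl L w f = f := by
  cases f with
  | nil => rfl
  | mk ν ξ n b o s =>
    change Fa.mk ν ξ n (if ν = L then xor b (w.w ξ n) else b) o s = _
    have h' : ¬ ν = L := h
    rw [if_neg h']

theorem fl_wf (h : Wf f) : Wf (fl L w f) := by
  cases f with
  | nil => exact h
  | mk ν ξ n b o s => exact h

theorem fl_one : fl L 1 f = f := by
  cases f with
  | nil => rfl
  | mk ν ξ n b o s =>
    change Fa.mk ν ξ n (if ν = L then xor b ((1 : Ed K).w ξ n) else b) o s = _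
    rw [Ed.one_w, Bool.xor_false, ite_self]

theorem fl_mul (w w' : Ed K) : fl L (w * w') f = fl L w (fl L w' f) := by
  cases f with
  | nil => rfl
  | mk ν ξ n b o s =>
    change Fa.mk ν ξ n (if ν = L then xor b ((w * w').w ξ n) else b) o s =
      Fa.mk ν ξ n (if ν = L then xor (if ν = L then xor b (w'.w ξ n) else b) (w.w ξ n) else
        (if ν = L then xor b (w'.w ξ n) else b)) o s
    rw [Ed.mul_w]
    by_cases h : ν = L
    · simp only [h, if_true]
      rw [Bool.xor_assoc, Bool.xor_comm (w'.w _ _)]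
    · simp only [h, if_false]

theorem fl_id (h : f.st = L → w.w f.xi f.nn = false) : fl L w f = f := by
  cases f with
  | nil => rfl
  | mk ν ξ n b o s =>
    change Fa.mk ν ξ n (if ν = L then xor b (w.w ξ n) else b) o s = _
    by_cases h' : ν = L
    · have : w.w ξ n = false := h h'
      rw [this, Bool.xor_false, ite_self]
    · rw [if_neg h']

theorem fl_fl : fl L w (fl L w f) = f := by
  rw [← fl_mul]
  have : w * w = 1 := inv_mul_cancel w
  rw [this, fl_one]

theorem fl_bb_congr (hf : f ≠ nil) (hg : g ≠ nil) (h1 : f.st = g.st) (h2 : f.xi = g.xi)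
    (h3 : f.nn = g.nn) : (fl L w f).bb = (fl L w g).bb ↔ f.bb = g.bb := by
  by_cases h : f.st = L
  · rw [fl_bb h hf, fl_bb (h1.symm.trans h) hg, h2, h3]
    cases f.bb <;> cases g.bb <;> cases w.w g.xi g.nn <;> decide
  · rw [fl_bb' h, fl_bb' (by rwa [← h1])]

/-- The action on sets of facts. -/
def ac (L : K) (w : Ed K) (p : Set (Fa K)) : Set (Fa K) := fl L w '' p

theorem ac_one (p : Set (Fa K)) : ac L 1 p = p := by
  unfold ac
  have : fl L (1 : Ed K) = id := funext fun f => fl_one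
  rw [this, image_id]

theorem ac_mul (w w' : Ed K) (p : Set (Fa K)) : ac L (w * w') p = ac L w (ac L w' p) := by
  unfold ac
  rw [image_image]
  congr 1
  funext f
  exact fl_mul w w'

theorem ac_ac (p : Set (Fa K)) : ac L w (ac L w p) = p := by
  rw [← ac_mul]
  have : w * w = 1 := inv_mul_cancel w
  rw [this, ac_one]

theorem ac_mono {p q : Set (Fa K)} (h : p ⊆ q) : ac L w p ⊆ ac L w q := image_mono h

theorem ac_sub_iff {p q : Set (Fa K)} : ac L w p ⊆ q ↔ p ⊆ ac L w q := by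
  constructor
  · intro h
    have := ac_mono (L := L) (w := w) h
    rwa [ac_ac] at this
  · intro h
    have := ac_mono (L := L) (w := w) h
    rwa [ac_ac] at this

theorem le_ac {r : K} {p : Set (Fa K)} : NS.le r (ac L w p) = ac L w (NS.le r p) := by
  ext f
  constructor
  · rintro ⟨⟨g, hg, rfl⟩, h⟩
    rw [fl_st] at h
    exact ⟨g, ⟨hg, h⟩, rfl⟩
  · rintro ⟨g, ⟨hg, h⟩, rfl⟩
    exact ⟨⟨g, hg, rfl⟩, by rwa [fl_st]⟩

theorem mem_ac_of_lt {p : Set (Fa K)} (hf : f ∈ p) (h : f.st < L) : f ∈ ac L w p :=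
  ⟨f, hf, fl_of_ne h.ne⟩

theorem lo_ac {r : K} (hr : r ≤ L) {p : Set (Fa K)} : lo r (ac L w p) = lo r p := by
  ext f
  constructor
  · rintro ⟨⟨g, hg, rfl⟩, h⟩
    rw [fl_st] at h
    rw [fl_of_ne (h.trans_le hr).ne]
    exact ⟨hg, h⟩
  · rintro ⟨hf, h⟩
    exact ⟨mem_ac_of_lt hf (h.trans_le hr), h⟩

theorem Dl.ac {p : Set (Fa K)} (hp : p ∈ Dl L) : NS.ac L w p ∈ Dl L := by
  refine ⟨Cd.mk' ?_ ?_ ?_, ?_⟩
  · rintro _ ⟨f, hf, rfl⟩
    exact fl_wf (hp.1.wf f hf)
  · intro r hr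
    rw [le_ac]
    exact sm_image _ (hp.1.sp r hr)
  · rintro _ ⟨f, hf, rfl⟩ _ ⟨g, hg, rfl⟩ ⟨h1, h2, h3, h4⟩ r hr h5 h6 h7 h8
    rw [fl_st] at h1 h5 h6
    rw [fl_st] at h1
    rw [fl_xi, fl_xi] at h2
    rw [fl_nn, fl_nn] at h3
    rw [fl_pre] at h7 h8
    rw [lo_ac (hp.2 f hf)] at h6
    refine hp.1.val hf hg ⟨h1, h2, h3, fun e => h4 ?_⟩ hr h5 h6 h7 h8
    exact (fl_bb_congr (hp.1.wf f hf).ne (hp.1.wf g hg).ne h1 h2 h3).2 e
  · rintro _ ⟨f, hf, rfl⟩
    rw [fl_st]
    exact hp.2 f hf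

theorem ac_id {p : Set (Fa K)} (h : ∀ f ∈ p, f.st = L → w.w f.xi f.nn = false) :
    ac L w p = p := by
  unfold ac
  ext f
  constructor
  · rintro ⟨g, hg, rfl⟩
    rw [fl_id (h g hg)]
    exact hg
  · intro hf
    exact ⟨f, hf, fl_id (h f hf)⟩

theorem ac_congr {w w' : Ed K} {p : Set (Fa K)}
    (h : ∀ f ∈ p, f.st = L → w.w f.xi f.nn = w'.w f.xi f.nn) : ac L w p = ac L w' p := by
  have h1 : ac L (w' * w) p = p := ac_id fun f hf hL => by
    rw [Ed.mul_w, h f hf hL, Bool.xor_self]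
  have h2 : ac L w' (ac L (w' * w) p) = ac L w' p := by rw [h1]
  rw [ac_mul, ac_ac] at h2
  exact h2

/-- The columns of a condition are bounded. -/
theorem Dl.col {p : Set (Fa K)} (hp : p ∈ Dl L) (hL : IsReg L) :
    ∃ e < L, ∀ f ∈ p, f.st = L → f.xi < e := by
  obtain ⟨e, he, h⟩ := hL.bdd (X := xi '' {f | f ∈ p ∧ f.st = L}) (by
    refine sm_image _ (sm_mono (t := NS.le L p) ?_ (hp.1.sp L hL))
    exact fun f hf => ⟨hf.1, hf.2.le⟩) (by
    rintro _ ⟨f, ⟨hf, hfL⟩, rfl⟩
    exact hfL ▸ (hp.1.wf f hf).xi_lt)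
  exact ⟨e, he, fun f hf hfL => h _ ⟨f, ⟨hf, hfL⟩, rfl⟩⟩

/-! ### the forcing -/

/-- The forcing: conditions with all stages at most `L`. -/
def Pt (L : K) : Type := {p : Set (Fa K) // p ∈ Dl L}

instance instPreorderPt : Preorder (Pt L) where
  le p q := q.1 ⊆ p.1
  le_refl p := subset_rfl
  le_trans p q r h1 h2 := h2.trans h1

theorem Pt.le_def {p q : Pt L} : p ≤ q ↔ q.1 ⊆ p.1 := Iff.rfl

instance instMulActionPt : MulAction (Ed K) (Pt L) where
  smul w p := ⟨ac L w p.1, Dl.ac p.2⟩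
  one_smul p := Subtype.ext (ac_one p.1)
  mul_smul w w' p := Subtype.ext (ac_mul w w' p.1)

theorem Pt.smul_val (w : Ed K) (p : Pt L) : (w • p).1 = ac L w p.1 := rfl

instance instOrdActPt : Pool.Agent.helper74.Forc.OrdAct (Ed K) (Pt L) where
  le _ _ _ h := ac_mono h

end K

end Pool.Agent.helper75.NS
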