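import Pool.Agent.helper75.NS.Act

/-!
# Bounding names of functions
-/

namespace Pool.Agent.helper75.NS

open Cardinal Set Fa

section K

variable {K : Type} [LinearOrder K] [WellFoundedLT K] [Inhabited K]

theorem bd_suc {s r L : K} (hs : InS s) (hr : IsSuc s r) : Bd (Pt L) r := by
  classical
  intro v hv f hf p hp
  have hreg : IsReg r := hr.reg hs.inf
  have hsr : #(Iio s) < #(Iio r) := hreg.ini _ hr.lt
  obtain ⟨g⟩ := hr.lt_iff.1 hv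
  let E : K → Set (Set (Fa K)) := fun j =>
    {x | ∀ i (hi : i < v), (g ⟨i, hi⟩ : K) = j → ∃ hx : x ∈ Dl L, ∃ c < r, f i c ⟨x, hx⟩}
  obtain ⟨q, hq, hpq, Rec, h1, h2, h3⟩ := decide_S hs E p.2 (fun j _ u hu hpu => by
    by_cases hex : ∃ i, ∃ hi : i < v, (g ⟨i, hi⟩ : K) = j
    · obtain ⟨i, hi, rfl⟩ := hex
      obtain ⟨x, hx, c, hc, h⟩ := hp i hi ⟨u, hu⟩ hpu
      refine ⟨x.1, fun i' hi' he => ?_, x.2, hx⟩
      have h4 : i' = i := congrArg Subtype.val (g.injective (Subtype.ext he))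
      subst h4
      exact ⟨x.2, c, hc, h⟩
    · exact ⟨u, fun i hi he => absurd ⟨i, hi, he⟩ hex, hu, subset_rfl⟩)
  have h4 : ∀ (j : K) (x : Set (Fa K)), ∃ c < r, j < s → x ∈ Rec j → ∀ i (hi : i < v),
      (g ⟨i, hi⟩ : K) = j → ∃ hx : x ∈ Dl L, f i c ⟨x, hx⟩ := by
    intro j x
    by_cases hex : j < s ∧ x ∈ Rec j ∧ ∃ i, ∃ hi : i < v, (g ⟨i, hi⟩ : K) = j
    · obtain ⟨hj, hx, i, hi, he⟩ := hex
      obtain ⟨hxL, c, hc, h⟩ := (h2 j hj x hx).1 i hi he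
      refine ⟨c, hc, fun _ _ i' hi' he' => ?_⟩
      have h4 : i' = i := congrArg Subtype.val (g.injective (Subtype.ext (he'.trans he.symm)))
      subst h4
      exact ⟨hxL, h⟩
    · refine ⟨v, hv, fun hj hx i hi he => absurd ⟨hj, hx, i, hi, he⟩ hex⟩
  choose c hc hcs using h4
  obtain ⟨z, hz, hz'⟩ := hreg.bdd (X := ⋃ j ∈ Iio s, c j '' Rec j)
    (sm_biUnion hreg.reg hsr fun j hj => sm_image _ ((h1 j hj).trans hsr)) (by
    intro y hy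
    obtain ⟨j, _, x, _, rfl⟩ := mem_iUnion₂.1 hy
    exact hc j x)
  refine ⟨⟨q, hq⟩, hpq, z, hz, fun i hi u hqu => ?_⟩
  have hj : (g ⟨i, hi⟩ : K) < s := (g ⟨i, hi⟩).2
  obtain ⟨x, hx, h5⟩ := h3 _ hj u.1 u.2 hqu
  obtain ⟨hxL, h6⟩ := hcs _ x hj hx i hi rfl
  refine ⟨⟨u.1 ∪ x, h5⟩, subset_union_left, c _ x, hz' _ (mem_iUnion₂.2 ⟨_, hj, x, hx, rfl⟩), ?_⟩
  exact hf i _ ⟨x, hxL⟩ _ subset_union_right h6

end K

end Pool.Agent.helper75.NS
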