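import Pool.Agent.helper75.NS.Act

/-!
# From branches in the full extension to invariant branches: the fixed case
-/

namespace Pool.Agent.helper75.NS

open Cardinal Set Fa

section K

variable {K : Type} [LinearOrder K] [WellFoundedLT K] [Inhabited K]

/-- Regular open sets of conditions. -/
structure Ro (L : K) (A : Set (Set (Fa K))) : Prop where
  sub : A ⊆ Dl L
  up : ∀ p ∈ A, ∀ q ∈ Dl L, p ⊆ q → q ∈ A
  dense : ∀ p ∈ Dl L, (∀ q ∈ Dl L, p ⊆ q → ∃ r ∈ A, q ⊆ r) → p ∈ A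

/-- Invariant sets of conditions. -/
def Ivs (L : K) (A : Set (Set (Fa K))) : Prop := ∀ (w : Ed K), ∀ p ∈ A, ac L w p ∈ A

/-- `b` is a name of the canonical branch. -/
structure Br (mu L : K) (R : K → K → K → K → Set (Set (Fa K))) (b : K → K → Set (Set (Fa K)))
    (p : Set (Fa K)) : Prop where
  tot : ∀ a < L, ∀ q ∈ Dl L, p ⊆ q → ∃ i < mu, ∃ r ∈ b a i, q ⊆ r
  rel : ∀ a c, a < c → c < L → ∀ i < mu, ∀ k < mu, ∀ q, p ⊆ q → q ∈ b a i → q ∈ b c k →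
    q ∈ R a i c k
  min : ∀ a c, a < c → c < L → ∀ i < mu, ∀ k < mu, ∀ q, p ⊆ q → q ∈ b a i → q ∈ b c k →
    ∀ i' < i, ∀ r ∈ Dl L, q ⊆ r → r ∉ R a i' c k

variable {mu L : K} {R : K → K → K → K → Set (Set (Fa K))} {b b' : K → K → Set (Set (Fa K))}
  {p : Set (Fa K)}

theorem Br.mono (h : Br mu L R b p) {q : Set (Fa K)} (hq : p ⊆ q) : Br mu L R b q where
  tot := fun a ha r hr hqr => h.tot a ha r hr (hq.trans hqr)
  rel := fun a c hac hc i hi k hk r hr => h.rel a c hac hc i hi k hk r (hq.trans hr)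
  min := fun a c hac hc i hi k hk r hr => h.min a c hac hc i hi k hk r (hq.trans hr)

/-- Two canonical branches that agree at a level agree below. -/
theorem Br.agree (h : Br mu L R b p) (h' : Br mu L R b' p) (hb : ∀ a i, Ro L (b a i))
    {a c i i' k : K} (hac : a < c) (hc : c < L)
    (hi : i < mu) (hi' : i' < mu) (hk : k < mu) {q : Set (Fa K)} (hq : p ⊆ q) (h1 : q ∈ b a i)
    (h2 : q ∈ b' a i') (h3 : q ∈ b c k) (h4 : q ∈ b' c k) : i = i' := by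
  have hqL := (hb a i).sub h1
  rcases lt_trichotomy i i' with h5 | h5 | h5
  · exact absurd (h.rel a c hac hc i hi k hk q hq h1 h3)
      (h'.min a c hac hc i' hi' k hk q hq h2 h4 i h5 q hqL subset_rfl)
  · exact h5
  · exact absurd (h'.rel a c hac hc i' hi' k hk q hq h2 h4)
      (h.min a c hac hc i hi k hk q hq h1 h3 i' h5 q hqL subset_rfl)

theorem Br.uniq (h : Br mu L R b p) (hL : IsReg L) (hb : ∀ a i, Ro L (b a i)) {a i i' : K}
    (ha : a < L) (hi : i < mu) (hi' : i' < mu) {q : Set (Fa K)} (hq : p ⊆ q) (h1 : q ∈ b a i)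
    (h2 : q ∈ b a i') : i = i' := by
  obtain ⟨c, hc, hac⟩ := hL.lim ha
  obtain ⟨k, hk, r, hr, hqr⟩ := h.tot c hc q ((hb a i).sub h1) hq
  have hrL := (hb c k).sub hr
  exact h.agree h hb hac hc hi hi' hk (hq.trans hqr) ((hb a i).up q h1 r hrL hqr)
    ((hb a i').up q h2 r hrL hqr) hr hr

/-- The image of a branch under the group. -/
def mvb (L : K) (w : Ed K) (b : K → K → Set (Set (Fa K))) : K → K → Set (Set (Fa K)) :=
  fun a i => {r | ac L w r ∈ b a i}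

theorem mem_mvb {w : Ed K} {a i : K} {r : Set (Fa K)} : r ∈ mvb L w b a i ↔ ac L w r ∈ b a i :=
  Iff.rfl

theorem Dl.ac_iff {w : Ed K} {r : Set (Fa K)} : NS.ac L w r ∈ Dl L ↔ r ∈ Dl L := by
  refine ⟨fun h => ?_, Dl.ac⟩
  have := Dl.ac (w := w) h
  rwa [ac_ac] at this

theorem Ro.mvb {w : Ed K} (hb : ∀ a i, Ro L (b a i)) (a i : K) : Ro L (NS.mvb L w b a i) where
  sub := fun r hr => Dl.ac_iff.1 ((hb a i).sub hr)
  up := fun r hr q hq hrq => (hb a i).up _ hr _ (Dl.ac hq) (ac_mono hrq)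
  dense := fun r hr h => by
    refine (hb a i).dense _ (Dl.ac hr) fun q hq hrq => ?_
    obtain ⟨t, ht, hqt⟩ := h (ac L w q) (Dl.ac hq) (ac_sub_iff.1 hrq)
    exact ⟨ac L w t, ht, ac_sub_iff.1 hqt⟩

theorem Br.mvb {w : Ed K} (hR : ∀ a i c k, Ivs L (R a i c k)) (h : Br mu L R b p)
    (hp : ac L w p = p) : Br mu L R (mvb L w b) p where
  tot := fun a ha q hq hpq => by
    obtain ⟨i, hi, r, hr, hqr⟩ := h.tot a ha (ac L w q) (Dl.ac hq) (ac_sub_iff.1 (by rwa [hp]))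
    refine ⟨i, hi, ac L w r, ?_, ac_sub_iff.1 hqr⟩
    rw [mem_mvb, ac_ac]
    exact hr
  rel := fun a c hac hc i hi k hk q hpq h1 h2 => by
    have h3 := h.rel a c hac hc i hi k hk (ac L w q) (ac_sub_iff.1 (by rwa [hp])) h1 h2
    have h4 := hR a i c k w _ h3
    rwa [ac_ac] at h4
  min := fun a c hac hc i hi k hk q hpq h1 h2 i' hi' r hr hqr h3 => by
    exact h.min a c hac hc i hi k hk (ac L w q) (ac_sub_iff.1 (by rwa [hp])) h1 h2 i' hi'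
      (ac L w r) (Dl.ac hr) (ac_mono hqr) (hR a i' c k w _ h3)

/-- Unions of increasing sequences of conditions. -/
theorem Dl.iUnion {q : ℕ → Set (Fa K)} (hq : ∀ n, q n ∈ Dl L) (hm : ∀ n, q n ⊆ q (n + 1)) :
    (⋃ n, q n) ∈ Dl L := by
  have hmono : Monotone q := monotone_nat_of_le_succ hm
  refine ⟨Cd.mk' ?_ ?_ ?_, ?_⟩
  · intro f hf
    obtain ⟨n, hn⟩ := mem_iUnion.1 hf
    exact (hq n).1.wf f hn
  · intro r hr
    have h1 : NS.le r (⋃ n, q n) ⊆ ⋃ n, NS.le r (q n) := by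
      rintro f ⟨hf, hfr⟩
      obtain ⟨n, hn⟩ := mem_iUnion.1 hf
      exact mem_iUnion.2 ⟨n, hn, hfr⟩
    refine sm_mono h1 (sm_iUnion hr.reg (by
      rw [mk_nat]
      exact hr.unc) fun n => (hq n).1.sp r hr)
  · intro f hf g hg hc r hr h1 h2 h3 h4
    obtain ⟨n, hn⟩ := mem_iUnion.1 hf
    obtain ⟨m, hm'⟩ := mem_iUnion.1 hg
    exact (hq (max n m)).1.val (hmono (le_max_left n m) hn) (hmono (le_max_right n m) hm') hc hr h1
      ((lo_mono (subset_iUnion q _)).trans h2) h3 h4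
  · intro f hf
    obtain ⟨n, hn⟩ := mem_iUnion.1 hf
    exact (hq n).2 f hn

/-- The branch moves. -/
def Mv (mu L : K) (b : K → K → Set (Set (Fa K))) (i0 : ℕ) (q1 : Set (Fa K)) : Prop :=
  ∀ q ∈ Dl L, q1 ⊆ q → ∀ e < L, ∃ u : Ed K, (∀ x n, i0 ≤ n → u.w x n = false) ∧
    (∀ x n, x < e → u.w x n = false) ∧ ∃ r ∈ Dl L, q ⊆ r ∧ ∃ a < L, ∃ i < mu, ∃ i' < mu,
      i ≠ i' ∧ r ∈ b a i ∧ ac L u r ∈ b a i'

/-- The branch is fixed. -/
def Fx (mu L : K) (b : K → K → Set (Set (Fa K))) (i0 : ℕ) (q : Set (Fa K)) (e : K) : Prop :=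
  ∀ u : Ed K, (∀ x n, i0 ≤ n → u.w x n = false) → (∀ x n, x < e → u.w x n = false) →
    ∀ a < L, ∀ i < mu, ∀ r ∈ Dl L, q ⊆ r → (r ∈ b a i ↔ ac L u r ∈ b a i)

theorem Fx.mono {i0 : ℕ} {q r : Set (Fa K)} {e e' : K} (h : Fx mu L b i0 q e) (hq : q ⊆ r)
    (he : e ≤ e') : Fx mu L b i0 r e' := fun u h1 h2 a ha i hi s hs hrs =>
  h u h1 (fun x n hx => h2 x n (hx.trans_le he)) a ha i hi s hs (hq.trans hrs)

theorem fx_of_not_mv (hL : IsReg L) (hb : ∀ a i, Ro L (b a i)) (h : Br mu L R b p) {i0 : ℕ}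
    {q1 : Set (Fa K)} (hpq : p ⊆ q1) (hm : ¬ Mv mu L b i0 q1) :
    ∃ q ∈ Dl L, q1 ⊆ q ∧ ∃ e < L, Fx mu L b i0 q e := by
  unfold Mv at hm
  push Not at hm
  obtain ⟨q, hq, hq1, e, he, hm⟩ := hm
  obtain ⟨e', he', hcol⟩ := Dl.col hq hL
  refine ⟨q, hq, hq1, max e e', max_lt he he', fun u hu1 hu2 a ha i hi r hr hqr => ?_⟩
  have hfix : ac L u q = q := ac_id fun f hf hfL => hu2 _ _ ((hcol f hf hfL).trans_le
    (le_max_right _ _))
  have hm' := hm u hu1 fun x n hx => hu2 x n (hx.trans_le (le_max_left _ _))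
  -- one direction for all `r`
  have key : ∀ r ∈ Dl L, q ⊆ r → r ∈ b a i → ac L u r ∈ b a i := by
    intro r hr hqr hrb
    refine (hb a i).dense _ (Dl.ac hr) fun s hs hrs => ?_
    have hqs : q ⊆ s := by
      have := ac_mono (L := L) (w := u) hqr
      rw [hfix] at this
      exact this.trans hrs
    obtain ⟨i', hi', t, ht, hst⟩ := h.tot a ha s hs ((hpq.trans hq1).trans hqs)
    have htL := (hb a i').sub ht
    have h3 : r ⊆ ac L u t := ac_sub_iff.1 (hrs.trans hst)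
    by_cases hii : i = i'
    · subst hii
      exact ⟨t, ht, hst⟩
    · exfalso
      refine hm' (ac L u t) (Dl.ac htL) (hqr.trans h3) a ha i hi i' hi' hii
        ((hb a i).up _ hrb _ (Dl.ac htL) h3) ?_
      rw [ac_ac]
      exact ht
  refine ⟨key r hr hqr, fun h1 => ?_⟩
  have h2 := key (ac L u r) (Dl.ac hr) (by
    have := ac_mono (L := L) (w := u) hqr
    rwa [hfix] at this) h1
  rwa [ac_ac] at h2

theorem mv_or_fx (hL : IsReg L) (hb : ∀ a i, Ro L (b a i)) (h : Br mu L R b p)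
    (hp : p ∈ Dl L) : (∃ i0, ∃ q1 ∈ Dl L, p ⊆ q1 ∧ Mv mu L b i0 q1) ∨
      ∃ q ∈ Dl L, p ⊆ q ∧ ∃ e < L, ∀ i0, Fx mu L b i0 q e := by
  by_cases hex : ∃ i0, ∃ q1 ∈ Dl L, p ⊆ q1 ∧ Mv mu L b i0 q1
  · exact Or.inl hex
  · right
    push Not at hex
    have h1 : ∀ (i0 : ℕ) (q1 : {q1 : Set (Fa K) // q1 ∈ Dl L ∧ p ⊆ q1}),
        ∃ q : {q : Set (Fa K) // q ∈ Dl L ∧ p ⊆ q}, q1.1 ⊆ q.1 ∧ ∃ e < L, Fx mu L b i0 q.1 e := by
      rintro i0 ⟨q1, hq1, hpq1⟩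
      obtain ⟨q, hq, hqq, e, he, hf⟩ := fx_of_not_mv hL hb h hpq1 (hex i0 q1 hq1 hpq1)
      exact ⟨⟨q, hq, hpq1.trans hqq⟩, hqq, e, he, hf⟩
    choose F hF e he hFx using h1
    let g : ℕ → {q : Set (Fa K) // q ∈ Dl L ∧ p ⊆ q} := fun n =>
      Nat.rec ⟨p, hp, subset_rfl⟩ (fun k q => F k q) n
    have hg : ∀ n, g (n + 1) = F n (g n) := fun n => rfl
    have hgm : ∀ n, (g n).1 ⊆ (g (n + 1)).1 := fun n => by
      rw [hg]
      exact hF n (g n)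
    obtain ⟨z, hz, hz'⟩ := hL.bdd (X := range fun n => e n (g n)) (by
      refine mk_range_le.trans_lt ?_
      rw [mk_nat]
      exact hL.unc) (by
      rintro _ ⟨n, rfl⟩
      exact he n (g n))
    refine ⟨⋃ n, (g n).1, Dl.iUnion (fun n => (g n).2.1) hgm,
      (subset_rfl : (g 0).1 ⊆ (g 0).1).trans (subset_iUnion (fun n => (g n).1) 0), z, hz,
      fun i0 => ?_⟩
    refine (hFx i0 (g i0)).mono ?_ (hz' _ ⟨i0, rfl⟩).le
    rw [← hg]
    exact subset_iUnion (fun n => (g n).1) (i0 + 1)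

/-- `q` decides the generic function on the columns below `e`. -/
def Full (L : K) (q : Set (Fa K)) (e : K) : Prop := ∀ x < e, ∀ n, ∀ u ∈ Dl L, q ⊆ u →
  ∃ v ∈ Dl L, u ⊆ v ∧ ∃ f ∈ q, f.st = L ∧ f.xi = x ∧ f.nn = n ∧ f.pre ⊆ v

theorem exists_full (hs : InS mu) (hL : IsSuc mu L) {e : K} (he : e < L) (hp : p ∈ Dl L) :
    ∃ q ∈ Dl L, p ⊆ q ∧ Full L q e := by
  classical
  have hcard : #(Iio e × ℕ) ≤ #(Iio mu) := by
    rw [mk_prod, lift_id, lift_id, mk_nat]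
    refine (mul_le_mul' (hL.lt_iff.1 he) hs.inf).trans ?_
    rw [mul_eq_self hs.inf]
  obtain ⟨⟨em, hem⟩⟩ := Cardinal.le_def _ _ |>.1 hcard
  have hA : InA L := ⟨mu, hs, hL⟩
  -- the set of conditions deciding the coordinate
  let D : K → ℕ → Set (Set (Fa K)) := fun x n => {r | ∃ f ∈ r, f.st = L ∧ f.xi = x ∧ f.nn = n ∧
    f.pre ⊆ r}
  let E : K → Set (Set (Fa K)) := fun i => {r | ∀ c : Iio e × ℕ, (em c : K) = i →
    r ∈ D c.1 c.2}
  obtain ⟨q, hq, hpq, Rec, _, h2, h3⟩ := decide_S hs E hp (fun i hi u hu _ => by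
    by_cases hex : ∃ c : Iio e × ℕ, (em c : K) = i
    · obtain ⟨c, hc⟩ := hex
      obtain ⟨v, hv, huv, hvs, f, hf, h4⟩ := hu.1.decide (ν := L) (ξ := (c.1 : K)) c.2 hA
        (lt_trans c.1.2 he)
      refine ⟨v, ?_, ⟨hv, fun x hx => ?_⟩, huv⟩
      · intro c' hc'
        have : c' = c := hem (Subtype.ext (hc'.trans hc.symm))
        subst this
        exact ⟨f, hf, h4⟩
      · rcases hvs x hx with h5 | h5
        · exact hu.2 x h5
        · exact h5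
    · exact ⟨u, fun c hc => absurd ⟨c, hc⟩ hex, hu, subset_rfl⟩)
  refine ⟨q, hq, hpq, fun x hx n u hu hqu => ?_⟩
  obtain ⟨r, hr, hur⟩ := h3 (em (⟨x, hx⟩, n)) (em _).2 u hu hqu
  obtain ⟨h4, h5, _, c, hc, h6⟩ := h2 _ (em _).2 r hr
  obtain ⟨f, hf, hf1, hf2, hf3, hf4⟩ := h4 (⟨x, hx⟩, n) rfl
  have hcf : c < f.st := by
    rw [hf1]
    exact hc.trans hL.lt
  obtain ⟨_, h8, h9⟩ := sh_spec h5.1 hf hcf
  refine ⟨u ∪ r, hur, subset_union_left, _, h6 ⟨f, hf, hcf, rfl⟩, ?_, ?_, ?_, ?_⟩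
  · rw [← h8.1, hf1]
  · rw [← h8.2.1, hf2]
  · rw [← h8.2.2.1, hf3]
  · rw [h9]
    exact (union_subset hf4 le_sub).trans subset_union_right

theorem Full.fix {q r : Set (Fa K)} {e : K} (hf : Full L q e) (hq : q ∈ Dl L) (hr : r ∈ Dl L)
    (hqr : q ⊆ r) {u : Ed K} (hu : ac L u q ⊆ r) : ∀ x n, x < e → u.w x n = false := by
  intro x n hx
  obtain ⟨v, hv, hrv, f, hfq, h1, h2, h3, h4⟩ := hf x hx n r hr hqr
  have hfn := (hq.1.wf f hfq).ne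
  have h5 : f.bb = (fl L u f).bb := by
    refine hv.1.unique (hrv (hqr hfq)) (hrv (hu ⟨f, hfq, rfl⟩)) fl_st.symm fl_xi.symm fl_nn.symm
      h4 ?_
    rw [fl_pre]
    exact h4
  rw [fl_bb h1 hfn, h2, h3] at h5
  revert h5
  cases f.bb <;> cases u.w x n <;> decide

/-- The fixed case. -/
theorem inv_of_fx (hs : InS mu) (hL : IsSuc mu L) (hb : ∀ a i, Ro L (b a i))
    (h : Br mu L R b p) {q0 : Set (Fa K)} (hq0 : q0 ∈ Dl L) (hpq : p ⊆ q0) {e : K} (he : e < L)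
    (hfx : ∀ i0, Fx mu L b i0 q0 e) :
    ∃ q ∈ Dl L, q0 ⊆ q ∧ ∃ b' : K → K → Set (Set (Fa K)), (∀ a i, Ro L (b' a i)) ∧
      (∀ a i, Ivs L (b' a i)) ∧
      (∀ a < L, ∀ r ∈ Dl L, q ⊆ r → ∃ s ∈ Dl L, r ⊆ s ∧ ∃ i < mu, s ∈ b' a i) ∧
      ∀ a c, a < c → c < L → ∀ i < mu, ∀ k < mu, ∀ r ∈ Dl L, q ⊆ r → r ∈ b' a i → r ∈ b' c k →
        r ∈ R a i c k := by
  obtain ⟨q, hq, hqq, hfull⟩ := exists_full hs hL he hq0
  let b' : K → K → Set (Set (Fa K)) := fun a i => {r | r ∈ Dl L ∧ ∀ r' ∈ Dl L, r ⊆ r' →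
    ∃ s ∈ Dl L, r' ⊆ s ∧ ∃ u : Ed K, ac L u q ⊆ s ∧ ac L u s ∈ b a i}
  have heq : ∀ a < L, ∀ i < mu, ∀ r ∈ Dl L, q ⊆ r → (r ∈ b' a i ↔ r ∈ b a i) := by
    intro a ha i hi r hr hqr
    constructor
    · intro h1
      refine (hb a i).dense r hr fun r' hr' hrr => ?_
      obtain ⟨s, hs', hrs, u, hu1, hu2⟩ := h1.2 r' hr' hrr
      have hqs : q ⊆ s := hqr.trans (hrr.trans hrs)
      have h2 := hfull.fix hq hs' hqs hu1
      obtain ⟨i0, hi0⟩ := u.bd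
      exact ⟨s, (hfx i0 u (fun x n hn => hi0 x n hn) h2 a ha i hi s hs' (hqq.trans hqs)).2 hu2, hrs⟩
    · intro h1
      refine ⟨hr, fun r' hr' hrr => ⟨r', hr', subset_rfl, 1, ?_, ?_⟩⟩
      · rw [ac_one]
        exact hqr.trans hrr
      · rw [ac_one]
        exact (hb a i).up r h1 r' hr' hrr
  refine ⟨q, hq, hqq, b', fun a i => ⟨fun r hr => hr.1, fun r hr s hs' hrs => ⟨hs', fun t ht hst =>
    hr.2 t ht (hrs.trans hst)⟩, fun r hr hd => ⟨hr, fun r' hr' hrr => ?_⟩⟩, fun a i w r hr => ?_,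
    fun a ha r hr hqr => ?_, fun a c hac hc i hi k hk r hr hqr h1 h2 => ?_⟩
  · obtain ⟨s, hs', hrs⟩ := hd r' hr' hrr
    obtain ⟨t, ht, hst, hu⟩ := hs'.2 s hs'.1 subset_rfl
    exact ⟨t, ht, hrs.trans hst, hu⟩
  · refine ⟨Dl.ac hr.1, fun r' hr' hrr => ?_⟩
    obtain ⟨s, hs', hrs, u, hu1, hu2⟩ := hr.2 (ac L w r') (Dl.ac hr') (ac_sub_iff.1 hrr)
    refine ⟨ac L w s, Dl.ac hs', ac_sub_iff.1 hrs, w * u, ?_, ?_⟩
    · rw [ac_mul]
      exact ac_mono hu1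
    · rw [Ed.mul_comm', ac_mul, ac_ac]
      exact hu2
  · obtain ⟨i, hi, s, hs', hrs⟩ := h.tot a ha r hr ((hpq.trans hqq).trans hqr)
    have hsL := (hb a i).sub hs'
    exact ⟨s, hsL, hrs, i, hi, (heq a ha i hi s hsL (hqr.trans hrs)).2 hs'⟩
  · exact h.rel a c hac hc i hi k hk r ((hpq.trans hqq).trans hqr)
      ((heq a (hac.trans hc) i hi r hr hqr).1 h1) ((heq c hc k hk r hr hqr).1 h2)

end K

end Pool.Agent.helper75.NS
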