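import Mathlib

/-!
# Cardinals as elements of a well-ordered type
-/

namespace Pool.Agent.helper75.NS

open Cardinal Set

section K

variable {K : Type} [LinearOrder K]

/-- Initial elements: cardinals. -/
def Ini (x : K) : Prop := ∀ y < x, #(Iio y) < #(Iio x)

/-- Regular uncountable cardinals. -/
structure IsReg (x : K) : Prop where
  reg : (#(Iio x)).IsRegular
  unc : ℵ₀ < #(Iio x)
  ini : Ini x

/-- Uncountable strong limit cardinals of cofinality `ω`. -/
structure InS (x : K) : Prop where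
  sl : (#(Iio x)).IsStrongLimit
  unc : ℵ₀ < #(Iio x)
  ini : Ini x
  cof : ∃ f : ℕ → K, (∀ n, f n < x) ∧ ∀ y < x, ∃ n, y < f n

/-- `n` is the successor cardinal of `s`. -/
structure IsSuc (s n : K) : Prop where
  card : #(Iio n) = Order.succ #(Iio s)
  ini : Ini n

/-- Stages: successors of elements of `InS`. -/
def InA (n : K) : Prop := ∃ s : K, InS s ∧ IsSuc s n

theorem card_mono {x y : K} (h : x ≤ y) : #(Iio x) ≤ #(Iio y) :=
  mk_le_mk_of_subset (Iio_subset_Iio h)

theorem lt_of_card {x y : K} (h : #(Iio x) < #(Iio y)) : x < y := by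
  by_contra hc
  exact absurd (card_mono (not_lt.1 hc)) (not_le.2 h)

theorem Ini.lt_iff {x y : K} (h : Ini y) : x < y ↔ #(Iio x) < #(Iio y) := ⟨h x, lt_of_card⟩

theorem IsSuc.lt {s n : K} (h : IsSuc s n) : s < n := lt_of_card (by
  rw [h.card]
  exact Order.lt_succ _)

theorem IsSuc.lt_iff {s n x : K} (h : IsSuc s n) : x < n ↔ #(Iio x) ≤ #(Iio s) := by
  rw [h.ini.lt_iff, h.card, Order.lt_succ_iff]

theorem InS.inf {s : K} (h : InS s) : ℵ₀ ≤ #(Iio s) := h.unc.le

theorem IsSuc.reg {s n : K} (h : IsSuc s n) (hs : ℵ₀ ≤ #(Iio s)) : IsReg n where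
  reg := by
    rw [h.card]
    exact isRegular_succ hs
  unc := by
    rw [h.card]
    exact hs.trans_lt (Order.lt_succ _)
  ini := h.ini

theorem InA.reg {n : K} (h : InA n) : IsReg n := by
  obtain ⟨s, hs, h⟩ := h
  exact h.reg hs.inf

theorem ini_eq {x y : K} (hx : Ini x) (hy : Ini y) (h : #(Iio x) = #(Iio y)) : x = y := by
  rcases lt_trichotomy x y with h1 | h1 | h1
  · exact absurd h (hy x h1).ne
  · exact h1
  · exact absurd h.symm (hx y h1).ne

theorem IsSuc.unique {s n n' : K} (h : IsSuc s n) (h' : IsSuc s n') : n = n' :=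
  ini_eq h.ini h'.ini (by rw [h.card, h'.card])

/-- A strong limit cardinal is not a successor cardinal. -/
theorem InS.not_suc {s n : K} (hn : InS n) (h : IsSuc s n) : False := by
  have h1 : #(Iio s) < #(Iio n) := by
    rw [h.card]
    exact Order.lt_succ _
  have h2 := hn.sl.isStrongPrelimit h1
  have h3 : Order.succ #(Iio s) ≤ 2 ^ #(Iio s) := Order.succ_le_of_lt (cantor _)
  rw [← h.card] at h3
  exact absurd h2 (not_lt.2 h3)

theorem InS.lim {s x : K} (h : InS s) (hx : x < s) : ∃ y < s, x < y := by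
  obtain ⟨f, h1, h2⟩ := h.cof
  obtain ⟨n, hn⟩ := h2 x hx
  exact ⟨f n, h1 n, hn⟩

theorem InS.two {s x : K} (h : InS s) (hx : x < s) : 2 ^ #(Iio x) < #(Iio s) :=
  h.sl.isStrongPrelimit (h.ini x hx)

/-- Sets of size less than a regular cardinal. -/
theorem sm_union {α : Type} {c : Cardinal.{0}} (hc : ℵ₀ ≤ c) {s t : Set α} (hs : #s < c)
    (ht : #t < c) : #(s ∪ t : Set α) < c :=
  (mk_union_le s t).trans_lt (add_lt_of_lt hc hs ht)

theorem sm_biUnion {α β : Type} {c : Cardinal.{0}} (hc : c.IsRegular) {s : Set α} (hs : #s < c)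
    {t : α → Set β} (ht : ∀ a ∈ s, #(t a) < c) : #(⋃ a ∈ s, t a : Set β) < c :=
  (card_biUnion_lt_iff_forall_of_isRegular hc hs).2 ht

theorem sm_iUnion {α β : Type} {c : Cardinal.{0}} (hc : c.IsRegular) (hs : #α < c)
    {t : α → Set β} (ht : ∀ a, #(t a) < c) : #(⋃ a, t a : Set β) < c :=
  (card_iUnion_lt_iff_forall_of_isRegular hc hs).2 ht

theorem sm_mono {α : Type} {c : Cardinal.{0}} {s t : Set α} (h : s ⊆ t) (ht : #t < c) : #s < c :=
  (mk_le_mk_of_subset h).trans_lt ht

theorem sm_image {α β : Type} {c : Cardinal.{0}} {s : Set α} (f : α → β) (hs : #s < c) :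
    #(f '' s) < c := mk_image_le.trans_lt hs

variable [WellFoundedLT K]

theorem exists_card_eq {x : K} {c : Cardinal.{0}} (h : c < #(Iio x)) :
    ∃ o < x, #(Iio o) = c ∧ Ini o := by
  have e1 : ∀ z : K, (Ordinal.typein (fun a b : K => a < b) z).card = #(Iio z) :=
    fun z => Ordinal.card_typein z
  have h1 : c.ord < Ordinal.typein (fun a b : K => a < b) x := by
    by_contra hc
    have h2 := Ordinal.card_le_card (not_lt.1 hc)
    rw [card_ord, e1] at h2
    exact absurd h (not_lt.2 h2)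
  obtain ⟨o, ho⟩ := Ordinal.typein_surj (fun a b : K => a < b)
    (h1.trans (Ordinal.typein_lt_type _ x))
  have hox : o < x := by
    rw [← ho] at h1
    exact (Ordinal.typein_lt_typein (fun a b : K => a < b)).1 h1
  have ho' : Ordinal.typein (fun a b : K => a < b) o = c.ord := ho
  have hc : #(Iio o) = c := by
    rw [← e1, ho', card_ord]
  refine ⟨o, hox, hc, fun y hy => ?_⟩
  have h3 : Ordinal.typein (fun a b : K => a < b) y < c.ord := by
    rw [← ho']
    exact (Ordinal.typein_lt_typein (fun a b : K => a < b)).2 hy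
  rw [hc, ← e1]
  exact lt_ord.1 h3

/-- A small set can be enumerated by a small element. -/
theorem exists_enum {α : Type} {x : K} {X : Set α} (h : #X < #(Iio x)) :
    ∃ o < x, ∃ f : Iio o → α, range f = X := by
  obtain ⟨o, ho, h1, _⟩ := exists_card_eq h
  obtain ⟨e⟩ := Cardinal.eq.1 h1
  refine ⟨o, ho, fun i => (e i : α), ?_⟩
  ext y
  constructor
  · rintro ⟨i, rfl⟩
    exact (e i).2
  · intro hy
    exact ⟨e.symm ⟨y, hy⟩, by simp⟩

theorem IsReg.lim {x y : K} (h : IsReg x) (hy : y < x) : ∃ z < x, y < z := by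
  have h1 : #(insert y (Iio y) : Set K) < #(Iio x) := by
    have h2 : #(insert y (Iio y) : Set K) ≤ #(Iio y) + 1 := mk_insert_le
    exact h2.trans_lt (add_lt_of_lt h.reg.aleph0_le (h.ini y hy)
      (one_lt_aleph0.trans_le h.reg.aleph0_le))
  obtain ⟨z, hz, h3, _⟩ := exists_card_eq h1
  by_contra hc
  push Not at hc
  have h4 : Iio x ⊆ insert y (Iio y) := by
    intro w hw
    by_cases hwy : w < y
    · exact Or.inr hwy
    · rcases (not_lt.1 hwy).eq_or_lt with h5 | h5
      · exact Or.inl h5.symm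
      · exact absurd h5 (not_lt.2 (hc w hw))
  exact absurd (mk_le_mk_of_subset h4) (not_le.2 h1)

omit [WellFoundedLT K] in
/-- Small subsets of a regular cardinal are bounded. -/
theorem IsReg.bdd {x : K} (h : IsReg x) {X : Set K} (hX : #X < #(Iio x)) (hXx : ∀ y ∈ X, y < x) :
    ∃ z < x, ∀ y ∈ X, y < z := by
  by_contra hc
  push Not at hc
  have h1 : Iio x ⊆ ⋃ y ∈ X, insert y (Iio y) := by
    intro z hz
    obtain ⟨y, hy, hzy⟩ := hc z hz
    refine mem_iUnion₂.2 ⟨y, hy, ?_⟩
    rcases hzy.eq_or_lt with h5 | h5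
    · exact Or.inl h5
    · exact Or.inr h5
  have h2 : #(⋃ y ∈ X, insert y (Iio y) : Set K) < #(Iio x) := by
    refine sm_biUnion h.reg hX fun y hy => ?_
    exact mk_insert_le.trans_lt (add_lt_of_lt h.reg.aleph0_le (h.ini y (hXx y hy))
      (one_lt_aleph0.trans_le h.reg.aleph0_le))
  exact absurd (mk_le_mk_of_subset h1) (not_le.2 h2)

end K

end Pool.Agent.helper75.NS
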