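import Pool.Agent.helper75.NS.Iface
import Pool.Agent.helper74.HYGen

/-!
# Check names
-/

namespace Pool.Agent.helper75.NS

open Pool.Agent.helper31.ZF Pool.Agent.helper74.Forc

/-- A symmetric system whose filter only contains the full group. -/
class TopSys (G P : Type) [Group G] [Preorder P] [MulAction G P] extends SymSys G P where
  top : ∀ H, big H → H = ⊤

/-- The trivial filter. -/
@[reducible] def topSys (G P : Type) [Group G] [Preorder P] [MulAction G P] [OrdAct G P] :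
    TopSys G P where
  big H := H = ⊤
  big_top := rfl
  big_inf := by
    rintro _ _ rfl rfl
    exact inf_top_eq ⊤
  big_up := fun _ _ h hH => top_le_iff.1 (hH ▸ h)
  big_conj := fun _ _ hH => ⟨⊤, rfl, fun _ _ => hH ▸ Subgroup.mem_top _⟩
  top := fun _ h => h

section ck

variable {A : Type} [LinearOrder A] [WellFoundedLT A] (P : Type)

/-- Check names. -/
noncomputable def ck : A → Nm P :=
  WellFounded.fix (C := fun _ => Nm P) (wellFounded_lt (α := A)) fun x ih =>
    .mk {y : A // y < x} (fun y => ih y.1 y.2) (fun _ _ => True)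

theorem ck_eq (x : A) : ck P x = .mk {y : A // y < x} (fun y => ck P y.1) (fun _ _ => True) := by
  unfold ck
  rw [WellFounded.fix_eq]

variable {P}

theorem act_ck {G : Type} [Group G] [MulAction G P] (g : G) (x : A) :
    act g (ck P x) = ck P x := by
  induction x using WellFoundedLT.induction with
  | ind x ih =>
    rw [ck_eq, act_mk]
    congr 1
    funext y
    exact ih y.1 y.2

variable [Preorder P]

theorem fmem_ck {x y : A} (h : x < y) (p : P) : fmem (ck P x) (ck P y) p := by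
  rw [ck_eq P y]
  exact fmem_el (.mk {z : A // z < y} (fun z => ck P z.1) (fun _ _ => True)) (i := ⟨x, h⟩)
    (dw_true _ _)

theorem feq_ck {x y : A} {p : P} : feq (ck P x) (ck P y) p ↔ x = y := by
  constructor
  · intro he
    by_contra h
    rcases lt_or_gt_of_ne h with h | h
    · exact not_fmem_self _ _ ((fmem_ck h p).congr_right he.symm)
    · exact not_fmem_self _ _ ((fmem_ck h p).congr_right he)
  · rintro rfl
    exact feq.refl _ _

theorem ck_inj [Nonempty P] {x y : A} (h : ck P x = ck P y) : x = y := by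
  obtain ⟨p⟩ := ‹Nonempty P›
  rw [← feq_ck (p := p), h]
  exact feq.refl _ _

variable {G : Type} [Group G] [MulAction G P]

theorem hs_ck [SymSys G P] (x : A) : HS G (ck P x) := by
  induction x using WellFoundedLT.induction with
  | ind x ih =>
    rw [ck_eq]
    refine HS.intro ⟨⊤, SymSys.big_top, fun g _ p => ?_⟩ fun y => ih y.1 y.2
    rw [← ck_eq, act_ck]
    exact feq.refl _ _

variable [TopSys G P]

omit [LinearOrder A] [WellFoundedLT A] in
theorem hs_inv {x : Nm P} (h : HS G x) (g : G) (p : P) : feq (act g x) x p := by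
  obtain ⟨H, hH, h⟩ := h.sym
  have := TopSys.top H hH
  subst this
  exact h g (Subgroup.mem_top g) p

omit [LinearOrder A] [WellFoundedLT A] in
theorem iv_fmem {x y : Nm P} (hx : HS G x) (hy : HS G y) : Iv G (fmem x y) := by
  intro g p
  rw [← fmem_act g (x := x) (y := y) (p := p)]
  constructor
  · intro h
    exact (h.congr_left (hs_inv hx g _).symm).congr_right (hs_inv hy g _).symm
  · intro h
    exact (h.congr_left (hs_inv hx g _)).congr_right (hs_inv hy g _)

omit [LinearOrder A] [WellFoundedLT A] [Group G] [MulAction G P] [TopSys G P] in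
theorem ro_fmem {x y : Nm P} : RO (fmem x y) :=
  ⟨fun _ _ h hA => hA.mono h, fun _ h => fmem.dense h⟩

omit [LinearOrder A] [WellFoundedLT A] in
/-- Names with invariant weights. -/
theorem hs_mk {ι : Type} {A : ι → Nm P} {W : ι → P → Prop} (hA : ∀ i, HS G (A i))
    (hW : ∀ i, Iv G (W i)) : HS G (.mk ι A W) := by
  refine HS.intro ⟨⊤, SymSys.big_top, fun g _ p => ?_⟩ hA
  rw [act_mk]
  have e : (fun i p => W i (g⁻¹ • p)) = W := funext fun i => funext fun p => propext (hW i g⁻¹ p)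
  rw [e]
  refine (feq_def _ _ _).2 ⟨fun i q _ hW => ⟨q, le_rfl, i, hW, ?_⟩,
    fun i q _ hW => ⟨q, le_rfl, i, hW, ?_⟩⟩
  · exact hs_inv (hA i) g q
  · exact hs_inv (hA i) g q

end ck

/-! ### check names in the model -/

section model

variable {G P : Type} [Group G] [Preorder P] [MulAction G P] [SymSys G P] {Γ : Gen G P}
variable {A : Type} [LinearOrder A] [WellFoundedLT A]

theorem E_ck {x : A} (hx : Γ.In (ck P x)) {z : Γ.Mod} :
    Γ.E z (Γ.of (ck P x)) ↔ ∃ y < x, Γ.In (ck P y) ∧ z = Γ.of (ck P y) := by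
  rw [ck_eq] at hx ⊢
  rw [Gen.E_mk hx]
  constructor
  · rintro ⟨⟨y, hy⟩, h1, h2, _⟩
    exact ⟨y, hy, h1, h2⟩
  · rintro ⟨y, hy, h1, h2⟩
    exact ⟨⟨y, hy⟩, h1, h2, 0, dw_true _ _⟩

theorem of_ck_inj {x y : A} (hx : Γ.In (ck P x)) (hy : Γ.In (ck P y)) :
    Γ.of (ck P x) = Γ.of (ck P y) ↔ x = y := by
  rw [Gen.of_eq hx hy]
  constructor
  · rintro ⟨k, hk⟩
    exact feq_ck.1 hk
  · rintro rfl
    exact ⟨0, feq.refl _ _⟩

variable [hF : Fact Γ.HasOm]

theorem mem_ck {x : A} (hx : Γ.In (ck P x)) {z : Γ.Mod} :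
    z ∈ Γ.of (ck P x) ↔ ∃ y < x, Γ.In (ck P y) ∧ z = Γ.of (ck P y) := E_ck hx

theorem of_ck_mem {x y : A} (hx : Γ.In (ck P x)) (hy : Γ.In (ck P y)) :
    Γ.of (ck P x) ∈ Γ.of (ck P y) ↔ x < y := by
  rw [mem_ck hy]
  constructor
  · rintro ⟨z, hz, h1, h2⟩
    rw [of_ck_inj hx h1] at h2
    rwa [h2]
  · intro h
    exact ⟨x, h, hx, rfl⟩

theorem ord_ck {x : A} (hx : Γ.In (ck P x)) : IsOrd (Γ.of (ck P x)) := by
  have key : ∀ x : A, Γ.In (ck P x) → IsTransSet (Γ.of (ck P x)) := by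
    intro x hx z hz t ht
    obtain ⟨y, hy, h1, rfl⟩ := (mem_ck hx).1 hz
    obtain ⟨y', hy', h2, rfl⟩ := (mem_ck h1).1 ht
    exact (mem_ck hx).2 ⟨y', hy'.trans hy, h2, rfl⟩
  refine ⟨key x hx, fun z hz => ?_⟩
  obtain ⟨y, hy, h1, rfl⟩ := (mem_ck hx).1 hz
  exact key y h1

/-- The set of all check names of a well-ordered type. -/
noncomputable def ordN (P A : Type) [LinearOrder A] [WellFoundedLT A] : Nm P :=
  .mk A (fun a => ck P a) (fun _ _ => True)

theorem mem_ordN (hx : Γ.In (ordN P A)) {z : Γ.Mod} :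
    z ∈ Γ.of (ordN P A) ↔ ∃ y : A, Γ.In (ck P y) ∧ z = Γ.of (ck P y) := by
  unfold ordN at hx ⊢
  have h1 : z ∈ Γ.of (.mk A (fun a => ck P a) (fun _ _ => True)) ↔ _ := Gen.E_mk hx
  rw [h1]
  constructor
  · rintro ⟨y, h1, h2, _⟩
    exact ⟨y, h1, h2⟩
  · rintro ⟨y, h1, h2⟩
    exact ⟨y, h1, h2, 0, dw_true _ _⟩

theorem ord_ordN (hx : Γ.In (ordN P A)) : IsOrd (Γ.of (ordN P A)) := by
  refine ⟨fun z hz t ht => ?_, fun z hz => ?_⟩
  · obtain ⟨y, h1, rfl⟩ := (mem_ordN hx).1 hz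
    obtain ⟨y', hy', h2, rfl⟩ := (mem_ck h1).1 ht
    exact (mem_ordN hx).2 ⟨y', h2, rfl⟩
  · obtain ⟨y, h1, rfl⟩ := (mem_ordN hx).1 hz
    exact (ord_ck h1).1

end model

end Pool.Agent.helper75.NS
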