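import Pool.Agent.helper75.NS.Master

/-!
# The tree property in the full extension
-/

namespace Pool.Agent.helper75.NS

open Cardinal Set Fa

section K

variable {K : Type} [LinearOrder K] [WellFoundedLT K] [Inhabited K]

variable {mu L k mu' L' : K} {j : K → K} {e : Set (Fa K) → Set (Fa K)} {E : Rn K → Rn K}

/-- A bound for the image of `L`. -/
theorem Lf.delta (h : Lf mu L k mu' L' j e E) : ∃ d < L', ∀ x < L, j x < d := by
  obtain ⟨d, hd, h1⟩ := h.reg'.bdd (X := j '' Iio L) (by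
    exact mk_image_le.trans_lt (h.hL'.ini _ h.L_lt')) (by
    rintro _ ⟨x, hx, rfl⟩
    rw [← h.jL]
    exact h.mono _ _ le_rfl hx)
  exact ⟨d, hd, fun x hx => h1 _ ⟨x, hx, rfl⟩⟩

theorem Lf.cofinal (h : Lf mu L k mu' L' j e E) {kk : ℕ → K} (hkk : StrictMono kk)
    (hkm : ∀ n, kk n < mu) (hcof : ∀ x < mu, ∃ n, x ≤ kk n) {w : K}
    (hw : ∃ e : ℕ → K, StrictMono e ∧ ∀ x, x < w ↔ ∃ n, e n = x) (hwk : w < k) :
    ∀ y < mu', ∃ n, y < j (kk n) := by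
  obtain ⟨e0, he0, hw⟩ := hw
  have h1 : ∀ x : K, ∃ n, x < w → e0 n = x := by
    intro x
    by_cases hx : x < w
    · obtain ⟨n, hn⟩ := (hw x).1 hx
      exact ⟨n, fun _ => hn⟩
    · exact ⟨0, fun h' => absurd h' hx⟩
  choose g hg using h1
  have hg' : ∀ n, g (e0 n) = n := fun n => he0.injective (hg _ ((hw _).2 ⟨n, rfl⟩))
  intro y hy
  rw [← h.jmu] at hy
  obtain ⟨i, hi, h2⟩ := h.sup w hwk (fun i => kk (g i)) (fun i _ => ((hkm _).trans h.hL.lt).le) mu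
    h.hL.lt.le (fun y hy => by
      obtain ⟨n, hn⟩ := hcof y hy
      exact ⟨e0 n, (hw _).2 ⟨n, rfl⟩, by rwa [hg']⟩) y hy
  exact ⟨g i + 1, h2.trans_lt (h.mono _ _ ((hkm _).trans h.hL.lt).le (hkk (Nat.lt_succ_self _)))⟩

/-- Step 1: a narrow system of levels. -/
theorem step1 {kk : ℕ → K} (hkk : StrictMono kk)
    (hkm : ∀ n, kk n < mu) (hcof : ∀ x < mu, ∃ n, x ≤ kk n) {w : K}
    (hw : ∃ e : ℕ → K, StrictMono e ∧ ∀ x, x < w ↔ ∃ n, e n = x) (hwk : w < k)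
    (h : Lf mu L k mu' L' j e E) {R : Rn K} (hB : Bdr L R)
    (hR : ∀ a i c k, Ro L (R a i c k)) {p : Set (Fa K)} (hp : p ∈ Dl L) (hT : Tr mu L R p) :
    ∃ q ∈ Dl L, p ⊆ q ∧ ∃ n, ∃ I : K → Set (Set (Fa K)),
      (∀ a, ∀ u ∈ I a, u ∈ Dl L ∧ ∀ v ∈ Dl L, u ⊆ v → v ∈ I a) ∧
      (∀ x < L, ∀ u ∈ Dl L, q ⊆ u → ∃ v ∈ Dl L, u ⊆ v ∧ ∃ a, x < a ∧ a < L ∧ v ∈ I a) ∧
      ∀ a c, a < c → c < L → ∀ u ∈ Dl L, q ⊆ u → u ∈ I a → u ∈ I c →
        ∃ v ∈ Dl L, u ⊆ v ∧ ∃ i < kk n, ∃ k < kk n, v ∈ R a i c k := by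
  have hR' := h.ro R hB hR
  have hT' := h.tr R hB p hp hT
  have hcof' := h.cofinal hkk hkm hcof hw hwk
  obtain ⟨d, hd, hjd⟩ := h.delta
  have hLL : L ≤ L' := h.L_lt'.le
  let D : K → Set (Set (Fa K)) := fun x => {r | ∃ n, ∃ i < j (kk n), r ∈ E R (j x) i d L}
  have hjkm : ∀ n, j (kk n) < mu' := fun n => by
    rw [← h.jmu]
    exact h.mono _ _ h.hL.lt.le (hkm n)
  obtain ⟨t, ht, hmt, htL, hdec⟩ := Lf.decide_tail hLL h.hs h.hL D h.ms_cd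
    (fun f hf => h.big.trans_le (h.ms_st hf))
  -- the levels
  let A : ℕ → K → Set (Set (Fa K)) := fun n x => {u | u ∈ Dl L ∧ ∀ v ∈ Dl L', u ⊆ v → t ⊆ v →
    ∃ r ∈ Dl L', v ⊆ r ∧ ∃ i < j (kk n), r ∈ E R (j x) i d L}
  have hA : ∀ n x, ∀ u ∈ A n x, ∀ v ∈ Dl L, u ⊆ v → v ∈ A n x := fun n x u hu v hv huv =>
    ⟨hv, fun v' hv' hvv htv => hu.2 v' hv' (huv.trans hvv) htv⟩
  have hdense : ∀ x < L, ∀ u ∈ Dl L, p ⊆ u → ∃ v ∈ Dl L, u ⊆ v ∧ ∃ n, v ∈ A n x := by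
    intro x hx u hu hpu
    have h1 : ∃ r ∈ D x, r ∈ Dl L' ∧ u ⊆ r ∧ t ⊆ r := by
      have h2 : u ∪ t ∈ Dl L' := Lf.tail_union hLL hu ht htL
      have h3 : u ∪ t ∪ e p ∈ Dl L' := h.union_e hp h2 (hmt.trans subset_union_right)
        (hpu.trans subset_union_left)
      obtain ⟨r, hr, h4, i, hi, h5⟩ := hT'.pred (j x) d (hjd x hx) hd L h.L_lt _ h3
        subset_union_right
      obtain ⟨n, hn⟩ := hcof' i hi
      exact ⟨r, ⟨n, i, hn, h5⟩, hr, (subset_union_left.trans subset_union_left).trans h4,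
        (subset_union_right.trans subset_union_left).trans h4⟩
    obtain ⟨u', hu', huu, r, ⟨n, i, hi, hri⟩, hrL, hcomp⟩ := hdec x hx u hu h1
    refine ⟨u', hu', huu, n, hu', fun v hv huv htv => ⟨v ∪ r, hcomp v hv huv htv,
      subset_union_left, i, hi, (hR' _ _ _ _).up _ hri _ (hcomp v hv huv htv)
      subset_union_right⟩⟩
  obtain ⟨q, hq, hpq, n, hun⟩ := unb_nat h.reg A hA hp hdense
  refine ⟨q, hq, hpq, n, A n, fun a u hu => ⟨hu.1, hA n a u hu⟩, hun,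
    fun a c hac hc u hu hqu hua huc => ?_⟩
  by_contra hcon
  have hneg : Neg L R u a c (kk n) := fun i hi z hz v hv huv hvR =>
    hcon ⟨v, hv, huv, i, hi, z, hz, hvR⟩
  have hneg' := h.neg R hB u hu a (hac.trans hc).le c hc.le (kk n)
    ((hkm n).trans h.hL.lt).le hneg
  have h2 : u ∪ t ∈ Dl L' := Lf.tail_union hLL hu ht htL
  have h3 : u ∪ t ∪ e u ∈ Dl L' := h.union_e hu h2 (hmt.trans subset_union_right)
    subset_union_left
  have h4 : u ⊆ u ∪ t ∪ e u := subset_union_left.trans subset_union_left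
  have h5 : t ⊆ u ∪ t ∪ e u := subset_union_right.trans subset_union_left
  obtain ⟨r1, hr1, h6, i1, hi1, h7⟩ := hua.2 _ h3 h4 h5
  obtain ⟨r2, hr2, h8, i2, hi2, h9⟩ := huc.2 r1 hr1 (h4.trans h6) (h5.trans h6)
  have h10 : e p ⊆ r2 := (h.sub p hp u hu (hpq.trans hqu)).trans
    ((subset_union_right.trans h6).trans h8)
  have h11 := hT'.like (j a) (j c) d (h.mono _ _ hc.le hac) (hjd c hc) hd i1
    (hi1.trans (hjkm n)) i2 (hi2.trans (hjkm n)) L h.L_lt r2 hr2 h10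
    ((hR' _ _ _ _).up _ h7 _ hr2 h8) h9
  exact hneg' i1 hi1 i2 hi2 r2 hr2 ((subset_union_right.trans h6).trans h8) h11

/-- Step 2: the levels can be chosen so that one node of each is in the branch. -/
theorem step2 (h : Lf mu L k mu' L' j e E) {R : Rn K} (hB : Bdr L R)
    (hR : ∀ a i c k, Ro L (R a i c k)) {z : K} (hz : z < k) {I : K → Set (Set (Fa K))}
    {p q1 : Set (Fa K)} (hp : p ∈ Dl L) (hq1 : q1 ∈ Dl L) (hpq : p ⊆ q1) (hT : Tr mu L R p)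
    (hI : ∀ a, ∀ u ∈ I a, u ∈ Dl L ∧ ∀ v ∈ Dl L, u ⊆ v → v ∈ I a)
    (hun : ∀ x < L, ∀ u ∈ Dl L, q1 ⊆ u → ∃ v ∈ Dl L, u ⊆ v ∧ ∃ a, x < a ∧ a < L ∧ v ∈ I a)
    (hnar : ∀ a c, a < c → c < L → ∀ u ∈ Dl L, q1 ⊆ u → u ∈ I a → u ∈ I c →
        ∃ v ∈ Dl L, u ⊆ v ∧ ∃ i < z, ∃ k < z, v ∈ R a i c k) :
    ∃ q ∈ Dl L, q1 ⊆ q ∧ ∃ i < z, ∃ J : K → Set (Set (Fa K)),
      (∀ a, ∀ u ∈ J a, u ∈ Dl L ∧ ∀ v ∈ Dl L, u ⊆ v → v ∈ J a) ∧
      (∀ x < L, ∀ u ∈ Dl L, q ⊆ u → ∃ v ∈ Dl L, u ⊆ v ∧ ∃ a, x < a ∧ a < L ∧ v ∈ J a) ∧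
      ∀ a c, a < c → c < L → ∀ u ∈ Dl L, q ⊆ u → u ∈ J a → u ∈ J c →
        ∃ v ∈ Dl L, u ⊆ v ∧ v ∈ R a i c i := by
  classical
  have hR' := h.ro R hB hR
  have hT' := h.tr R hB p hp hT
  obtain ⟨d0, hd0, hjd0⟩ := h.delta
  have hLL : L ≤ L' := h.L_lt'.le
  have hzL : z ≤ L := (hz.trans (h.kmu.trans h.hL.lt)).le
  have hzmu' : z < mu' := (hz.trans (h.kmu.trans h.hL.lt)).trans h.L_lt
  -- the name of `I`
  let RI : Rn K := fun a i c k => if a < L ∧ i = a ∧ c = a ∧ k = a then I a else ∅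
  have hRI : ∀ a < L, RI a a a a = I a := fun a ha => if_pos ⟨ha, rfl, rfl, rfl⟩
  have hRI' : ∀ a, ¬ a < L → RI a a a a = ∅ := fun a ha => if_neg fun h' => ha h'.1
  have hBI : Bdr L RI := by
    intro a i c k
    by_cases hc : a < L ∧ i = a ∧ c = a ∧ k = a
    · have e1 : RI a i c k = I a := if_pos hc
      obtain ⟨h1, h2, h3, h4⟩ := hc
      subst h2 h3 h4
      exact ⟨fun p hp => (hI k p (by rwa [← e1])).1, fun _ => ⟨h1.le, h1.le, h1.le, h1.le⟩⟩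
    · have e1 : RI a i c k = ∅ := if_neg hc
      rw [e1]
      exact ⟨fun p hp => hp.elim, fun hne => absurd hne not_nonempty_empty⟩
  have hup : Upc L RI := by
    intro a u hu v hv huv
    by_cases ha : a < L
    · rw [hRI a ha] at hu ⊢
      exact (hI a u hu).2 v hv huv
    · rw [hRI' a ha] at hu
      exact hu.elim
  have hup' := h.upc RI hBI hup
  have hunb' : Unb L' (E RI) (e q1) := h.unb RI hBI q1 hq1 fun x hx u hu hqu => by
    obtain ⟨v, hv, huv, a, hxa, ha, hva⟩ := hun x hx u hu hqu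
    exact ⟨v, hv, huv, a, hxa, ha, by rwa [hRI a ha]⟩
  have hnar' : Nar L' (E R) (E RI) (e q1) (j z) := h.nar R hB RI hBI q1 hq1 z hzL
    fun a c hac hc u hu hqu hua huc => by
      rw [hRI a (hac.trans hc)] at hua
      rw [hRI c hc] at huc
      exact hnar a c hac hc u hu hqu hua huc
  rw [h.fix z hz] at hnar'
  -- decide the level `d`
  have h1 : q1 ∪ Ms L k j e ∈ Dl L' := Lf.tail_union hLL hq1 h.ms_cd
    fun f hf => h.big.trans_le (h.ms_st hf)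
  have h2 := h.union_e hq1 h1 subset_union_right subset_union_left
  obtain ⟨v0, hv0, h3, d, hd0d, hd, hv0d⟩ := hunb' d0 hd0 _ h2 subset_union_right
  have hq1v : q1 ⊆ v0 := (subset_union_left.trans subset_union_left).trans h3
  have hmv : Ms L k j e ⊆ v0 := (subset_union_right.trans subset_union_left).trans h3
  have hev : e q1 ⊆ v0 := subset_union_right.trans h3
  have hjd : ∀ x < L, j x < d := fun x hx => (hjd0 x hx).trans hd0d
  let q2 := NS.le L v0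
  have hq2 : q2 ∈ Dl L := Dl.le hv0
  have hq12 : q1 ⊆ q2 := fun f hf => ⟨hq1v hf, hq1.2 f hf⟩
  let b1 := Ms L k j e ∪ sh L v0
  have hb1 : b1 ∈ Dl L' := by
    refine ⟨h.ms_cd.1.fuse hv0.1 hmv, ?_⟩
    rintro f (hf | hf)
    · exact h.ms_cd.2 f hf
    · obtain ⟨g, hg, e1⟩ := sh_st' hf
      rw [← e1]
      exact hv0.2 g hg
  have hb1L : ∀ f ∈ b1, L < f.st := by
    rintro f (hf | hf)
    · exact h.big.trans_le (h.ms_st hf)
    · exact sh_st hf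
  have hcompat : ∀ v ∈ Dl L', q2 ⊆ v → b1 ⊆ v → v ∪ v0 ∈ Dl L' := fun v hv hqv hbv =>
    Dl.union (hv.1.union_sh hv0.1 (subset_union_right.trans hbv) hqv) hv hv0
  let D : K → Set (Set (Fa K)) := fun x => {r | r ∈ E RI d d d d ∧
    ((∀ v ∈ Dl L', r ⊆ v → v ∉ E RI (j x) (j x) (j x) (j x)) ∨
      ∃ i < z, ∃ c < z, r ∈ E R (j x) i d c)}
  obtain ⟨t, ht, hbt, htL, hdec⟩ := Lf.decide_tail hLL h.hs h.hL D hb1 hb1L
  let J : K → K → K → Set (Set (Fa K)) := fun i c x => {u | u ∈ Dl L ∧ ∀ v ∈ Dl L', u ⊆ v →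
    t ⊆ v → ∃ r ∈ Dl L', v ⊆ r ∧ r ∈ E R (j x) i d c}
  have hJup : ∀ i c x, ∀ u ∈ J i c x, u ∈ Dl L ∧ ∀ v ∈ Dl L, u ⊆ v → v ∈ J i c x :=
    fun i c x u hu => ⟨hu.1, fun v hv huv => ⟨hv, fun v' hv' hvv htv =>
      hu.2 v' hv' (huv.trans hvv) htv⟩⟩
  have hmt : Ms L k j e ⊆ t := subset_union_left.trans hbt
  have hJ1 : ∀ x < L, ∀ u ∈ Dl L, q2 ⊆ u → u ∈ I x → ∃ u' ∈ Dl L, u ⊆ u' ∧
      ∃ i < z, ∃ c < z, u' ∈ J i c x := by
    intro x hx u hu hqu hux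
    have hex : ∃ r ∈ D x, r ∈ Dl L' ∧ u ⊆ r ∧ t ⊆ r := by
      have h4 : u ∪ t ∈ Dl L' := Lf.tail_union hLL hu ht htL
      have h5 : u ∪ t ∪ v0 ∈ Dl L' := hcompat _ h4 (hqu.trans subset_union_left)
        (hbt.trans subset_union_right)
      have h6 : u ∪ t ∪ v0 ∈ E RI d d d d := hup' d v0 hv0d _ h5 subset_union_right
      have h7 : u ⊆ u ∪ t ∪ v0 := subset_union_left.trans subset_union_left
      have h8 : t ⊆ u ∪ t ∪ v0 := subset_union_right.trans subset_union_left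
      by_cases hv : ∃ v ∈ Dl L', u ∪ t ∪ v0 ⊆ v ∧ v ∈ E RI (j x) (j x) (j x) (j x)
      · obtain ⟨v, hv, huv, hvx⟩ := hv
        have h9 : v0 ⊆ v := subset_union_right.trans huv
        obtain ⟨r, hr, hvr, i, hi, c, hc, hric⟩ := hnar' (j x) d (hjd x hx) hd v hv
          (hev.trans h9) hvx (hup' d v0 hv0d v hv h9)
        exact ⟨r, ⟨hup' d v0 hv0d r hr (h9.trans hvr), Or.inr ⟨i, hi, c, hc, hric⟩⟩, hr,
          (h7.trans huv).trans hvr, (h8.trans huv).trans hvr⟩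
      · push Not at hv
        exact ⟨u ∪ t ∪ v0, ⟨h6, Or.inl fun v hv' huv => hv v hv' huv⟩, h5, h7, h8⟩
    obtain ⟨u', hu', huu, r, hrD, hrL, hcomp⟩ := hdec x hx u hu hex
    rcases hrD.2 with hno | ⟨i, hi, c, hc, hric⟩
    · exfalso
      have h4 : u' ∪ t ∈ Dl L' := Lf.tail_union hLL hu' ht htL
      have h5 : u' ∪ t ∪ e u ∈ Dl L' := h.union_e hu h4 (hmt.trans subset_union_right)
        (huu.trans subset_union_left)
      have h6 := hcomp _ h5 (subset_union_left.trans subset_union_left)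
        (subset_union_right.trans subset_union_left)
      have h7 : e u ∈ E RI (j x) (j x) (j x) (j x) :=
        h.mem RI hBI u hu x hx.le (by rwa [hRI x hx])
      exact hno _ h6 subset_union_right
        (hup' _ _ h7 _ h6 (subset_union_right.trans subset_union_left))
    · refine ⟨u', hu', huu, i, hi, c, hc, hu', fun v hv huv htv => ⟨v ∪ r, hcomp v hv huv htv,
        subset_union_left, (hR' _ _ _ _).up _ hric _ (hcomp v hv huv htv) subset_union_right⟩⟩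
  -- pigeonhole for the pairs
  obtain ⟨q, hq, hqq, i, hi, c, hc, hunJ⟩ : ∃ q ∈ Dl L, q2 ⊆ q ∧ ∃ i < z, ∃ c < z,
      ∀ x < L, ∀ u ∈ Dl L, q ⊆ u → ∃ v ∈ Dl L, u ⊆ v ∧ ∃ a, x < a ∧ a < L ∧ v ∈ J i c a := by
    by_contra hcon
    push Not at hcon
    have hcard : #(Iio z × Iio z) ≤ #(Iio mu) := by
      rw [mk_prod, lift_id]
      have h4 := card_mono (hz.trans h.kmu).le
      refine (mul_le_mul' h4 h4).trans ?_
      rw [mul_eq_self h.hs.inf]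
    obtain ⟨⟨em, hem⟩⟩ := Cardinal.le_def _ _ |>.1 hcard
    let X : K → Set (Set (Fa K)) := fun m => {u | ∀ s : Iio z × Iio z, (em s : K) = m →
      ∃ x < L, ∀ v ∈ Dl L, u ⊆ v → ∀ a, x < a → a < L → v ∉ J s.1 s.2 a}
    obtain ⟨q, hq, hqq, Rec, hr1, hr2, hr3⟩ := decide_S h.hs X hq2 (fun m hm u hu hqu => by
      by_cases hex : ∃ s : Iio z × Iio z, (em s : K) = m
      · obtain ⟨s, hs⟩ := hex
        obtain ⟨x, hx, v, hv, huv, h4⟩ := hcon u hu hqu s.1 s.1.2 s.2 s.2.2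
        refine ⟨v, ?_, hv, huv⟩
        intro s' hs'
        have : s' = s := hem (Subtype.ext (hs'.trans hs.symm))
        subst this
        exact ⟨x, hx, h4⟩
      · exact ⟨u, fun s hs => absurd ⟨s, hs⟩ hex, hu, subset_rfl⟩)
    -- bounds
    have hb : ∀ (s : Iio z × Iio z) (r : Set (Fa K)), ∃ x < L, r ∈ Rec (em s) →
        ∀ v ∈ Dl L, r ⊆ v → ∀ a, x < a → a < L → v ∉ J s.1 s.2 a := by
      intro s r
      by_cases hr : r ∈ Rec (em s)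
      · obtain ⟨x, hx, h4⟩ := (hr2 _ (em s).2 r hr).1 s rfl
        exact ⟨x, hx, fun _ => h4⟩
      · exact ⟨mu, h.hL.lt, fun h' => absurd h' hr⟩
    choose x hxL hx using hb
    obtain ⟨y, hy, hy'⟩ := h.reg.bdd (X := ⋃ s, (x s) '' Rec (em s)) (by
      refine sm_iUnion h.reg.reg (hcard.trans_lt (h.hL.ini _ h.hL.lt)) fun s => ?_
      exact sm_image _ ((hr1 _ (em s).2).trans (h.hL.ini _ h.hL.lt))) (by
      intro a ha
      obtain ⟨s, r, _, rfl⟩ := mem_iUnion.1 ha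
      exact hxL s r)
    obtain ⟨u, hu, hqu, a, hya, haL, hua⟩ := hun y hy q hq (hq12.trans hqq)
    obtain ⟨u', hu', huu, i, hi, c, hc, hJ⟩ := hJ1 a haL u hu (hqq.trans hqu) hua
    obtain ⟨r, hr, hur⟩ := hr3 (em (⟨i, hi⟩, ⟨c, hc⟩)) (em _).2 u' hu' (hqu.trans huu)
    refine hx (⟨i, hi⟩, ⟨c, hc⟩) r hr _ hur subset_union_right a ?_ haL
      ((hJup i c a u' hJ).2 _ hur subset_union_left)
    exact (hy' _ (mem_iUnion.2 ⟨(⟨i, hi⟩, ⟨c, hc⟩), r, hr, rfl⟩)).trans hya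
  refine ⟨q, hq, hq12.trans hqq, i, hi, J i c, hJup i c, hunJ,
    fun a c' hac hc' u hu hqu hua huc => ?_⟩
  by_contra hcon
  have hneg : Neg1 L R u a c' i := fun v hv huv hvR => hcon ⟨v, hv, huv, hvR⟩
  have hneg' := h.neg1 R hB u hu a (hac.trans hc').le c' hc'.le i (hi.le.trans hzL) hneg
  rw [h.fix i (hi.trans hz)] at hneg'
  have h2 : u ∪ t ∈ Dl L' := Lf.tail_union hLL hu ht htL
  have h3 : u ∪ t ∪ e u ∈ Dl L' := h.union_e hu h2 (hmt.trans subset_union_right)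
    subset_union_left
  have h4 : u ⊆ u ∪ t ∪ e u := subset_union_left.trans subset_union_left
  have h5 : t ⊆ u ∪ t ∪ e u := subset_union_right.trans subset_union_left
  obtain ⟨r1, hr1, h6, h7⟩ := hua.2 _ h3 h4 h5
  obtain ⟨r2, hr2, h8, h9⟩ := huc.2 r1 hr1 (h4.trans h6) (h5.trans h6)
  have h10 : e p ⊆ r2 := (h.sub p hp u hu (hpq.trans (hq12.trans (hqq.trans hqu)))).trans
    ((subset_union_right.trans h6).trans h8)
  have h11 := hT'.like (j a) (j c') d (h.mono _ _ hc'.le hac) (hjd c' hc') hd i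
    (hi.trans hzmu') i (hi.trans hzmu') c (hc.trans hzmu') r2 hr2 h10
    ((hR' _ _ _ _).up _ h7 _ hr2 h8) h9
  exact hneg' r2 hr2 ((subset_union_right.trans h6).trans h8) h11

/-- Step 3: the branch. -/
theorem step3 (hL : IsReg L) {R : Rn K} (hR : ∀ a i c k, Ro L (R a i c k)) {i : K} (hi : i < mu)
    {J : K → Set (Set (Fa K))} {p q : Set (Fa K)} (hpq : p ⊆ q) (hT : Tr mu L R p)
    (hJ : ∀ a, ∀ u ∈ J a, u ∈ Dl L ∧ ∀ v ∈ Dl L, u ⊆ v → v ∈ J a)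
    (hun : ∀ x < L, ∀ u ∈ Dl L, q ⊆ u → ∃ v ∈ Dl L, u ⊆ v ∧ ∃ a, x < a ∧ a < L ∧ v ∈ J a)
    (hrel : ∀ a c, a < c → c < L → ∀ u ∈ Dl L, q ⊆ u → u ∈ J a → u ∈ J c →
        ∃ v ∈ Dl L, u ⊆ v ∧ v ∈ R a i c i) :
    ∃ b : K → K → Set (Set (Fa K)), (∀ a i, Ro L (b a i)) ∧ Br mu L R b q := by
  let b : K → K → Set (Set (Fa K)) := fun a x => {u | u ∈ Dl L ∧ ∀ u' ∈ Dl L, u ⊆ u' →
    ∃ v ∈ Dl L, u' ⊆ v ∧ ∃ c, a < c ∧ c < L ∧ v ∈ J c ∧ v ∈ R a x c i ∧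
      ∀ x' < x, ∀ v' ∈ Dl L, v ⊆ v' → v' ∉ R a x' c i}
  have hb : ∀ a x, Ro L (b a x) := fun a x => {
    sub := fun u hu => hu.1
    up := fun u hu v hv huv => ⟨hv, fun u' hu' hvu => hu.2 u' hu' (huv.trans hvu)⟩
    dense := fun u hu hd => ⟨hu, fun u' hu' huu => by
      obtain ⟨r, hr, hur⟩ := hd u' hu' huu
      obtain ⟨v, hv, hrv, h⟩ := hr.2 r hr.1 subset_rfl
      exact ⟨v, hv, hur.trans hrv, h⟩⟩ }
  -- move the witness of a level to another one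
  have hmove : ∀ a x c1 c2, a < c1 → a < c2 → c1 < L → c2 < L → x < mu → ∀ v ∈ Dl L, q ⊆ v →
      v ∈ J c1 → v ∈ J c2 → v ∈ R a x c1 i → v ∈ R a x c2 i := by
    intro a x c1 c2 h1 h2 hc1 hc2 hx v hv hqv hv1 hv2 hvR
    refine (hR _ _ _ _).dense v hv fun r hr hvr => ?_
    rcases lt_trichotomy c1 c2 with h3 | h3 | h3
    · obtain ⟨s, hs, hrs, h4⟩ := hrel c1 c2 h3 hc2 r hr (hqv.trans hvr) ((hJ _ _ hv1).2 r hr hvr)
        ((hJ _ _ hv2).2 r hr hvr)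
      exact ⟨s, hT.trans a c1 c2 h1 h3 hc2 x hx i hi i hi s hs
        (hpq.trans (hqv.trans (hvr.trans hrs)))
        ((hR _ _ _ _).up _ hvR _ hs (hvr.trans hrs)) h4, hrs⟩
    · subst h3
      exact ⟨r, (hR _ _ _ _).up _ hvR _ hr hvr, subset_rfl⟩
    · obtain ⟨s, hs, hrs, h4⟩ := hrel c2 c1 h3 hc1 r hr (hqv.trans hvr) ((hJ _ _ hv2).2 r hr hvr)
        ((hJ _ _ hv1).2 r hr hvr)
      exact ⟨s, hT.like a c2 c1 h2 h3 hc1 x hx i hi i hi s hs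
        (hpq.trans (hqv.trans (hvr.trans hrs)))
        ((hR _ _ _ _).up _ hvR _ hs (hvr.trans hrs)) h4, hrs⟩
  refine ⟨b, hb, ?_, ?_, ?_⟩
  · intro a ha u hu hqu
    obtain ⟨v, hv, huv, c, hac, hc, hvJ⟩ := hun a ha u hu hqu
    have hex : {x | x < mu ∧ ∃ r ∈ Dl L, v ⊆ r ∧ r ∈ R a x c i}.Nonempty := by
      obtain ⟨r, hr, hvr, x, hx, hrx⟩ := hT.pred a c hac hc i hi v hv (hpq.trans (hqu.trans huv))
      exact ⟨x, hx, r, hr, hvr, hrx⟩
    obtain ⟨x, ⟨hx, r, hr, hvr, hrx⟩, hmin⟩ := (wellFounded_lt (α := K)).has_min _ hex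
    refine ⟨x, hx, r, ⟨hr, fun u' hu' hru => ⟨u', hu', subset_rfl, c, hac, hc,
      (hJ _ _ hvJ).2 u' hu' (hvr.trans hru), (hR _ _ _ _).up _ hrx _ hu' hru,
      fun x' hx' v' hv' huv' hvR => ?_⟩⟩, huv.trans hvr⟩
    exact hmin x' ⟨hx'.trans hx, v', hv', hvr.trans (hru.trans huv'), hvR⟩ hx'
  · intro a c hac hc x hx y hy u hqu hua huc
    have huL := (hb a x).sub hua
    refine (hR _ _ _ _).dense u huL fun u' hu' huu => ?_
    obtain ⟨v1, hv1, h1, c1, hac1, hc1, hJ1, hR1, _⟩ := hua.2 u' hu' huu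
    obtain ⟨v2, hv2, h2, c2, hcc2, hc2, hJ2, hR2, _⟩ := huc.2 v1 hv1 (huu.trans h1)
    have hqv2 : q ⊆ v2 := hqu.trans (huu.trans (h1.trans h2))
    have h3 := hmove a x c1 c2 hac1 (hac.trans hcc2) hc1 hc2 hx v2 hv2 hqv2
      ((hJ _ _ hJ1).2 v2 hv2 h2) hJ2 ((hR _ _ _ _).up _ hR1 _ hv2 h2)
    exact ⟨v2, hT.like a c c2 hac hcc2 hc2 x hx y hy i hi v2 hv2 (hpq.trans hqv2) h3 hR2,
      h1.trans h2⟩
  · intro a c hac hc x hx y hy u hqu hua huc x' hx' r hr hur hrR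
    obtain ⟨v1, hv1, h1, c1, hac1, hc1, hJ1, hR1, hmin⟩ := hua.2 r hr hur
    obtain ⟨v2, hv2, h2, c2, hcc2, hc2, hJ2, hR2, _⟩ := huc.2 v1 hv1 (hur.trans h1)
    have hqv2 : q ⊆ v2 := hqu.trans (hur.trans (h1.trans h2))
    have hx'mu : x' < mu := hx'.trans hx
    have h3 := hT.trans a c c2 hac hcc2 hc2 x' hx'mu y hy i hi v2 hv2 (hpq.trans hqv2)
      ((hR _ _ _ _).up _ hrR _ hv2 (h1.trans h2)) hR2
    have h4 := hmove a x' c2 c1 (hac.trans hcc2) hac1 hc2 hc1 hx'mu v2 hv2 hqv2 hJ2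
      ((hJ _ _ hJ1).2 v2 hv2 h2) h3
    exact hmin x' hx' v2 hv2 h2 h4

/-- The tree property in the full extension. -/
theorem tpv_of_lf (hs : InS mu) (hL : IsSuc mu L) {kk : ℕ → K} (hkk : StrictMono kk)
    (hkm : ∀ n, kk n < mu) (hcof : ∀ x < mu, ∃ n, x ≤ kk n) {w : K}
    (hw : ∃ e : ℕ → K, StrictMono e ∧ ∀ x, x < w ↔ ∃ n, e n = x) (hwk : w < kk 0)
    (h : ∀ n, ∃ mu' L' j e E, Lf mu L (kk n) mu' L' j e E) : TPV mu L := by
  classical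
  intro R0 hR0 p hp hT0
  let R : Rn K := fun a i c k => if a < L ∧ i < mu ∧ c < L ∧ k < mu then R0 a i c k else ∅
  have hRe : ∀ a i c k, a < L → i < mu → c < L → k < mu → R a i c k = R0 a i c k :=
    fun a i c k h1 h2 h3 h4 => if_pos ⟨h1, h2, h3, h4⟩
  have hB : Bdr L R := by
    intro a i c k
    by_cases hc : a < L ∧ i < mu ∧ c < L ∧ k < mu
    · have e1 : R a i c k = R0 a i c k := if_pos hc
      rw [e1]
      exact ⟨fun p hp => (hR0 _ _ _ _).sub hp, fun _ => ⟨hc.1.le, (hc.2.1.trans hL.lt).le,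
        hc.2.2.1.le, (hc.2.2.2.trans hL.lt).le⟩⟩
    · have e1 : R a i c k = ∅ := if_neg hc
      rw [e1]
      exact ⟨fun p hp => hp.elim, fun hne => absurd hne not_nonempty_empty⟩
  have hR : ∀ a i c k, Ro L (R a i c k) := by
    intro a i c k
    by_cases hc : a < L ∧ i < mu ∧ c < L ∧ k < mu
    · have e1 : R a i c k = R0 a i c k := if_pos hc
      rw [e1]
      exact hR0 _ _ _ _
    · have e1 : R a i c k = ∅ := if_neg hc
      rw [e1]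
      exact ⟨fun _ h => h.elim, fun _ h => h.elim, fun p hp hd => by
        obtain ⟨r, hr, _⟩ := hd p hp subset_rfl
        exact hr.elim⟩
  have hT : Tr mu L R p := by
    refine ⟨fun a b hab hb k hk q hq hpq => ?_, fun a b c hab hbc hc i hi j hj k hk q hq hpq => ?_,
      fun a b c hab hbc hc i hi j hj k hk q hq hpq => ?_⟩
    · obtain ⟨r, hr, hqr, i, hi, h1⟩ := hT0.pred a b hab hb k hk q hq hpq
      exact ⟨r, hr, hqr, i, hi, by rwa [hRe a i b k (hab.trans hb) hi hb hk]⟩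
    · rw [hRe a i c k (hab.trans (hbc.trans hc)) hi hc hk, hRe b j c k (hbc.trans hc) hj hc hk,
        hRe a i b j (hab.trans (hbc.trans hc)) hi (hbc.trans hc) hj]
      exact hT0.like a b c hab hbc hc i hi j hj k hk q hq hpq
    · rw [hRe a i c k (hab.trans (hbc.trans hc)) hi hc hk, hRe b j c k (hbc.trans hc) hj hc hk,
        hRe a i b j (hab.trans (hbc.trans hc)) hi (hbc.trans hc) hj]
      exact hT0.trans a b c hab hbc hc i hi j hj k hk q hq hpq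
  obtain ⟨mu0, L0, j0, e0, E0, h0⟩ := h 0
  obtain ⟨q1, hq1, hpq1, n, I, hI, hun, hnar⟩ := step1 hkk hkm hcof hw hwk h0 hB hR hp hT
  obtain ⟨mu1, L1, j1, e1, E1, h1⟩ := h (n + 1)
  obtain ⟨q, hq, hqq, i, hi, J, hJ, hunJ, hrel⟩ := step2 h1 hB hR (hkk (Nat.lt_succ_self n)) hp
    hq1 hpq1 hT hI hun hnar
  obtain ⟨b, hb, hbr⟩ := step3 (hL.reg hs.inf) hR (hi.trans (hkm n)) (hpq1.trans hqq) hT hJ hunJ
    hrel
  refine ⟨q, hq, hpq1.trans hqq, b, hb, hbr.tot, fun a c hac hc i hi k hk u hqu h1 h2 => ?_,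
    fun a c hac hc i hi k hk u hqu h1 h2 i' hi' r hr hur h3 => ?_⟩
  · have h3 := hbr.rel a c hac hc i hi k hk u hqu h1 h2
    rwa [hRe a i c k (hac.trans hc) hi hc hk] at h3
  · refine hbr.min a c hac hc i hi k hk u hqu h1 h2 i' hi' r hr hur ?_
    rwa [hRe a i' c k (hac.trans hc) (hi'.trans hi) hc hk]

end K

end Pool.Agent.helper75.NS
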