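import Pool.Agent.helper75.NS.Scheme
import Pool.Agent.helper75.NS.Steps

/-!
# The singular cardinal
-/

namespace Pool.Agent.helper75.NS

open Cardinal Set Fa

section K

variable {K : Type} [LinearOrder K] [WellFoundedLT K]

theorem InS.of_seq {s : K} {y : ℕ → K} (h0 : ℵ₀ ≤ #(Iio (y 0))) (h1 : ∀ n, y n < s)
    (h2 : ∀ x < s, ∃ n, x < y n) (h3 : ∀ n, ∃ m, 2 ^ #(Iio (y n)) ≤ #(Iio (y m))) : InS s := by
  have h4 : ∀ n, 2 ^ #(Iio (y n)) < #(Iio s) := by
    intro n
    obtain ⟨m, hm⟩ := h3 n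
    obtain ⟨m', hm'⟩ := h3 m
    exact (hm.trans_lt (cantor _)).trans_le (hm'.trans (card_mono (h1 m').le))
  refine ⟨⟨?_, fun x hx => ?_⟩, ?_, fun x hx => ?_, y, h1, h2⟩
  · exact (aleph0_pos.trans_le (h0.trans (card_mono (h1 0).le))).ne'
  · obtain ⟨o, ho, rfl, _⟩ := exists_card_eq hx
    obtain ⟨n, hn⟩ := h2 o ho
    exact (power_le_power_left two_ne_zero (card_mono hn.le)).trans_lt (h4 n)
  · exact h0.trans_lt ((cantor _).trans (h4 0))
  · obtain ⟨n, hn⟩ := h2 x hx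
    exact (card_mono hn.le).trans_lt ((cantor _).trans (h4 n))

variable {Om : Cardinal.{0}} (hO : Om.IsInaccessible)
  (hK : Ordinal.type (fun x y : K => x < y) = Om.ord)

include hO hK

theorem exists_sup {y : ℕ → K} (hy : StrictMono y) :
    ∃ s, (∀ n, y n < s) ∧ ∀ x < s, ∃ n, x < y n := by
  obtain ⟨b, hb⟩ := Pool.Agent.helper15.NS.bounded hO hK (A := ℕ)
    (Pool.Agent.helper15.NS.nat_lt hO) y
  let S : Set K := {b | ∀ n, y n < b}
  have hne : S.Nonempty := ⟨b, hb⟩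
  obtain ⟨s, hs, hmin⟩ := (wellFounded_lt (α := K)).has_min S hne
  refine ⟨s, hs, fun x hx => ?_⟩
  by_contra hc
  push Not at hc
  exact hmin x (fun n => (hy n.lt_succ_self).trans_le (hc _)) hx

theorem exists_InS (x : K) : ∃ s, x < s ∧ InS s := by
  have h1 : ∀ x : K, ∃ y : K, 2 ^ #(Iio x) ≤ #(Iio y) := by
    intro x
    obtain ⟨y, hy, _⟩ := exists_card_of_lt hK (c := 2 ^ #(Iio x))
      (hO.isStrongLimit.isStrongPrelimit (Pool.Agent.helper15.NS.mk_Iio_lt hO hK x))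
    exact ⟨y, hy.ge⟩
  choose P hP using h1
  obtain ⟨w, hw, _⟩ := exists_card_of_lt hK (c := ℵ₀) hO.1
  let y : ℕ → K := fun n => Nat.rec (max x w) (fun _ z => P z) n
  have hyl : ∀ n, y n < y (n + 1) := fun n => lt_of_card ((cantor _).trans_le (hP (y n)))
  have hy : StrictMono y := strictMono_nat_of_lt_succ hyl
  obtain ⟨s, h2, h3⟩ := exists_sup hO hK hy
  refine ⟨s, (le_max_left x w).trans_lt (h2 0), InS.of_seq ?_ h2 h3 fun n => ⟨n + 1, hP (y n)⟩⟩
  change ℵ₀ ≤ #(Iio (max x w))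
  rw [← hw]
  exact card_mono (le_max_right x w)

theorem exists_omega : ∃ w : K, #(Iio w) = ℵ₀ ∧ ∃ e : ℕ → K, StrictMono e ∧
    ∀ x, x < w ↔ ∃ n, e n = x := by
  have h0 : Ordinal.omega0 < Ordinal.type (fun x y : K => x < y) := by
    rw [hK, ← ord_aleph0]
    exact ord_lt_ord.2 hO.1
  obtain ⟨w, hw⟩ := Ordinal.typein_surj (fun a b : K => a < b) h0
  have hw' : Ordinal.typein (fun a b : K => a < b) w = Ordinal.omega0 := hw
  have h1 : ∀ n : ℕ, ∃ x : K, Ordinal.typein (fun a b : K => a < b) x = n := fun n => by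
    obtain ⟨x, hx⟩ := Ordinal.typein_surj (fun a b : K => a < b)
      ((Ordinal.natCast_lt_omega0 n).trans h0)
    exact ⟨x, hx⟩
  choose e he using h1
  refine ⟨w, ?_, e, fun m n hmn => ?_, fun x => ?_⟩
  · have e1 : (Ordinal.typein (fun a b : K => a < b) w).card = #(Iio w) :=
      Ordinal.card_typein w
    rw [← e1, hw', Ordinal.card_omega0]
  · refine (Ordinal.typein_lt_typein (fun a b : K => a < b)).1 ?_
    rw [he, he]
    exact_mod_cast hmn
  · constructor
    · intro hx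
      have h2 := (Ordinal.typein_lt_typein (fun a b : K => a < b)).2 hx
      rw [hw', Ordinal.lt_omega0] at h2
      obtain ⟨n, hn⟩ := h2
      refine ⟨n, ?_⟩
      refine Ordinal.typein_injective (fun a b : K => a < b) ?_
      rw [he, hn]
    · rintro ⟨n, rfl⟩
      refine (Ordinal.typein_lt_typein (fun a b : K => a < b)).1 ?_
      rw [hw', he]
      exact Ordinal.natCast_lt_omega0 n

omit hO in
/-- A singular strong limit cardinal whose successor has the tree property in the full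
extension. -/
theorem exists_tpv [Inhabited K] (hV : Pool.Agent.helper74.HY.IsVopenka Om) :
    ∃ mu L : K, InS mu ∧ IsSuc mu L ∧ (∀ x < mu, ∃ s < mu, x < s ∧ InS s) ∧ TPV mu L := by
  have hO : Om.IsInaccessible := hV.1
  choose k hk hlf using exists_lf hV hK
  choose σ hσ hσS using exists_InS hO hK
  obtain ⟨w, hw, e, he⟩ := exists_omega hO hK
  let kk : ℕ → K := fun n => Nat.rec (k w) (fun _ z => k (σ z)) n
  have hkl : ∀ n, kk n < kk (n + 1) := fun n => (hσ (kk n)).trans (hk (σ (kk n)))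
  have hkm : StrictMono kk := strictMono_nat_of_lt_succ hkl
  obtain ⟨mu, h1, h2⟩ := exists_sup hO hK hkm
  have hmu : InS mu := by
    refine InS.of_seq (y := fun n => σ (kk n)) ?_ ?_ ?_ fun n => ⟨n + 1, ?_⟩
    · exact (hσS (kk 0)).inf
    · exact fun n => (hk (σ (kk n))).trans (h1 (n + 1))
    · intro x hx
      obtain ⟨n, hn⟩ := h2 x hx
      exact ⟨n, hn.trans (hσ (kk n))⟩
    · exact ((hσS (kk (n + 1))).two ((hk (σ (kk n))).trans (hσ (kk (n + 1))))).le
  obtain ⟨L, hL, hLi⟩ := exists_card_of_lt hK (c := Order.succ #(Iio mu)) (by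
    exact (Order.succ_le_of_lt (cantor _)).trans_lt (hO.isStrongLimit.isStrongPrelimit
      (Pool.Agent.helper15.NS.mk_Iio_lt hO hK mu)))
  have hS : IsSuc mu L := ⟨hL, hLi⟩
  refine ⟨mu, L, hmu, hS, fun x hx => ?_, ?_⟩
  · obtain ⟨n, hn⟩ := h2 x hx
    exact ⟨σ (kk n), (hk (σ (kk n))).trans (h1 (n + 1)), hn.trans (hσ (kk n)), hσS (kk n)⟩
  · refine tpv_of_lf hmu hS hkm h1 (fun x hx => ?_) ⟨e, he⟩ (hk w) fun n => ?_
    · obtain ⟨n, hn⟩ := h2 x hx
      exact ⟨n, hn.le⟩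
    · cases n with
      | zero => exact hlf w mu L hmu hS (h1 0)
      | succ n => exact hlf (σ (kk n)) mu L hmu hS (h1 (n + 1))

end K

end Pool.Agent.helper75.NS
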