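import Pool.Agent.helper75.NS.Stmt

/-!
# Coded trees and coded narrow systems inside a model of ZFC
-/

namespace Pool.Agent.helper75.NS

open Pool.Agent.helper31.ZF

universe u

variable {M : Type u} [ZFModel M]

/-- The set of pairs `R` is a tree on `lam × mu` whose levels are given with repetitions. -/
structure CTree (mu lam R : M) : Prop where
  pred : ∀ a b, a ∈ b → b ∈ lam → ∀ k, k ∈ mu → ∃ i, i ∈ mu ∧ op (op a i) (op b k) ∈ R
  like : ∀ a b c, a ∈ b → b ∈ c → c ∈ lam → ∀ i j k, i ∈ mu → j ∈ mu → k ∈ mu →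
    op (op a i) (op c k) ∈ R → op (op b j) (op c k) ∈ R → op (op a i) (op b j) ∈ R
  trans : ∀ a b c, a ∈ b → b ∈ c → c ∈ lam → ∀ i j k, i ∈ mu → j ∈ mu → k ∈ mu →
    op (op a i) (op b j) ∈ R → op (op b j) (op c k) ∈ R → op (op a i) (op c k) ∈ R

/-- `B` is a cofinal branch of the coded tree `R`. -/
structure CBranch (mu lam R B : M) : Prop where
  tot : ∀ a, a ∈ lam → ∃ i, i ∈ mu ∧ op a i ∈ B
  lt : ∀ a c, a ∈ c → c ∈ lam → ∀ i k, i ∈ mu → k ∈ mu → op a i ∈ B → op c k ∈ B →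
    op (op a i) (op c k) ∈ R

/-- `C` is a coded narrow system without cofinal branch: `op (op a n) (op b n) ∈ C` says that
`(a, n)` is below `(b, n)`. -/
structure CSys (lam C : M) : Prop where
  tot : ∀ a b, a ∈ b → b ∈ lam → ∃ n, n ∈ (om : M) ∧ op (op a n) (op b n) ∈ C
  trans : ∀ a b c, a ∈ b → b ∈ c → c ∈ lam → ∀ n, n ∈ (om : M) →
    op (op a n) (op b n) ∈ C → op (op b n) (op c n) ∈ C → op (op a n) (op c n) ∈ C
  like : ∀ a b c, a ∈ b → b ∈ c → c ∈ lam → ∀ n, n ∈ (om : M) →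
    op (op a n) (op c n) ∈ C → op (op b n) (op c n) ∈ C → op (op a n) (op b n) ∈ C
  nobr : ∀ n, n ∈ (om : M) → ∀ B : M, (∀ x, x ∈ lam → ∃ a, a ∈ B ∧ x ∈ a ∧ a ∈ lam) →
    ¬ ∀ a b, a ∈ b → b ∈ lam → a ∈ B → b ∈ B → op (op a n) (op b n) ∈ C

end Pool.Agent.helper75.NS
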