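import Pool.Agent.helper75.NS.Fusion

/-!
# Deciding many statements by few conditions
-/

namespace Pool.Agent.helper75.NS

open Cardinal Set Fa

section K

variable {K : Type} [LinearOrder K] [WellFoundedLT K] [Inhabited K]

theorem Cd.empty : Cd (∅ : Set (Fa K)) := Cd.mk' (fun _ h => h.elim) (Sp.finite finite_empty)
  fun _ h => h.elim

theorem empty_Dl (L : K) : (∅ : Set (Fa K)) ∈ Dl L := ⟨Cd.empty, fun _ h => h.elim⟩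

theorem Dl.le {b L : K} {u : Set (Fa K)} (hu : u ∈ Dl L) : NS.le b u ∈ Dl b :=
  ⟨hu.1.le b, fun _ hf => hf.2⟩

theorem Dl.mono {b L : K} (h : b ≤ L) {u : Set (Fa K)} (hu : u ∈ Dl b) : u ∈ Dl L :=
  ⟨hu.1, fun f hf => (hu.2 f hf).trans h⟩

theorem Dl.union {L : K} {u r : Set (Fa K)} (h : Cd (u ∪ r)) (hu : u ∈ Dl L) (hr : r ∈ Dl L) :
    u ∪ r ∈ Dl L := ⟨h, by
  rintro f (hf | hf)
  · exact hu.2 f hf
  · exact hr.2 f hf⟩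

/-- A recorded condition is compatible. -/
theorem Dl.union_rec {b L : K} {u r : Set (Fa K)} (hu : u ∈ Dl L) (hr : r ∈ Dl L)
    (h1 : sh b r ⊆ u) (h2 : NS.le b u ⊆ r) : u ∪ NS.le b r ∈ Dl L ∧ u ∪ r ∈ Dl L := by
  have h3 : Cd (u ∪ NS.le b r) := hu.1.union_le (hr.1.le b) (fun f hf => hf.2)
    fun f hf => ⟨h2 hf, hf.2⟩
  have h4 : Cd (u ∪ r) := by
    have h5 := h3.union_sh hr.1 (h1.trans subset_union_left) subset_union_right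
    rwa [union_assoc, union_eq_right.2 (le_sub (ν := b) (p := r))] at h5
  exact ⟨⟨h3, by
    rintro f (hf | hf)
    · exact hu.2 f hf
    · exact hr.2 f hf.1⟩, Dl.union h4 hu hr⟩

theorem QU_congr {Θ : Type} {p : Set (Fa K)} {bt : Θ → K} {r r' : Θ → Set (Fa K)} {U : Set Θ}
    (h : ∀ t ∈ U, r t = r' t) : QU p bt r U = QU p bt r' U := by
  unfold QU
  congr 1
  refine iUnion₂_congr fun t ht => ?_
  rw [h t ht]

theorem decide_all {Θ0 : Type} (bt : Θ0 → K) (hb : ∀ t, Gd (bt t))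
    (hfew : Few bt) (L : K) (E : Θ0 → Set (Set (Fa K))) {p : Set (Fa K)} (hp : p ∈ Dl L) :
    ∃ q ∈ Dl L, p ⊆ q ∧ (∀ f ∈ q, f ∈ p ∨ ∃ t, bt t < f.st) ∧
      ∃ Rec : Θ0 → Set (Set (Fa K)), (∀ t, #(Rec t) ≤ #(Dl (bt t))) ∧
        (∀ t, ∀ r ∈ Rec t, r ∈ E t ∧ r ∈ Dl L ∧ p ⊆ r ∧ sh (bt t) r ⊆ q) ∧
        ∀ t, ∀ u ∈ Dl L, q ⊆ u → (∃ r ∈ E t, r ∈ Dl L ∧ u ⊆ r) →
          ∃ r ∈ Rec t, NS.le (bt t) u ⊆ r ∧ u ∪ NS.le (bt t) r ∈ Dl L ∧ u ∪ r ∈ Dl L := by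
  let Θ : Type := {s : Θ0 × Set (Fa K) // s.2 ∈ Dl (bt s.1)}
  obtain ⟨_, hwf⟩ := exists_wellFoundedLT Θ
  let bt' : Θ → K := fun s => bt s.1.1
  have hfew' : Few bt' := by
    intro r hr
    have h1 : {t : Θ | ∃ ν : K, InA ν ∧ bt' t < ν ∧ ν ≤ r} ⊆
        ⋃ t ∈ {t : Θ0 | ∃ ν : K, InA ν ∧ bt t < ν ∧ ν ≤ r}, {s : Θ | s.1.1 = t} := by
      intro t ht
      exact mem_iUnion₂.2 ⟨t.1.1, ht, rfl⟩
    refine sm_mono h1 (sm_biUnion hr.reg (hfew r hr) fun t ht => ?_)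
    have h2 : #{s : Θ | s.1.1 = t} ≤ #(Dl (bt t)) := by
      refine mk_le_of_injective (f := fun s => ⟨s.1.1.2, by
        have h3 := s.1.2
        have h4 : s.1.1.1 = t := s.2
        rwa [h4] at h3⟩) ?_
      rintro ⟨⟨⟨a, x⟩, h3⟩, h4⟩ ⟨⟨⟨a', x'⟩, h3'⟩, h4'⟩ h
      simp only [Subtype.mk.injEq] at h
      have h5 : a = t := h4
      have h6 : a' = t := h4'
      subst h h5 h6
      rfl
    refine h2.trans_lt (lt_of_le_of_lt ?_ ((hb t).card ht))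
    rw [mk_prod, lift_id, lift_id]
    exact le_mul_of_one_le_left zero_le (one_lt_aleph0.le.trans (hb t).1)
  let QQ : Θ → (Θ → Set (Fa K) × Unit) → Set (Fa K) := fun t d =>
    QU p bt' (fun x => (d x).1) (Iio t)
  let T : Θ → (Θ → Set (Fa K) × Unit) → Set (Fa K) × Unit → Prop := fun t d a =>
    a.1 ∈ Dl L ∧ (a.1 = ∅ ∨ QQ t d ⊆ a.1) ∧
      ((∃ r ∈ E t.1.1, r ∈ Dl L ∧ QQ t d ⊆ r ∧ t.1.2 ⊆ r) →
        a.1 ∈ E t.1.1 ∧ QQ t d ⊆ a.1 ∧ t.1.2 ⊆ a.1)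
  have hQQ : ∀ t d d', (∀ x < t, d x = d' x) → QQ t d = QQ t d' := fun t d d' h =>
    QU_congr fun x hx => by rw [h x hx]
  obtain ⟨d, hd, hdQ, hdU⟩ := fusion bt' hfew' hp.1 T (fun t d d' a h hT => by
    simp only [T] at hT ⊢
    rwa [← hQQ t d d' h]) (fun t d a hT => ⟨hT.1.1, hT.2.1⟩) (fun t d _ _ => by
    by_cases hex : ∃ r ∈ E t.1.1, r ∈ Dl L ∧ QQ t d ⊆ r ∧ t.1.2 ⊆ r
    · obtain ⟨r, h1, h2, h3, h4⟩ := hex
      exact ⟨(r, ()), h2, Or.inr h3, fun _ => ⟨h1, h3, h4⟩⟩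
    · exact ⟨(∅, ()), empty_Dl L, Or.inl rfl, fun h => absurd h hex⟩)
  let q := QU p bt' (fun x => (d x).1) univ
  have hqs : ∀ f ∈ q, f ∈ p ∨ ∃ t, f ∈ sh (bt' t) (d t).1 := by
    rintro f (hf | hf)
    · exact Or.inl hf
    · obtain ⟨t, _, hf⟩ := mem_iUnion₂.1 hf
      exact Or.inr ⟨t, hf⟩
  have hqL : q ∈ Dl L := by
    refine ⟨hdU, fun f hf => ?_⟩
    rcases hqs f hf with hf | ⟨t, hf⟩
    · exact hp.2 f hf
    · obtain ⟨g, hg, e⟩ := sh_st' hf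
      rw [← e]
      exact (hd t).1.2 g hg
  refine ⟨q, hqL, sub_QU, fun f hf => ?_, fun t => {r | ∃ x : Dl (bt t), ∃ h : x.1 ∈ Dl (bt t),
    r = (d ⟨(t, x.1), h⟩).1 ∧ r ∈ E t ∧ p ⊆ r}, fun t => ?_, fun t r hr => ?_,
    fun t u hu hqu hex => ?_⟩
  · rcases hqs f hf with hf | ⟨t, hf⟩
    · exact Or.inl hf
    · exact Or.inr ⟨t.1.1, sh_st hf⟩
  · have h1 : {r | ∃ x : Dl (bt t), ∃ h : x.1 ∈ Dl (bt t), r = (d ⟨(t, x.1), h⟩).1 ∧ r ∈ E t ∧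
        p ⊆ r} ⊆ range fun x : Dl (bt t) => (d ⟨(t, x.1), x.2⟩).1 := by
      rintro r ⟨x, h, rfl, _⟩
      exact ⟨x, rfl⟩
    exact (mk_le_mk_of_subset h1).trans mk_range_le
  · obtain ⟨x, h, rfl, h1, h2⟩ := hr
    exact ⟨h1, (hd _).1, h2, sh_sub_QU (bt := bt') (r := fun x => (d x).1)
      (mem_univ (⟨(t, x.1), h⟩ : Θ))⟩
  · obtain ⟨r0, h1, h2, h3⟩ := hex
    let θ : Θ := ⟨(t, NS.le (bt t) u), Dl.le hu⟩
    have hQ : QQ θ d ⊆ u := (QU_mono (subset_univ _)).trans hqu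
    obtain ⟨h4, h5, h6⟩ := (hd θ).2.2 ⟨r0, h1, h2, hQ.trans h3, le_sub.trans h3⟩
    have h7 : sh (bt t) (d θ).1 ⊆ u :=
      (sh_sub_QU (bt := bt') (r := fun x => (d x).1) (mem_univ θ)).trans hqu
    obtain ⟨h8, h9⟩ := Dl.union_rec hu (hd θ).1 h7 h6
    exact ⟨(d θ).1, ⟨⟨_, Dl.le hu⟩, Dl.le hu, rfl, h4, sub_QU.trans h5⟩, h6, h8, h9⟩

theorem InS.exists_bt {s : K} (hs : InS s) : ∃ bt : K → K, (∀ i < s, i < bt i ∧ bt i < s ∧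
    Gd (bt i)) ∧ (bt '' Iio s).Countable := by
  obtain ⟨f, hf, hf'⟩ := hs.cof
  choose g hg using fun n => hs.exists_gd (hf n)
  have h1 : ∀ i : K, ∃ n, i < s → i < f n := by
    intro i
    by_cases hi : i < s
    · obtain ⟨n, hn⟩ := hf' i hi
      exact ⟨n, fun _ => hn⟩
    · exact ⟨0, fun h => absurd h hi⟩
  choose n hn using h1
  refine ⟨fun i => g (n i), fun i hi => ⟨(hn i hi).trans (hg _).2.1, (hg _).1, (hg _).2.2⟩, ?_⟩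
  refine (countable_range g).mono ?_
  rintro _ ⟨i, _, rfl⟩
  exact mem_range_self _

/-- Few levels. -/
theorem few_of_lt {s : K} {bt : K → K} (h : ∀ i < s, i < bt i ∧ bt i < s ∧ Gd (bt i))
    (hc : (bt '' Iio s).Countable) : Few (fun i : Iio s => bt i) := by
  intro r hr
  have h1 : {t : Iio s | ∃ ν : K, InA ν ∧ bt t < ν ∧ ν ≤ r} ⊆
      ⋃ b ∈ {b | b ∈ bt '' Iio s ∧ #(Iio b) < #(Iio r)}, {t : Iio s | (t : K) < b} := by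
    rintro t ⟨ν, h1, h2, h3⟩
    exact mem_iUnion₂.2 ⟨bt t, ⟨mem_image_of_mem _ t.2, (h1.reg.ini _ h2).trans_le
      (card_mono h3)⟩, (h t t.2).1⟩
  refine sm_mono h1 (sm_biUnion hr.reg ?_ ?_)
  · exact (le_aleph0_iff_set_countable.2 (hc.mono fun b hb => hb.1)).trans_lt hr.unc
  · rintro b ⟨_, hb⟩
    refine lt_of_le_of_lt ?_ hb
    refine mk_le_of_injective (f := fun t : {t : Iio s | (t : K) < b} =>
      (⟨t.1.1, t.2⟩ : Iio b)) ?_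
    intro a a' h
    exact Subtype.ext (Subtype.ext (congrArg (fun z : Iio b => (z : K)) h))

/-- Deciding `s` many statements, `s ∈ S`. -/
theorem decide_S {s L : K} (hs : InS s) (E : K → Set (Set (Fa K))) {p : Set (Fa K)}
    (hp : p ∈ Dl L) (hE : ∀ i < s, ∀ u ∈ Dl L, p ⊆ u → ∃ r ∈ E i, r ∈ Dl L ∧ u ⊆ r) :
    ∃ q ∈ Dl L, p ⊆ q ∧ ∃ Rec : K → Set (Set (Fa K)), (∀ i < s, #(Rec i) < #(Iio s)) ∧
      (∀ i < s, ∀ r ∈ Rec i, r ∈ E i ∧ r ∈ Dl L ∧ p ⊆ r ∧ ∃ b < s, sh b r ⊆ q) ∧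
      ∀ i < s, ∀ u ∈ Dl L, q ⊆ u → ∃ r ∈ Rec i, u ∪ r ∈ Dl L := by
  classical
  obtain ⟨bt, h1, h2⟩ := hs.exists_bt
  obtain ⟨q, hq, hpq, _, Rec, h3, h4, h5⟩ := decide_all (fun i : Iio s => bt i)
    (fun t => (h1 t t.2).2.2) (few_of_lt h1 h2) L (fun i : Iio s => E i) hp
  refine ⟨q, hq, hpq, fun i => if h : i < s then Rec ⟨i, h⟩ else ∅, fun i hi => ?_,
    fun i hi r hr => ?_, fun i hi u hu hqu => ?_⟩
  · simp only [hi, dite_true]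
    refine (h3 _).trans_lt ?_
    exact (card_Dl (h1 i hi).2.2.1 _ le_rfl).trans_lt (hs.two_two (hs.ini _ (h1 i hi).2.1))
  · simp only [hi, dite_true] at hr
    obtain ⟨h6, h7, h8, h9⟩ := h4 _ r hr
    exact ⟨h6, h7, h8, bt i, (h1 i hi).2.1, h9⟩
  · obtain ⟨r, h6, _, _, h7⟩ := h5 ⟨i, hi⟩ u hu hqu (hE i hi u hu (hpq.trans hqu))
    refine ⟨r, ?_, h7⟩
    simp only [hi, dite_true]
    exact h6

end K

end Pool.Agent.helper75.NS
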