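import Pool.Agent.helper75.NS.Tasks
import Pool.Agent.helper28.NS.Int

/-!
# The generic model: choice and cardinals
-/

namespace Pool.Agent.helper75.NS

open Pool.Agent.helper31.ZF Pool.Agent.helper74.Forc Pool.Agent.helper28.NSI

theorem prN_inj {P : Type} {x y x' y' : Nm P} (h : prN x y = prN x' y') : x = x' ∧ y = y' := by
  unfold prN at h
  have h1 := eq_of_heq (Nm.mk.inj h).2.1
  exact ⟨congrFun h1 true, congrFun h1 false⟩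

theorem opN_inj {P : Type} {x y x' y' : Nm P} (h : opN x y = opN x' y') : x = x' ∧ y = y' := by
  obtain ⟨h1, h2⟩ := prN_inj h
  exact ⟨(prN_inj h1).1, (prN_inj h2).2⟩

/-- Two outputs. -/
def two {P : Type} (x y : Nm P) : ℕ → Nm P
  | 0 => x
  | _ => y

theorem hs_two {G P : Type} [Group G] [Preorder P] [MulAction G P] [SymSys G P] {x y : Nm P}
    (hx : HS G x) (hy : HS G y) (n : ℕ) : HS G (two x y n) := by
  cases n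
  · exact hx
  · exact hy

section model

variable {K G P : Type} [LinearOrder K] [WellFoundedLT K] [Group G] [Preorder P] [MulAction G P]
  [TopSys G P] {D : GD K P} {Γ : Gen G P}

theorem inHS {x : Nm P} (h : Γ.In x) : HS G x := by
  obtain ⟨a, rfl⟩ := h
  exact (Γ.h a).2

theorem exists_In' (m : Γ.Mod) : ∃ x, Γ.In x ∧ m = Γ.of x := by
  obtain ⟨x, h1, _, h2⟩ := Gen.exists_of m
  exact ⟨x, h1, h2.symm⟩

/-- Elements of an arbitrary name. -/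
theorem E_el {x : Nm P} (hx : Γ.In x) {z : Γ.Mod} : Γ.E z (Γ.of x) ↔
    ∃ i : x.ix, Γ.In (x.el i) ∧ z = Γ.of (x.el i) ∧ ∃ k, Dw x.wt i (Γ.g k) := by
  cases x
  exact Gen.E_mk hx

namespace FullM

variable (hΓ : FullM D Γ)

include hΓ

/-- A query that can always be answered is answered. -/
theorem cl (t : TI) (x y z : Nm P) (hx : Γ.In x) (hy : Γ.In y) (hz : Γ.In z) (C : ℕ → Nm P)
    (hC : ∀ i, HS G (C i)) (h : ∀ p, QQ G D t x y z C p) :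
    ∃ k, ∃ C : ℕ → Nm P, (∀ i, Γ.In (C i)) ∧ QQ G D t x y z C (Γ.g k) := by
  rcases hΓ.ev t x y z hx hy hz with h1 | ⟨k, h1⟩
  · exact h1
  · exact absurd (h _) (h1 (Γ.g k) le_rfl C hC)

theorem prIn {x y : Nm P} (hx : Γ.In x) (hy : Γ.In y) : Γ.In (prN x y) := by
  obtain ⟨_, C, hC, h1⟩ := hΓ.cl .pr x y x hx hy hx (fun _ => prN x y)
    (fun _ => hs_prN (inHS hx) (inHS hy)) fun _ => rfl
  have h2 : C 0 = prN x y := h1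
  rw [← h2]
  exact hC 0

theorem opIn {x y : Nm P} (hx : Γ.In x) (hy : Γ.In y) : Γ.In (opN x y) :=
  hΓ.prIn (hΓ.prIn hx hx) (hΓ.prIn hx hy)

theorem unop {x y : Nm P} (h : Γ.In (opN x y)) : Γ.In x ∧ Γ.In y := by
  have h0 : HS G x := ((inHS h).el true).el true
  have h0' : HS G y := ((inHS h).el false).el false
  obtain ⟨_, C, hC, h1⟩ := hΓ.cl .unop (opN x y) (opN x y) (opN x y) h h h
    (two x y) (hs_two h0 h0') fun _ => rfl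
  have h2 : opN x y = opN (C 0) (C 1) := h1
  obtain ⟨h3, h4⟩ := opN_inj h2
  rw [h3, h4]
  exact ⟨hC 0, hC 1⟩

variable [hF : Fact Γ.HasOm]

theorem ofOp {x y : Nm P} (hx : Γ.In x) (hy : Γ.In y) :
    Γ.of (opN x y) = op (Γ.of x) (Γ.of y) :=
  Gen.of_opN (hΓ.opIn hx hy) (hΓ.prIn hx hx) (hΓ.prIn hx hy) hx hy

omit hΓ in
theorem mem_of {x y : Nm P} (hx : Γ.In x) (hy : Γ.In y) :
    Γ.of x ∈ Γ.of y ↔ ∃ k, fmem x y (Γ.g k) := Gen.E_of hx hy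

theorem op_mem {x y f : Nm P} (hx : Γ.In x) (hy : Γ.In y) (hf : Γ.In f) :
    op (Γ.of x) (Γ.of y) ∈ Γ.of f ↔ ∃ k, fmem (opN x y) f (Γ.g k) := by
  rw [← hΓ.ofOp hx hy]
  exact Gen.E_of (hΓ.opIn hx hy) hf

/-! ### choice -/

omit hF in
theorem ckX_In {x : Nm P} (hx : Γ.In x) {i : x.ix} (h : Γ.In (ckX x i)) : Γ.In (x.el i) := by
  obtain ⟨k, C, hC, j, h1, h2⟩ := hΓ.cl .acB x (ckX x i) x hx h hx (fun _ => x.el i)
    (fun _ => (inHS hx).el i) fun _ => ⟨i, rfl, rfl⟩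
  let _ := ixo x.ix
  have _ := ixw x.ix
  have _ : Nonempty P := ⟨Γ.g 0⟩
  have h3 : i = j := ck_inj (P := P) h1
  rw [h3, ← h2]
  exact hC 0

theorem ac_of : AC Γ.Mod := by
  refine ac_of_cover fun X => ?_
  obtain ⟨x, hx, rfl⟩ := exists_In' X
  obtain ⟨_, C, hC, h1, h2⟩ := hΓ.cl .acA x x x hx hx hx
    (two (thN x) (acN x)) (hs_two (hs_thN x) (hs_acN (inHS hx))) fun _ => ⟨rfl, rfl⟩
  have ht : Γ.In (thN x) := h1 ▸ hC 0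
  have hf : Γ.In (acN x) := h2 ▸ hC 1
  let io := ixo x.ix
  have iw := ixw x.ix
  have mt : ∀ z : Γ.Mod, z ∈ Γ.of (thN x) ↔ ∃ i, Γ.In (ckX x i) ∧ z = Γ.of (ckX x i) :=
    fun z => mem_ordN ht
  have mf : ∀ z : Γ.Mod, z ∈ Γ.of (acN x) ↔ ∃ i, Γ.In (ckX x i) ∧
      z = op (Γ.of (ckX x i)) (Γ.of (x.el i)) := by
    intro z
    have h3 : z ∈ Γ.of (acN x) ↔ _ := Gen.E_mk hf
    rw [h3]
    constructor
    · rintro ⟨i, h4, rfl, _⟩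
      obtain ⟨h5, h6⟩ := hΓ.unop h4
      exact ⟨i, h5, hΓ.ofOp h5 h6⟩
    · rintro ⟨i, h4, rfl⟩
      have h5 := hΓ.ckX_In hx h4
      exact ⟨i, hΓ.opIn h4 h5, (hΓ.ofOp h4 h5).symm, 0, dw_true _ _⟩
  have hfd : IsFD (Γ.of (acN x)) (Γ.of (thN x)) := by
    refine ⟨fun z hz => ?_, fun z hz => ?_⟩
    · obtain ⟨i, h3, rfl⟩ := (mf z).1 hz
      exact ⟨_, (mt _).2 ⟨i, h3, rfl⟩, _, rfl⟩
    · obtain ⟨i, h3, rfl⟩ := (mt z).1 hz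
      refine ⟨Γ.of (x.el i), (mf _).2 ⟨i, h3, rfl⟩, fun y hy => ?_⟩
      obtain ⟨j, h4, h5⟩ := (mf _).1 hy
      rw [op_inj] at h5
      have h6 : i = j := (of_ck_inj (A := x.ix) h3 h4).1 h5.1
      rw [h5.2, h6]
  refine ⟨Γ.of (thN x), Γ.of (acN x), ord_ordN ht, hfd, fun y hy => ?_⟩
  obtain ⟨i, h3, rfl, _⟩ := (E_el hx).1 hy
  obtain ⟨_, C, hC, j, h4, h5⟩ := hΓ.cl .acC x (x.el i) x hx h3 hx (fun _ => ckX x i)
    (fun _ => hs_ckX x i) fun _ => ⟨i, rfl, rfl⟩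
  have h6 : Γ.In (ckX x j) := h5 ▸ hC 0
  refine ⟨Γ.of (ckX x j), (mt _).2 ⟨j, h6, rfl⟩, ?_⟩
  rw [h4]
  exact hfd.ap_eq ((mf _).2 ⟨j, h6, rfl⟩)

/-! ### cardinals -/

theorem bdM {v r : K} (hv : Γ.In (ck P v)) (hr : Γ.In (ck P r)) (hvr : v < r) (hb : Bd P r)
    (F : Γ.Mod) : ∃ c, c ∈ Γ.of (ck P r) ∧ ∀ z, z ∈ Γ.of (ck P v) →
      (∃ c', c' ∈ c ∧ op z c' ∈ F) ∨ ∀ c', c' ∈ Γ.of (ck P r) → op z c' ∉ F := by
  have hne : Nonempty P := ⟨Γ.g 0⟩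
  obtain ⟨f, hf, rfl⟩ := exists_In' F
  rcases hΓ.ev .bd f (ck P v) (ck P r) hf hv hr with
    ⟨k, C, hC, v', r', _, h2, h3, c, hcr, h4, h5⟩ | ⟨k, h1⟩
  · obtain rfl := ck_inj h2
    obtain rfl := ck_inj h3
    have hc : Γ.In (ck P c) := h4 ▸ hC 0
    refine ⟨Γ.of (ck P c), (of_ck_mem hc hr).2 hcr, fun z hz => ?_⟩
    obtain ⟨i, hi, hiIn, rfl⟩ := (mem_ck hv).1 hz
    rcases hΓ.ev .wt f (ck P i) (ck P c) hf hiIn hc with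
      ⟨m, C', hC', c1, h6, c', h7, h8, h9⟩ | ⟨m, h6⟩
    · obtain rfl := ck_inj h6
      have hc' : Γ.In (ck P c') := h8 ▸ hC' 0
      exact Or.inl ⟨_, (of_ck_mem hc' hc).2 h7, (hΓ.op_mem hiIn hc' hf).2 ⟨m, h9⟩⟩
    · refine Or.inr fun c' hc' hmem => ?_
      obtain ⟨d, hd, hdIn, rfl⟩ := (mem_ck hr).1 hc'
      obtain ⟨l, hl⟩ := (hΓ.op_mem hiIn hdIn hf).1 hmem
      obtain ⟨t, ht, h7 | h7⟩ := h5 i hi (Γ.g (max k (max m l))) (Γ.anti (le_max_left _ _))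
      · obtain ⟨c', hc', h8⟩ := h7
        refine h6 t (ht.trans (Γ.anti ((le_max_left m l).trans (le_max_right _ _))))
          (fun _ => ck P c') (fun _ => hs_ck _) ⟨c, rfl, c', hc', rfl, h8⟩
      · refine h7 t le_rfl d hd (hl.mono (ht.trans (Γ.anti ?_)))
        exact (le_max_right m l).trans (le_max_right _ _)
  · exfalso
    obtain ⟨q, hq, c, hc, h2⟩ := hb v hvr (fun i c p => fmem (opN (ck P i) (ck P c)) f p ∨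
        ∀ u ≤ p, ∀ c' < r, ¬ fmem (opN (ck P i) (ck P c')) f u) (fun i c p q hq h => by
        rcases h with h | h
        · exact Or.inl (h.mono hq)
        · exact Or.inr fun u hu => h u (hu.trans hq)) (Γ.g k) (fun i hi q _ => by
        by_cases hex : ∃ u ≤ q, ∃ c' < r, fmem (opN (ck P i) (ck P c')) f u
        · obtain ⟨u, hu, c', hc', h3⟩ := hex
          exact ⟨u, hu, c', hc', Or.inl h3⟩
        · push Not at hex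
          exact ⟨q, le_rfl, v, hvr, Or.inr hex⟩)
    refine h1 q hq (fun _ => ck P c) (fun _ => hs_ck _) ⟨v, r, hvr, rfl, rfl, c, hc, rfl,
      fun i hi s hs => ?_⟩
    obtain ⟨t, ht, c', hc', h3 | h3⟩ := h2 i hi s hs
    · exact ⟨t, ht, Or.inl ⟨c', hc', h3⟩⟩
    · exact ⟨t, ht, Or.inr h3⟩

theorem cardM {θ : K} (hθ : Γ.In (ck P θ))
    (h : ∀ v < θ, Γ.In (ck P v) → ∃ r ≤ θ, v < r ∧ Γ.In (ck P r) ∧ Bd P r) :
    IsCard (Γ.of (ck P θ)) := by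
  refine ⟨ord_ck hθ, fun y hy f hf => ?_⟩
  obtain ⟨v, hv, hvIn, rfl⟩ := (mem_ck hθ).1 hy
  obtain ⟨r, hrθ, hvr, hrIn, hb⟩ := h v hv hvIn
  obtain ⟨c, hc, h1⟩ := hΓ.bdM hvIn hrIn hvr hb f
  have hcθ : c ∈ Γ.of (ck P θ) := by
    obtain ⟨d, hd, hdIn, rfl⟩ := (mem_ck hrIn).1 hc
    exact (of_ck_mem hdIn hθ).2 (hd.trans_le hrθ)
  obtain ⟨z, hz, rfl⟩ := hf.2 c hcθ
  have hfd := hf.1.1.1
  rcases h1 z hz with ⟨c', h2, h3⟩ | h2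
  · rw [hfd.ap_eq h3] at h2
    exact not_mem_self _ h2
  · exact h2 _ hc (hfd.op_ap hz)

theorem N_e (hD : D.Ok G) (n : ℕ) : Γ.N n = Γ.of (ck P (D.e n)) := by
  induction n using Nat.strong_induction_on with
  | _ n ih =>
    refine ext fun z => ?_
    rw [mem_ck (hΓ.e n)]
    have h1 : z ∈ Γ.N n ↔ ∃ k < n, z = Γ.N k := Gen.E_N hF.out
    rw [h1]
    constructor
    · rintro ⟨k, hk, rfl⟩
      exact ⟨D.e k, hD.e_mono hk, hΓ.e k, ih k hk⟩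
    · rintro ⟨y, hy, hyIn, rfl⟩
      obtain ⟨k, rfl⟩ := (hD.e_w y).1 (hy.trans ((hD.e_w _).2 ⟨n, rfl⟩))
      have hk : k < n := hD.e_mono.lt_iff_lt.1 hy
      exact ⟨k, hk, (ih k hk).symm⟩

theorem om_eq (hD : D.Ok G) : (om : Γ.Mod) = Γ.of (ck P D.w) := by
  refine ext fun z => ?_
  rw [mem_ck hΓ.w, Gen.mem_om']
  constructor
  · rintro ⟨n, rfl⟩
    exact ⟨D.e n, (hD.e_w _).2 ⟨n, rfl⟩, hΓ.e n, hΓ.N_e hD n⟩
  · rintro ⟨y, hy, _, rfl⟩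
    obtain ⟨n, rfl⟩ := (hD.e_w y).1 hy
    exact ⟨n, (hΓ.N_e hD n).symm⟩

omit hF in
theorem rrIn {a : K} (ha : Γ.In (ck P a)) : Γ.In (ck P (D.RR a)) := by
  have hne : Nonempty P := ⟨Γ.g 0⟩
  obtain ⟨_, C, hC, b, h1, h2⟩ := hΓ.cl .rr (ck P a) (ck P a) (ck P a) ha ha ha
    (fun _ => ck P (D.RR a)) (fun _ => hs_ck _) fun _ => ⟨a, rfl, rfl⟩
  obtain rfl := ck_inj h1
  exact h2 ▸ hC 0

theorem card_mu (hD : D.Ok G) : IsCard (Γ.of (ck P D.mu)) := by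
  refine hΓ.cardM hΓ.mu fun v hv hvIn => ?_
  obtain ⟨h1, h2, h3⟩ := hD.rr v hv
  exact ⟨_, h1.le, h2, hΓ.rrIn hvIn, h3⟩

theorem card_lam (hD : D.Ok G) : IsCard (Γ.of (ck P D.lam)) :=
  hΓ.cardM hΓ.lam fun _ hv _ => ⟨_, le_rfl, hv, hΓ.lam, hD.bd_lam⟩

theorem sing (hD : D.Ok G) : IsSingular (Γ.of (ck P D.mu)) := by
  have hmem : ∀ z : Γ.Mod, z ∈ Γ.of (Gen.seqN fun n => ck P (D.f n)) ↔
      ∃ n, z = op (Γ.N n) (Γ.of (ck P (D.f n))) := by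
    intro z
    have h3 : z ∈ Γ.of (Gen.seqN fun n => ck P (D.f n)) ↔
        ∃ n, z = Γ.of (opN (nn P n) (ck P (D.f n))) :=
      Gen.mem_mk_true hΓ.cof fun n => hΓ.opIn (hF.out.nn n) (hΓ.f n)
    rw [h3]
    refine exists_congr fun n => ?_
    rw [hΓ.ofOp (hF.out.nn n) (hΓ.f n)]
    rfl
  have hfd : IsFD (Γ.of (Gen.seqN fun n => ck P (D.f n))) (om : Γ.Mod) := by
    refine ⟨fun z hz => ?_, fun x hx => ?_⟩
    · obtain ⟨n, rfl⟩ := (hmem z).1 hz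
      exact ⟨_, Gen.mem_om'.2 ⟨n, rfl⟩, _, rfl⟩
    · obtain ⟨n, rfl⟩ := Gen.mem_om'.1 hx
      refine ⟨Γ.of (ck P (D.f n)), (hmem _).2 ⟨n, rfl⟩, fun y hy => ?_⟩
      obtain ⟨m, hm⟩ := (hmem _).1 hy
      rw [op_inj, Gen.N_inj'] at hm
      rw [hm.2, hm.1]
  have hap : ∀ n, ap (Γ.of (Gen.seqN fun n => ck P (D.f n))) (Γ.N n) =
      Γ.of (ck P (D.f n)) := fun n => hfd.ap_eq ((hmem _).2 ⟨n, rfl⟩)
  have hom : (om : Γ.Mod) ∈ Γ.of (ck P D.mu) := by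
    rw [hΓ.om_eq hD]
    exact (of_ck_mem hΓ.w hΓ.mu).2 hD.w_mu
  refine ⟨hΓ.card_mu hD, (ord_ck hΓ.mu).1 _ hom, om, hom,
    Γ.of (Gen.seqN fun n => ck P (D.f n)), ⟨hfd, fun x hx => ?_⟩, fun x hx => ?_⟩
  · obtain ⟨n, rfl⟩ := Gen.mem_om'.1 hx
    rw [hap]
    exact (of_ck_mem (hΓ.f n) hΓ.mu).2 (hD.f_mu n)
  · obtain ⟨y, hy, hyIn, rfl⟩ := (mem_ck hΓ.mu).1 hx
    obtain ⟨n, hn⟩ := hD.f_cof y hy
    refine ⟨Γ.N n, Gen.mem_om'.2 ⟨n, rfl⟩, ?_⟩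
    rw [hap]
    exact (of_ck_mem hyIn (hΓ.f n)).2 hn

omit hF in
theorem bjIn {a x : K} (ha : Γ.In (ck P a)) (hx : Γ.In (ck P x)) :
    Γ.In (ck P (D.BF a x)) ∧ Γ.In (ck P (D.BI a x)) := by
  have hne : Nonempty P := ⟨Γ.g 0⟩
  obtain ⟨_, C, hC, b, y, h1, h2, h3, h4⟩ := hΓ.cl .bjB (ck P a) (ck P x) (ck P a) ha hx ha
    (two (ck P (D.BF a x)) (ck P (D.BI a x))) (hs_two (hs_ck _) (hs_ck _))
    fun _ => ⟨a, x, rfl, rfl, rfl, rfl⟩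
  obtain rfl := ck_inj h1
  obtain rfl := ck_inj h2
  exact ⟨h3 ▸ hC 0, h4 ▸ hC 1⟩

theorem succ_lam (hD : D.Ok G) : IsSuccCard (Γ.of (ck P D.mu)) (Γ.of (ck P D.lam)) := by
  have hne : Nonempty P := ⟨Γ.g 0⟩
  refine ⟨hΓ.card_mu hD, hΓ.card_lam hD, (of_ck_mem hΓ.mu hΓ.lam).2 hD.mu_lam,
    fun k hk hkl => ?_⟩
  obtain ⟨a, hal, haIn, rfl⟩ := (mem_ck hΓ.lam).1 hkl
  rcases lt_trichotomy a D.mu with h1 | h1 | h1
  · exact Or.inl ((of_ck_mem haIn hΓ.mu).2 h1)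
  · exact Or.inr (by rw [h1])
  · exfalso
    obtain ⟨_, C, hC, b, h2, h3⟩ := hΓ.cl .bjA (ck P a) (ck P a) (ck P a) haIn haIn haIn
      (fun _ => fnN P (D.BF a) D.mu) (fun _ => hs_fnN _ _) fun _ => ⟨a, rfl, rfl⟩
    obtain rfl := ck_inj h2
    have hf : Γ.In (fnN P (D.BF a) D.mu) := h3 ▸ hC 0
    have mf : ∀ z : Γ.Mod, z ∈ Γ.of (fnN P (D.BF a) D.mu) ↔ ∃ x < D.mu, Γ.In (ck P x) ∧
        z = op (Γ.of (ck P x)) (Γ.of (ck P (D.BF a x))) := by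
      intro z
      have h4 : z ∈ Γ.of (fnN P (D.BF a) D.mu) ↔ _ := Gen.E_mk hf
      rw [h4]
      constructor
      · rintro ⟨⟨x, hx⟩, h5, rfl, _⟩
        obtain ⟨h6, h7⟩ := hΓ.unop h5
        exact ⟨x, hx, h6, hΓ.ofOp h6 h7⟩
      · rintro ⟨x, hx, h5, rfl⟩
        have h6 := (hΓ.bjIn haIn h5).1
        exact ⟨⟨x, hx⟩, hΓ.opIn h5 h6, (hΓ.ofOp h5 h6).symm, 0, dw_true _ _⟩
    have hfd : IsFD (Γ.of (fnN P (D.BF a) D.mu)) (Γ.of (ck P D.mu)) := by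
      refine ⟨fun z hz => ?_, fun z hz => ?_⟩
      · obtain ⟨x, h5, h6, rfl⟩ := (mf z).1 hz
        exact ⟨_, (of_ck_mem h6 hΓ.mu).2 h5, _, rfl⟩
      · obtain ⟨x, h5, h6, rfl⟩ := (mem_ck hΓ.mu).1 hz
        refine ⟨Γ.of (ck P (D.BF a x)), (mf _).2 ⟨x, h5, h6, rfl⟩, fun y hy => ?_⟩
        obtain ⟨x', h7, h8, h9⟩ := (mf _).1 hy
        rw [op_inj, of_ck_inj h6 h8] at h9
        rw [h9.2, h9.1]
    have hap : ∀ x < D.mu, Γ.In (ck P x) → ap (Γ.of (fnN P (D.BF a) D.mu)) (Γ.of (ck P x)) =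
        Γ.of (ck P (D.BF a x)) := fun x hx hxIn => hfd.ap_eq ((mf _).2 ⟨x, hx, hxIn, rfl⟩)
    refine hk.2 (Γ.of (ck P D.mu)) ((of_ck_mem hΓ.mu haIn).2 h1) (Γ.of (fnN P (D.BF a) D.mu))
      ⟨⟨⟨hfd, fun z hz => ?_⟩, fun z hz z' hz' he => ?_⟩, fun y hy => ?_⟩
    · obtain ⟨x, h5, h6, rfl⟩ := (mem_ck hΓ.mu).1 hz
      rw [hap x h5 h6]
      exact (of_ck_mem (hΓ.bjIn haIn h6).1 haIn).2 (hD.bf a h1.le hal x h5).1
    · obtain ⟨x, h5, h6, rfl⟩ := (mem_ck hΓ.mu).1 hz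
      obtain ⟨x', h5', h6', rfl⟩ := (mem_ck hΓ.mu).1 hz'
      rw [hap x h5 h6, hap x' h5' h6', of_ck_inj (hΓ.bjIn haIn h6).1 (hΓ.bjIn haIn h6').1] at he
      rw [← (hD.bf a h1.le hal x h5).2, he, (hD.bf a h1.le hal x' h5').2]
    · obtain ⟨x, h5, h6, rfl⟩ := (mem_ck haIn).1 hy
      obtain ⟨h7, h8⟩ := hD.bi a h1.le hal x h5
      have h9 := (hΓ.bjIn haIn h6).2
      refine ⟨_, (of_ck_mem h9 hΓ.mu).2 h7, ?_⟩
      rw [hap _ h7 h9, h8]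

end FullM

end model

end Pool.Agent.helper75.NS
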