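import Pool.Agent.helper75.NS.Card

/-!
# Facts and conditions
-/

namespace Pool.Agent.helper75.NS

open Cardinal Set

/-- Facts.  The fact `mk ν ξ n b o s` stands for: if all facts `s i`, `i < o`, are in the generic
filter then the generic function of stage `ν` has the value `b` at `(ξ, n)`. -/
inductive Fa (K : Type) : Type
  | nil : Fa K
  | mk (ν ξ : K) (n : ℕ) (b : Bool) (o : K) (s : K → Fa K) : Fa K

section K

variable {K : Type} [LinearOrder K] [WellFoundedLT K] [Inhabited K]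

namespace Fa

/-- stage -/
def st : Fa K → K
  | nil => default
  | mk ν _ _ _ _ _ => ν

/-- column -/
def xi : Fa K → K
  | nil => default
  | mk _ ξ _ _ _ _ => ξ

/-- row -/
def nn : Fa K → ℕ
  | nil => 0
  | mk _ _ n _ _ _ => n

/-- value -/
def bb : Fa K → Bool
  | nil => false
  | mk _ _ _ b _ _ => b

/-- length of the premise -/
def ln : Fa K → K
  | nil => default
  | mk _ _ _ _ o _ => o

/-- entries of the premise -/
def en : Fa K → K → Fa K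
  | nil => fun _ => nil
  | mk _ _ _ _ _ s => s

/-- Well-formed facts. -/
def Wf : Fa K → Prop
  | nil => False
  | mk ν ξ _ _ o s => InA ν ∧ ξ < ν ∧ o < ν ∧ (∀ i < o, Wf (s i) ∧ (s i).st < ν) ∧
      ∀ i, o ≤ i → s i = nil

/-- The premise as a set. -/
def pre (f : Fa K) : Set (Fa K) := {g | ∃ i < f.ln, f.en i = g}

theorem Wf.ne {f : Fa K} (h : Wf f) : f ≠ nil := by
  rintro rfl
  exact h

theorem eta {f : Fa K} (h : f ≠ nil) : f = mk f.st f.xi f.nn f.bb f.ln f.en := by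
  cases f with
  | nil => exact absurd rfl h
  | mk => rfl

theorem wf_iff {f : Fa K} : Wf f ↔ f ≠ nil ∧ InA f.st ∧ f.xi < f.st ∧ f.ln < f.st ∧
    (∀ i < f.ln, Wf (f.en i) ∧ (f.en i).st < f.st) ∧ ∀ i, f.ln ≤ i → f.en i = nil := by
  cases f with
  | nil => exact ⟨fun h => h.elim, fun h => absurd rfl h.1⟩
  | mk ν ξ n b o s => exact ⟨fun h => ⟨fun e => (nomatch e), h⟩, fun h => h.2⟩

theorem Wf.inA {f : Fa K} (h : Wf f) : InA f.st := (wf_iff.1 h).2.1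

theorem Wf.xi_lt {f : Fa K} (h : Wf f) : f.xi < f.st := (wf_iff.1 h).2.2.1

theorem Wf.ln_lt {f : Fa K} (h : Wf f) : f.ln < f.st := (wf_iff.1 h).2.2.2.1

theorem Wf.pre {f g : Fa K} (h : Wf f) (hg : g ∈ f.pre) : Wf g ∧ g.st < f.st := by
  obtain ⟨i, hi, rfl⟩ := hg
  exact (wf_iff.1 h).2.2.2.2.1 i hi

theorem ext' {f g : Fa K} (hf : f ≠ nil) (hg : g ≠ nil) (h1 : f.st = g.st) (h2 : f.xi = g.xi)
    (h3 : f.nn = g.nn) (h4 : f.bb = g.bb) (h5 : f.ln = g.ln) (h6 : ∀ i, f.en i = g.en i) :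
    f = g := by
  rw [eta hf, eta hg, h1, h2, h3, h4, h5, funext h6]

/-- Same coordinate and same value. -/
def Sim (f g : Fa K) : Prop := f.st = g.st ∧ f.xi = g.xi ∧ f.nn = g.nn ∧ f.bb = g.bb

theorem Sim.refl (f : Fa K) : Sim f f := ⟨rfl, rfl, rfl, rfl⟩

theorem Sim.symm {f g : Fa K} (h : Sim f g) : Sim g f :=
  ⟨h.1.symm, h.2.1.symm, h.2.2.1.symm, h.2.2.2.symm⟩

theorem Sim.trans {f g h : Fa K} (h1 : Sim f g) (h2 : Sim g h) : Sim f h :=
  ⟨h1.1.trans h2.1, h1.2.1.trans h2.2.1, h1.2.2.1.trans h2.2.2.1, h1.2.2.2.trans h2.2.2.2⟩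

/-- Conflict: same coordinate, different values. -/
def Cf (f g : Fa K) : Prop := f.st = g.st ∧ f.xi = g.xi ∧ f.nn = g.nn ∧ f.bb ≠ g.bb

theorem Cf.symm {f g : Fa K} (h : Cf f g) : Cf g f :=
  ⟨h.1.symm, h.2.1.symm, h.2.2.1.symm, h.2.2.2.symm⟩

theorem Cf.sim {f g f' g' : Fa K} (h : Cf f g) (h1 : Sim f f') (h2 : Sim g g') : Cf f' g' := by
  refine ⟨?_, ?_, ?_, ?_⟩
  · rw [← h1.1, ← h2.1, h.1]
  · rw [← h1.2.1, ← h2.2.1, h.2.1]
  · rw [← h1.2.2.1, ← h2.2.2.1, h.2.2.1]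
  · rw [← h1.2.2.2, ← h2.2.2.2]
    exact h.2.2.2

/-- A fact with given coordinate, value and set of premises. -/
theorem exists_mk {ν ξ : K} (n : ℕ) (b : Bool) {X : Set (Fa K)} (hν : InA ν) (hξ : ξ < ν)
    (hX : ∀ g ∈ X, Wf g ∧ g.st < ν) (hc : #X < #(Iio ν)) :
    ∃ f : Fa K, Wf f ∧ f.st = ν ∧ f.xi = ξ ∧ f.nn = n ∧ f.bb = b ∧ f.pre = X := by
  classical
  obtain ⟨o, ho, e, he⟩ := exists_enum hc
  let s : K → Fa K := fun i => if h : i < o then e ⟨i, h⟩ else nil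
  have hs : ∀ i (h : i < o), s i = e ⟨i, h⟩ := fun i h => dif_pos h
  refine ⟨mk ν ξ n b o s, ⟨hν, hξ, ho, fun i hi => ?_, fun i hi => dif_neg (not_lt.2 hi)⟩,
    rfl, rfl, rfl, rfl, ?_⟩
  · rw [hs i hi]
    exact hX _ (he ▸ mem_range_self _)
  · ext g
    constructor
    · rintro ⟨i, hi, rfl⟩
      change s i ∈ X
      rw [hs i hi]
      exact he ▸ mem_range_self _
    · intro hg
      rw [← he] at hg
      obtain ⟨⟨i, hi⟩, rfl⟩ := hg
      exact ⟨i, hi, hs i hi⟩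

open Classical in
/-- Replace the premise. -/
noncomputable def reP (f : Fa K) (X : Set (Fa K)) : Fa K :=
  if h : ∃ g, Wf g ∧ Sim f g ∧ g.pre = X then h.choose else f

theorem reP_spec {f : Fa K} {X : Set (Fa K)} (hf : Wf f) (hX : ∀ g ∈ X, Wf g ∧ g.st < f.st)
    (hc : #X < #(Iio f.st)) : Wf (f.reP X) ∧ Sim f (f.reP X) ∧ (f.reP X).pre = X := by
  have h : ∃ g, Wf g ∧ Sim f g ∧ g.pre = X := by
    obtain ⟨g, h1, h2, h3, h4, h5, h6⟩ := exists_mk f.nn f.bb hf.inA hf.xi_lt hX hc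
    exact ⟨g, h1, ⟨h2.symm, h3.symm, h4.symm, h5.symm⟩, h6⟩
  unfold reP
  rw [dif_pos h]
  exact h.choose_spec

theorem reP_sim (f : Fa K) (X : Set (Fa K)) : Sim f (f.reP X) := by
  unfold reP
  split
  · next h => exact h.choose_spec.2.1
  · exact Sim.refl f

theorem pre_card {f : Fa K} (hf : Wf f) : #f.pre < #(Iio f.st) := by
  have h1 : f.pre = f.en '' Iio f.ln := by
    ext g
    rfl
  rw [h1]
  exact sm_image _ (hf.inA.reg.ini _ hf.ln_lt)

end Fa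

open Fa

/-! ### conditions -/

/-- Facts of stage below `ν`. -/
def lo (ν : K) (p : Set (Fa K)) : Set (Fa K) := {f | f ∈ p ∧ f.st < ν}

/-- Facts of stage at most `ν`. -/
def le (ν : K) (p : Set (Fa K)) : Set (Fa K) := {f | f ∈ p ∧ f.st ≤ ν}

theorem lo_sub {ν : K} {p : Set (Fa K)} : lo ν p ⊆ p := fun _ h => h.1

theorem le_sub {ν : K} {p : Set (Fa K)} : le ν p ⊆ p := fun _ h => h.1

theorem lo_mono {ν : K} {p q : Set (Fa K)} (h : p ⊆ q) : lo ν p ⊆ lo ν q := fun _ hf =>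
  ⟨h hf.1, hf.2⟩

theorem le_mono {ν : K} {p q : Set (Fa K)} (h : p ⊆ q) : le ν p ⊆ le ν q := fun _ hf =>
  ⟨h hf.1, hf.2⟩

theorem le_union {ν : K} {p q : Set (Fa K)} : le ν (p ∪ q) = le ν p ∪ le ν q := by
  ext f
  constructor
  · rintro ⟨h | h, h'⟩
    · exact Or.inl ⟨h, h'⟩
    · exact Or.inr ⟨h, h'⟩
  · rintro (h | h)
    · exact ⟨Or.inl h.1, h.2⟩
    · exact ⟨Or.inr h.1, h.2⟩

/-- Smallness of supports. -/
def Sp (p : Set (Fa K)) : Prop := ∀ r : K, IsReg r → #(le r p) < #(Iio r)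

theorem Sp.mono {p q : Set (Fa K)} (h : p ⊆ q) (hq : Sp q) : Sp p := fun r hr =>
  sm_mono (le_mono h) (hq r hr)

theorem Sp.union {p q : Set (Fa K)} (hp : Sp p) (hq : Sp q) : Sp (p ∪ q) := fun r hr => by
  rw [le_union]
  exact sm_union hr.reg.aleph0_le (hp r hr) (hq r hr)

/-- Conditions with all stages below `ν`. -/
def CB : K → Set (Fa K) → Prop :=
  WellFounded.fix (C := fun _ => Set (Fa K) → Prop) (wellFounded_lt (α := K)) fun ν ih p =>
    (∀ f ∈ p, Wf f ∧ f.st < ν) ∧ Sp p ∧ ∀ f ∈ p, ∀ g ∈ p, Cf f g → ∀ h : f.st < ν,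
      ¬ ∃ r, ih f.st h r ∧ lo f.st p ⊆ r ∧ f.pre ⊆ r ∧ g.pre ⊆ r

theorem CB_iff {ν : K} {p : Set (Fa K)} : CB ν p ↔
    (∀ f ∈ p, Wf f ∧ f.st < ν) ∧ Sp p ∧ ∀ f ∈ p, ∀ g ∈ p, Cf f g →
      ¬ ∃ r, CB f.st r ∧ lo f.st p ⊆ r ∧ f.pre ⊆ r ∧ g.pre ⊆ r := by
  unfold CB
  rw [WellFounded.fix_eq]
  constructor
  · rintro ⟨h1, h2, h3⟩
    exact ⟨h1, h2, fun f hf g hg hc => h3 f hf g hg hc (h1 f hf).2⟩
  · rintro ⟨h1, h2, h3⟩
    exact ⟨h1, h2, fun f hf g hg hc _ => h3 f hf g hg hc⟩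

/-- Conditions. -/
structure Cd (p : Set (Fa K)) : Prop where
  wf : ∀ f ∈ p, Wf f
  sp : Sp p
  val' : ∀ f ∈ p, ∀ g ∈ p, Cf f g → ¬ ∃ r, CB f.st r ∧ lo f.st p ⊆ r ∧ f.pre ⊆ r ∧ g.pre ⊆ r

theorem CB_iff' {ν : K} {p : Set (Fa K)} : CB ν p ↔ Cd p ∧ ∀ f ∈ p, f.st < ν := by
  rw [CB_iff]
  constructor
  · rintro ⟨h1, h2, h3⟩
    exact ⟨⟨fun f hf => (h1 f hf).1, h2, h3⟩, fun f hf => (h1 f hf).2⟩
  · rintro ⟨h1, h2⟩
    exact ⟨fun f hf => ⟨h1.wf f hf, h2 f hf⟩, h1.sp, h1.val'⟩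

/-- Validity. -/
theorem Cd.val {p : Set (Fa K)} (h : Cd p) {f g : Fa K} (hf : f ∈ p) (hg : g ∈ p) (hc : Cf f g)
    {r : Set (Fa K)} (hr : Cd r) (hrs : ∀ x ∈ r, x.st < f.st) (h1 : lo f.st p ⊆ r)
    (h2 : f.pre ⊆ r) (h3 : g.pre ⊆ r) : False :=
  h.val' f hf g hg hc ⟨r, CB_iff'.2 ⟨hr, hrs⟩, h1, h2, h3⟩

theorem Cd.lo {p : Set (Fa K)} (h : Cd p) (ν : K) : Cd (lo ν p) where
  wf := fun f hf => h.wf f hf.1
  sp := h.sp.mono lo_sub
  val' := by
    rintro f hf g hg hc ⟨r, hr, h1, h2, h3⟩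
    refine h.val' f hf.1 g hg.1 hc ⟨r, hr, fun x hx => h1 ⟨⟨hx.1, hx.2.trans hf.2⟩, hx.2⟩, h2, h3⟩

theorem Cd.le {p : Set (Fa K)} (h : Cd p) (ν : K) : Cd (le ν p) where
  wf := fun f hf => h.wf f hf.1
  sp := h.sp.mono le_sub
  val' := by
    rintro f hf g hg hc ⟨r, hr, h1, h2, h3⟩
    refine h.val' f hf.1 g hg.1 hc ⟨r, hr, fun x hx => h1 ⟨⟨hx.1, hx.2.le.trans hf.2⟩, hx.2⟩,
      h2, h3⟩

theorem Cd.mk' {p : Set (Fa K)} (h1 : ∀ f ∈ p, Wf f) (h2 : Sp p)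
    (h3 : ∀ f ∈ p, ∀ g ∈ p, Cf f g → ∀ r, Cd r → (∀ x ∈ r, x.st < f.st) → NS.lo f.st p ⊆ r →
      f.pre ⊆ r → g.pre ⊆ r → False) : Cd p where
  wf := h1
  sp := h2
  val' := by
    rintro f hf g hg hc ⟨r, hr, h4, h5, h6⟩
    obtain ⟨h7, h8⟩ := CB_iff'.1 hr
    exact h3 f hf g hg hc r h7 h8 h4 h5 h6

/-- Adding implied facts. -/
theorem Cd.implied {p F : Set (Fa K)} (h : Cd p) (hF : ∀ f ∈ F, Wf f) (hS : Sp F)
    (hi : ∀ f ∈ F, ∃ g ∈ p, Sim f g ∧ g.pre ⊆ f.pre ∪ NS.lo f.st p) : Cd (p ∪ F) := by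
  have key : ∀ f ∈ p ∪ F, ∃ g ∈ p, Sim f g ∧ g.pre ⊆ f.pre ∪ NS.lo f.st p := by
    rintro f (hf | hf)
    · exact ⟨f, hf, Sim.refl f, subset_union_left⟩
    · exact hi f hf
  refine Cd.mk' ?_ (h.sp.union hS) ?_
  · rintro f (hf | hf)
    · exact h.wf f hf
    · exact hF f hf
  · intro f hf g hg hc r hr h1 h2 h3 h4
    obtain ⟨f', hf', hs, hp⟩ := key f hf
    obtain ⟨g', hg', hs', hp'⟩ := key g hg
    have hlo : NS.lo f.st p ⊆ r := (lo_mono subset_union_left).trans h2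
    refine h.val hf' hg' (hc.sim hs hs') hr (by rwa [← hs.1]) (by rwa [← hs.1]) ?_ ?_
    · exact hp.trans (union_subset h3 hlo)
    · rw [← hc.1] at hp'
      exact hp'.trans (union_subset h4 hlo)

theorem Cd.union_lo {p t : Set (Fa K)} {ν : K} (hp : Cd p) (ht : Cd t) (hts : ∀ f ∈ t, f.st < ν)
    (h : NS.lo ν p ⊆ t) : Cd (p ∪ t) := by
  refine Cd.mk' ?_ (hp.sp.union ht.sp) ?_
  · rintro f (hf | hf)
    · exact hp.wf f hf
    · exact ht.wf f hf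
  · intro f hf g hg hc r hr h1 h2 h3 h4
    by_cases hν : f.st < ν
    · have h5 : ∀ x ∈ p ∪ t, x.st < ν → x ∈ t := by
        rintro x (hx | hx) hx'
        · exact h ⟨hx, hx'⟩
        · exact hx
      refine ht.val (h5 f hf hν) (h5 g hg (by rwa [← hc.1])) hc hr h1
        ((lo_mono subset_union_right).trans h2) h3 h4
    · have h5 : ∀ x ∈ p ∪ t, ¬ x.st < ν → x ∈ p := by
        rintro x (hx | hx) hx'
        · exact hx
        · exact absurd (hts x hx) hx'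
      refine hp.val (h5 f hf hν) (h5 g hg (by rwa [← hc.1])) hc hr h1
        ((lo_mono subset_union_left).trans h2) h3 h4

theorem Cd.union_le {p t : Set (Fa K)} {ν : K} (hp : Cd p) (ht : Cd t) (hts : ∀ f ∈ t, f.st ≤ ν)
    (h : NS.le ν p ⊆ t) : Cd (p ∪ t) := by
  refine Cd.mk' ?_ (hp.sp.union ht.sp) ?_
  · rintro f (hf | hf)
    · exact hp.wf f hf
    · exact ht.wf f hf
  · intro f hf g hg hc r hr h1 h2 h3 h4
    by_cases hν : f.st ≤ ν
    · have h5 : ∀ x ∈ p ∪ t, x.st ≤ ν → x ∈ t := by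
        rintro x (hx | hx) hx'
        · exact h ⟨hx, hx'⟩
        · exact hx
      refine ht.val (h5 f hf hν) (h5 g hg (by rwa [← hc.1])) hc hr h1
        ((lo_mono subset_union_right).trans h2) h3 h4
    · have h5 : ∀ x ∈ p ∪ t, ¬ x.st ≤ ν → x ∈ p := by
        rintro x (hx | hx) hx'
        · exact hx
        · exact absurd (hts x hx) hx'
      refine hp.val (h5 f hf hν) (h5 g hg (by rwa [← hc.1])) hc hr h1
        ((lo_mono subset_union_left).trans h2) h3 h4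

/-- The value at a coordinate forced by `p` is unique. -/
theorem Cd.unique {p : Set (Fa K)} (h : Cd p) {f g : Fa K} (hf : f ∈ p) (hg : g ∈ p)
    (h1 : f.st = g.st) (h2 : f.xi = g.xi) (h3 : f.nn = g.nn) (hfp : f.pre ⊆ p) (hgp : g.pre ⊆ p) :
    f.bb = g.bb := by
  by_contra hb
  refine h.val hf hg ⟨h1, h2, h3, hb⟩ (h.lo f.st) (fun x hx => hx.2) subset_rfl ?_ ?_
  · exact fun x hx => ⟨hfp hx, ((h.wf f hf).pre hx).2⟩
  · exact fun x hx => ⟨hgp hx, by rw [h1]; exact ((h.wf g hg).pre hx).2⟩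

theorem Sp.finite {p : Set (Fa K)} (h : p.Finite) : Sp p := fun r hr =>
  (lt_aleph0_iff_set_finite.2 (h.subset le_sub)).trans_le hr.reg.aleph0_le

/-- Every coordinate can be decided. -/
theorem Cd.decide {p : Set (Fa K)} (h : Cd p) {ν ξ : K} (n : ℕ) (hν : InA ν) (hξ : ξ < ν) :
    ∃ q, Cd q ∧ p ⊆ q ∧ (∀ x ∈ q, x ∈ p ∨ x.st ≤ ν) ∧
      ∃ f ∈ q, f.st = ν ∧ f.xi = ξ ∧ f.nn = n ∧ f.pre ⊆ q := by
  by_cases hex : ∃ f ∈ p, f.st = ν ∧ f.xi = ξ ∧ f.nn = n ∧ ∃ t, Cd t ∧ (∀ x ∈ t, x.st < ν) ∧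
      NS.lo ν p ⊆ t ∧ f.pre ⊆ t
  · obtain ⟨f, hf, h1, h2, h3, t, ht, ht', h4, h5⟩ := hex
    refine ⟨p ∪ t, h.union_lo ht ht' h4, subset_union_left, ?_, f, Or.inl hf, h1, h2, h3,
      h5.trans subset_union_right⟩
    rintro x (hx | hx)
    · exact Or.inl hx
    · exact Or.inr (ht' x hx).le
  · push Not at hex
    obtain ⟨f0, hw, h1, h2, h3, _, h5⟩ := exists_mk (ν := ν) (ξ := ξ) n false (X := ∅) hν hξ
      (fun g hg => absurd hg (notMem_empty g)) (by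
        rw [mk_emptyCollection]
        exact aleph0_pos.trans hν.reg.unc)
    refine ⟨p ∪ {f0}, Cd.mk' ?_ (h.sp.union (Sp.finite (finite_singleton f0))) ?_,
      subset_union_left, ?_, f0, Or.inr rfl, h1, h2, h3, by
        rw [h5]
        exact empty_subset _⟩
    · rintro f (hf | rfl)
      · exact h.wf f hf
      · exact hw
    · intro f hf g hg hc r hr h6 h7 h8 h9
      have hlo : NS.lo f.st p ⊆ r := (lo_mono subset_union_left).trans h7
      rcases hf with hf | rfl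
      · rcases hg with hg | rfl
        · exact h.val hf hg hc hr h6 hlo h8 h9
        · have e1 : f.st = ν := hc.1.trans h1
          rw [e1] at h6 hlo
          exact hex f hf e1 (hc.2.1.trans h2) (hc.2.2.1.trans h3) r hr h6 hlo h8
      · rcases hg with hg | rfl
        · rw [h1] at h6 hlo
          exact hex g hg (hc.1.symm.trans h1) (hc.2.1.symm.trans h2) (hc.2.2.1.symm.trans h3)
            r hr h6 hlo h9
        · exact hc.2.2.2 rfl
    · rintro x (hx | rfl)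
      · exact Or.inl hx
      · exact Or.inr h1.le

/-! ### shifts -/

/-- The facts of `r` above `b` with the part of `r` up to `b` added to the premises. -/
def sh (b : K) (r : Set (Fa K)) : Set (Fa K) :=
  {g | ∃ f ∈ r, b < f.st ∧ g = f.reP (f.pre ∪ le b r)}

theorem sh_spec {b : K} {r : Set (Fa K)} (hr : Cd r) {f : Fa K} (hf : f ∈ r) (hb : b < f.st) :
    Wf (f.reP (f.pre ∪ le b r)) ∧ Sim f (f.reP (f.pre ∪ le b r)) ∧
      (f.reP (f.pre ∪ le b r)).pre = f.pre ∪ le b r := by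
  have hw := hr.wf f hf
  refine reP_spec hw ?_ ?_
  · rintro g (hg | hg)
    · exact hw.pre hg
    · exact ⟨hr.wf g hg.1, hg.2.trans_lt hb⟩
  · refine sm_union hw.inA.reg.reg.aleph0_le (pre_card hw) ?_
    refine sm_mono (t := le f.st r) ?_ (hr.sp _ hw.inA.reg)
    exact fun g hg => ⟨hg.1, hg.2.trans hb.le⟩

theorem sh_wf {b : K} {r : Set (Fa K)} (hr : Cd r) {g : Fa K} (hg : g ∈ sh b r) : Wf g := by
  obtain ⟨f, hf, hb, rfl⟩ := hg
  exact (sh_spec hr hf hb).1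

theorem sh_st {b : K} {r : Set (Fa K)} {g : Fa K} (hg : g ∈ sh b r) : b < g.st := by
  obtain ⟨f, hf, hb, rfl⟩ := hg
  rw [← (reP_sim f _).1]
  exact hb

theorem sh_st' {b : K} {r : Set (Fa K)} {g : Fa K} (hg : g ∈ sh b r) : ∃ f ∈ r, f.st = g.st := by
  obtain ⟨f, hf, hb, rfl⟩ := hg
  exact ⟨f, hf, (reP_sim f _).1⟩

theorem le_sh {b c : K} {r : Set (Fa K)} :
    le c (sh b r) ⊆ (fun f : Fa K => f.reP (f.pre ∪ le b r)) '' le c r := by
  rintro g ⟨⟨f, hf, hb, rfl⟩, hc⟩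
  refine ⟨f, ⟨hf, ?_⟩, rfl⟩
  rw [(reP_sim f _).1]
  exact hc

theorem sh_sp {b : K} {r : Set (Fa K)} (hr : Sp r) : Sp (sh b r) := fun c hc =>
  sm_mono le_sh (sm_image _ (hr c hc))

/-- A condition containing the shift of `r` and the part of `r` up to `b` implies `r`. -/
theorem Cd.union_sh {b : K} {r u : Set (Fa K)} (hu : Cd u) (hr : Cd r) (h1 : sh b r ⊆ u)
    (h2 : NS.le b r ⊆ u) : Cd (u ∪ r) := by
  refine hu.implied hr.wf hr.sp fun f hf => ?_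
  rcases lt_or_ge b f.st with hb | hb
  · obtain ⟨h3, h4, h5⟩ := sh_spec hr hf hb
    refine ⟨_, h1 ⟨f, hf, hb, rfl⟩, h4, ?_⟩
    rw [h5]
    exact union_subset_union_right _ fun g hg => ⟨h2 hg, hg.2.trans_lt hb⟩
  · exact ⟨f, h2 ⟨hf, hb⟩, Sim.refl f, subset_union_left⟩

/-- Fusion step. -/
theorem Cd.fuse {b : K} {p r : Set (Fa K)} (hp : Cd p) (hr : Cd r) (hpr : p ⊆ r) :
    Cd (p ∪ sh b r) := by
  refine Cd.mk' ?_ (hp.sp.union (sh_sp hr.sp)) ?_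
  · rintro f (hf | hf)
    · exact hp.wf f hf
    · exact sh_wf hr hf
  · intro f hf g hg hc t ht h1 h2 h3 h4
    by_cases hboth : f ∈ p ∧ g ∈ p
    · exact hp.val hboth.1 hboth.2 hc ht h1 ((lo_mono subset_union_left).trans h2) h3 h4
    · have key : ∀ x ∈ p ∪ sh b r, ∃ y ∈ r, Sim x y ∧ y.pre ⊆ x.pre ∧
          (x ∈ p ∨ (b < x.st ∧ NS.le b r ⊆ x.pre)) := by
        rintro x (hx | ⟨y, hy, hb, rfl⟩)
        · exact ⟨x, hpr hx, Sim.refl x, subset_rfl, Or.inl hx⟩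
        · obtain ⟨h5, h6, h7⟩ := sh_spec hr hy hb
          refine ⟨y, hy, h6.symm, ?_, Or.inr ⟨?_, ?_⟩⟩
          · rw [h7]
            exact subset_union_left
          · rw [← h6.1]
            exact hb
          · rw [h7]
            exact subset_union_right
      obtain ⟨f', hf', hs, hp1, h5⟩ := key f hf
      obtain ⟨g', hg', hs', hp2, h6⟩ := key g hg
      have h7 : b < f.st ∧ NS.le b r ⊆ t := by
        rcases h5 with h5 | h5
        · rcases h6 with h6 | h6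
          · exact absurd ⟨h5, h6⟩ hboth
          · exact ⟨by rw [hc.1]; exact h6.1, h6.2.trans h4⟩
        · exact ⟨h5.1, h5.2.trans h3⟩
      have h8 : Cd (t ∪ NS.lo f.st r) := by
        refine ht.implied (fun x hx => hr.wf x hx.1) (hr.sp.mono lo_sub) fun x hx => ?_
        rcases lt_or_ge b x.st with hb | hb
        · obtain ⟨h9, h10, h11⟩ := sh_spec hr hx.1 hb
          refine ⟨_, h2 ⟨Or.inr ⟨x, hx.1, hb, rfl⟩, ?_⟩, h10, ?_⟩
          · rw [← h10.1]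
            exact hx.2
          · rw [h11]
            exact union_subset_union_right _ fun y hy => ⟨h7.2 hy, hy.2.trans_lt hb⟩
        · exact ⟨x, h7.2 ⟨hx.1, hb⟩, Sim.refl x, subset_union_left⟩
      refine hr.val hf' hg' (hc.sim hs hs') h8 ?_ ?_ ?_ ?_
      · rw [← hs.1]
        rintro x (hx | hx)
        · exact h1 x hx
        · exact hx.2
      · rw [← hs.1]
        exact subset_union_right
      · exact (hp1.trans h3).trans subset_union_left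
      · exact (hp2.trans h4).trans subset_union_left

theorem le_fuse {b : K} {p r : Set (Fa K)} : le b (p ∪ sh b r) = le b p := by
  rw [le_union]
  refine union_eq_left.2 ?_
  rintro x ⟨hx, hx'⟩
  exact absurd (sh_st hx) (not_lt.2 hx')

end K

end Pool.Agent.helper75.NS
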