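import Pool.Agent.helper75.NS.Eval

/-!
# The generic model: trees and the narrow system
-/

namespace Pool.Agent.helper75.NS

open Pool.Agent.helper31.ZF Pool.Agent.helper74.Forc Pool.Agent.helper28.NSI

/-- Six outputs. -/
def six {K : Type} (a b c i j k : K) : ℕ → K
  | 0 => a
  | 1 => b
  | 2 => c
  | 3 => i
  | 4 => j
  | _ => k

theorem TreeF.mono' {K P : Type} [LinearOrder K] [Preorder P] {mu lam : K}
    {R : K → K → K → K → P → Prop} {p q : P}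
    (h : TreeF mu lam R p) (hq : q ≤ p) : TreeF mu lam R q :=
  ⟨fun a b hab hb k hk r hr => h.pred a b hab hb k hk r (hr.trans hq),
    fun a b c hab hbc hc i hi j hj k hk r hr => h.like a b c hab hbc hc i hi j hj k hk r
      (hr.trans hq),
    fun a b c hab hbc hc i hi j hj k hk r hr => h.trans a b c hab hbc hc i hi j hj k hk r
      (hr.trans hq)⟩

section model

variable {K G P : Type} [LinearOrder K] [WellFoundedLT K] [Group G] [Preorder P] [MulAction G P]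
  [TopSys G P] {D : GD K P} {Γ : Gen G P} [hF : Fact Γ.HasOm]

namespace FullM

variable (hΓ : FullM D Γ)

include hΓ

theorem N4_mem {a i b k : K} (ha : Γ.In (ck P a)) (hi : Γ.In (ck P i)) (hb : Γ.In (ck P b))
    (hk : Γ.In (ck P k)) {f : Nm P} (hf : Γ.In f) :
    op (op (Γ.of (ck P a)) (Γ.of (ck P i))) (op (Γ.of (ck P b)) (Γ.of (ck P k))) ∈ Γ.of f ↔
      ∃ m, fmem (N4 P a i b k) f (Γ.g m) := by
  rw [← hΓ.ofOp ha hi, ← hΓ.ofOp hb hk]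
  exact hΓ.op_mem (hΓ.opIn ha hi) (hΓ.opIn hb hk) hf

theorem treeF {f : Nm P} (hf : Γ.In f)
    (hR : CTree (Γ.of (ck P D.mu)) (Γ.of (ck P D.lam)) (Γ.of f)) :
    ∃ m, TreeF D.mu D.lam (fun a i b k => fmem (N4 P a i b k) f) (Γ.g m) := by
  obtain ⟨k1, h1⟩ : ∃ m, ∀ q ≤ Γ.g m, ∀ C : ℕ → Nm P, (∀ i, HS G (C i)) →
      ¬ QQ G D .t1 f f f C q := by
    rcases hΓ.ev .t1 f f f hf hf hf with
      ⟨m, C, hC, a, b, k, hab, hb, hk, e0, e1, e2, h⟩ | h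
    · exfalso
      have ha : Γ.In (ck P a) := e0 ▸ hC 0
      have hbI : Γ.In (ck P b) := e1 ▸ hC 1
      have hkI : Γ.In (ck P k) := e2 ▸ hC 2
      obtain ⟨i, hi, hm⟩ := hR.pred _ _ ((of_ck_mem ha hbI).2 hab) ((of_ck_mem hbI hΓ.lam).2 hb)
        _ ((of_ck_mem hkI hΓ.mu).2 hk)
      obtain ⟨j, hj, hjI, rfl⟩ := (mem_ck hΓ.mu).1 hi
      obtain ⟨l, hl⟩ := (hΓ.N4_mem ha hjI hbI hkI hf).1 hm
      exact h (Γ.g (max m l)) (Γ.anti (le_max_left _ _)) j hj (hl.mono (Γ.anti (le_max_right _ _)))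
    · exact h
  obtain ⟨k2, h2⟩ : ∃ m, ∀ q ≤ Γ.g m, ∀ C : ℕ → Nm P, (∀ i, HS G (C i)) →
      ¬ QQ G D .t2 f f f C q := by
    rcases hΓ.ev .t2 f f f hf hf hf with
      ⟨m, C, hC, a, b, c, i, j, k, hab, hbc, hc, hi, hj, hk, e0, e1, e2, e3, e4, e5, h, h',
        h''⟩ | h
    · exfalso
      have ha : Γ.In (ck P a) := e0 ▸ hC 0
      have hbI : Γ.In (ck P b) := e1 ▸ hC 1
      have hcI : Γ.In (ck P c) := e2 ▸ hC 2
      have hiI : Γ.In (ck P i) := e3 ▸ hC 3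
      have hjI : Γ.In (ck P j) := e4 ▸ hC 4
      have hkI : Γ.In (ck P k) := e5 ▸ hC 5
      have hm := hR.like _ _ _ ((of_ck_mem ha hbI).2 hab) ((of_ck_mem hbI hcI).2 hbc)
        ((of_ck_mem hcI hΓ.lam).2 hc) _ _ _ ((of_ck_mem hiI hΓ.mu).2 hi)
        ((of_ck_mem hjI hΓ.mu).2 hj) ((of_ck_mem hkI hΓ.mu).2 hk)
        ((hΓ.N4_mem ha hiI hcI hkI hf).2 ⟨m, h⟩) ((hΓ.N4_mem hbI hjI hcI hkI hf).2 ⟨m, h'⟩)
      obtain ⟨l, hl⟩ := (hΓ.N4_mem ha hiI hbI hjI hf).1 hm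
      exact h'' (Γ.g (max m l)) (Γ.anti (le_max_left _ _)) (hl.mono (Γ.anti (le_max_right _ _)))
    · exact h
  obtain ⟨k3, h3⟩ : ∃ m, ∀ q ≤ Γ.g m, ∀ C : ℕ → Nm P, (∀ i, HS G (C i)) →
      ¬ QQ G D .t3 f f f C q := by
    rcases hΓ.ev .t3 f f f hf hf hf with
      ⟨m, C, hC, a, b, c, i, j, k, hab, hbc, hc, hi, hj, hk, e0, e1, e2, e3, e4, e5, h, h',
        h''⟩ | h
    · exfalso
      have ha : Γ.In (ck P a) := e0 ▸ hC 0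
      have hbI : Γ.In (ck P b) := e1 ▸ hC 1
      have hcI : Γ.In (ck P c) := e2 ▸ hC 2
      have hiI : Γ.In (ck P i) := e3 ▸ hC 3
      have hjI : Γ.In (ck P j) := e4 ▸ hC 4
      have hkI : Γ.In (ck P k) := e5 ▸ hC 5
      have hm := hR.trans _ _ _ ((of_ck_mem ha hbI).2 hab) ((of_ck_mem hbI hcI).2 hbc)
        ((of_ck_mem hcI hΓ.lam).2 hc) _ _ _ ((of_ck_mem hiI hΓ.mu).2 hi)
        ((of_ck_mem hjI hΓ.mu).2 hj) ((of_ck_mem hkI hΓ.mu).2 hk)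
        ((hΓ.N4_mem ha hiI hbI hjI hf).2 ⟨m, h⟩) ((hΓ.N4_mem hbI hjI hcI hkI hf).2 ⟨m, h'⟩)
      obtain ⟨l, hl⟩ := (hΓ.N4_mem ha hiI hcI hkI hf).1 hm
      exact h'' (Γ.g (max m l)) (Γ.anti (le_max_left _ _)) (hl.mono (Γ.anti (le_max_right _ _)))
    · exact h
  refine ⟨max k1 (max k2 k3), ⟨fun a b hab hb k hk q hq => ?_,
    fun a b c hab hbc hc i hi j hj k hk q hq hR1 hR2 => ?_,
    fun a b c hab hbc hc i hi j hj k hk q hq hR1 hR2 => ?_⟩⟩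
  · by_contra hcon
    push Not at hcon
    exact h1 q (hq.trans (Γ.anti (le_max_left _ _))) (fun n => ck P (six a b k k k k n))
      (fun _ => hs_ck _) ⟨a, b, k, hab, hb, hk, rfl, rfl, rfl, hcon⟩
  · refine fmem.dense fun r hr => ?_
    by_contra hcon
    push Not at hcon
    refine h2 r (hr.trans (hq.trans (Γ.anti ((le_max_left k2 k3).trans (le_max_right _ _)))))
      (fun n => ck P (six a b c i j k n)) (fun _ => hs_ck _) ⟨a, b, c, i, j, k, hab, hbc, hc, hi,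
        hj, hk, rfl, rfl, rfl, rfl, rfl, rfl, hR1.mono hr, hR2.mono hr, hcon⟩
  · refine fmem.dense fun r hr => ?_
    by_contra hcon
    push Not at hcon
    refine h3 r (hr.trans (hq.trans (Γ.anti ((le_max_right k2 k3).trans (le_max_right _ _)))))
      (fun n => ck P (six a b c i j k n)) (fun _ => hs_ck _) ⟨a, b, c, i, j, k, hab, hbc, hc, hi,
        hj, hk, rfl, rfl, rfl, rfl, rfl, rfl, hR1.mono hr, hR2.mono hr, hcon⟩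

theorem br_mem {b : K → K → P → Prop} (hb : ∀ a i, RO (b a i))
    (hB : Γ.In (brN D.mu D.lam b)) {a i : K} (ha : Γ.In (ck P a)) (hi : Γ.In (ck P i))
    (h : op (Γ.of (ck P a)) (Γ.of (ck P i)) ∈ Γ.of (brN D.mu D.lam b)) : ∃ m, b a i (Γ.g m) := by
  obtain ⟨⟨⟨a', ha'⟩, ⟨i', hi'⟩⟩, h1, h2, m, s, hs, h3⟩ := (Gen.E_mk hB).1 h
  obtain ⟨h4, h5⟩ := hΓ.unop h1
  rw [hΓ.ofOp h4 h5, op_inj, of_ck_inj ha h4, of_ck_inj hi h5] at h2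
  obtain ⟨rfl, rfl⟩ := h2
  exact ⟨m, (hb _ _).mono _ _ hs h3⟩

theorem branch (hD : D.Ok G) (R : Γ.Mod) (hR : CTree (Γ.of (ck P D.mu)) (Γ.of (ck P D.lam)) R) :
    ∃ B, CBranch (Γ.of (ck P D.mu)) (Γ.of (ck P D.lam)) R B := by
  have hne : Nonempty P := ⟨Γ.g 0⟩
  obtain ⟨f, hf, rfl⟩ := exists_In' R
  obtain ⟨m, hm⟩ := hΓ.treeF hf hR
  obtain ⟨k, C, hC, b, hb1, hb2, hb3, h4⟩ : ∃ k, ∃ C : ℕ → Nm P, (∀ i, Γ.In (C i)) ∧
      QQ G D .br f f f C (Γ.g k) := by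
    rcases hΓ.ev .br f f f hf hf hf with h1 | ⟨k, h1⟩
    · exact h1
    · exfalso
      obtain ⟨q, hq, b, h2, h3, h4⟩ := hD.tp (fun a i b k => fmem (N4 P a i b k) f)
        (fun _ _ _ _ => ro_fmem) (fun _ _ _ _ => iv_fmem (hs_opN (hs_opN (hs_ck _) (hs_ck _))
          (hs_opN (hs_ck _) (hs_ck _))) (inHS hf)) (Γ.g (max k m))
        (hm.mono' (Γ.anti (le_max_right _ _)))
      exact h1 q (hq.trans (Γ.anti (le_max_left _ _))) (fun _ => brN D.mu D.lam b)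
        (fun _ => hs_brN h3) ⟨b, h2, h3, h4, rfl⟩
  have hB : Γ.In (brN D.mu D.lam b) := h4 ▸ hC 0
  refine ⟨Γ.of (brN D.mu D.lam b), fun a ha => ?_, fun a c hac hc i k hi hk h1 h2 => ?_⟩
  · obtain ⟨a, hal, haI, rfl⟩ := (mem_ck hΓ.lam).1 ha
    rcases hΓ.ev .wt _ _ _ hB haI hΓ.mu with ⟨l, C', hC', c1, h6, c', h7, h8, h9⟩ | ⟨l, h6⟩
    · obtain rfl := ck_inj h6
      have hc' : Γ.In (ck P c') := h8 ▸ hC' 0
      exact ⟨_, (of_ck_mem hc' hΓ.mu).2 h7, (hΓ.op_mem haI hc' hB).2 ⟨l, h9⟩⟩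
    · exfalso
      obtain ⟨s, hs, i, hi, h7⟩ := hb3.tot a hal (Γ.g (max k l)) (Γ.anti (le_max_left _ _))
      refine h6 s (hs.trans (Γ.anti (le_max_right _ _))) (fun _ => ck P i) (fun _ => hs_ck _)
        ⟨D.mu, rfl, i, hi, rfl, ?_⟩
      exact fmem_el (brN D.mu D.lam b) (i := (⟨a, hal⟩, ⟨i, hi⟩)) ⟨s, le_rfl, h7⟩
  · obtain ⟨c, hcl, hcI, rfl⟩ := (mem_ck hΓ.lam).1 hc
    obtain ⟨a, hac', haI, rfl⟩ := (mem_ck hcI).1 hac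
    obtain ⟨i, hi', hiI, rfl⟩ := (mem_ck hΓ.mu).1 hi
    obtain ⟨j, hj', hjI, rfl⟩ := (mem_ck hΓ.mu).1 hk
    obtain ⟨m1, h3⟩ := hΓ.br_mem hb1 hB haI hiI h1
    obtain ⟨m2, h4⟩ := hΓ.br_mem hb1 hB hcI hjI h2
    refine (hΓ.N4_mem haI hiI hcI hjI hf).2 ⟨max k (max m1 m2), ?_⟩
    exact hb3.lt a c hac' hcl i hi' j hj' _ (Γ.anti (le_max_left _ _))
      ((hb1 _ _).mono _ _ (Γ.anti ((le_max_left m1 m2).trans (le_max_right _ _))) h3)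
      ((hb1 _ _).mono _ _ (Γ.anti ((le_max_right m1 m2).trans (le_max_right _ _))) h4)

/-! ### the narrow system -/

theorem sy_mem (hD : D.Ok G) {a b : K} {n : ℕ} (ha : Γ.In (ck P a)) (hb : Γ.In (ck P b))
    (hab : a < b) (hbl : b < D.lam) :
    op (op (Γ.of (ck P a)) (Γ.N n)) (op (Γ.of (ck P b)) (Γ.N n)) ∈ Γ.of (syN D.lam D.c) ↔
      ∃ m, D.c a b n (Γ.g m) := by
  have hn : ∀ n, Γ.In (nn P n) := hF.out.nn
  constructor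
  · intro h
    obtain ⟨⟨⟨a', b', n'⟩, h0⟩, h1, h2, m, s, hs, h3⟩ := (Gen.E_mk hΓ.sy).1 h
    obtain ⟨h4, h5⟩ := hΓ.unop h1
    obtain ⟨h6, _⟩ := hΓ.unop h4
    obtain ⟨h7, _⟩ := hΓ.unop h5
    rw [hΓ.ofOp h4 h5, hΓ.ofOp h6 (hn n'), hΓ.ofOp h7 (hn n'), op_inj, op_inj, op_inj,
      of_ck_inj ha h6, of_ck_inj hb h7] at h2
    obtain ⟨⟨rfl, h8⟩, rfl, _⟩ := h2
    obtain rfl := Gen.N_inj'.1 h8
    exact ⟨m, (hD.c_ro _ _ _).mono _ _ hs h3⟩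
  · rintro ⟨m, hm⟩
    have h1 : Γ.In (opN (ck P a) (nn P n)) := hΓ.opIn ha (hn n)
    have h2 : Γ.In (opN (ck P b) (nn P n)) := hΓ.opIn hb (hn n)
    have e1 : Γ.of (opN (ck P a) (nn P n)) = op (Γ.of (ck P a)) (Γ.N n) := hΓ.ofOp ha (hn n)
    have e2 : Γ.of (opN (ck P b) (nn P n)) = op (Γ.of (ck P b)) (Γ.N n) := hΓ.ofOp hb (hn n)
    rw [← e1, ← e2]
    refine (Gen.E_mk hΓ.sy).2 ⟨⟨(a, b, n), hab, hbl⟩, hΓ.opIn h1 h2, (hΓ.ofOp h1 h2).symm, m,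
      Γ.g m, le_rfl, hm⟩

theorem csys (hD : D.Ok G) : CSys (Γ.of (ck P D.lam)) (Γ.of (syN D.lam D.c)) := by
  have hne : Nonempty P := ⟨Γ.g 0⟩
  have hn : ∀ n, Γ.In (nn P n) := hF.out.nn
  refine ⟨fun a b hab hb => ?_, fun x y z hxy hyz hz n hn' h1 h2 => ?_,
    fun x y z hxy hyz hz n hn' h1 h2 => ?_, fun n hn' B hun hall => ?_⟩
  · obtain ⟨b, hbl, hbI, rfl⟩ := (mem_ck hΓ.lam).1 hb
    obtain ⟨a, hab', haI, rfl⟩ := (mem_ck hbI).1 hab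
    rcases hΓ.ev .nt _ _ _ hΓ.sy haI hbI with ⟨l, C, _, n, h1⟩ | ⟨l, h1⟩
    · refine ⟨Γ.N n, Gen.mem_om'.2 ⟨n, rfl⟩, ?_⟩
      have h2 : Γ.In (opN (ck P a) (nn P n)) := hΓ.opIn haI (hn n)
      have h3 : Γ.In (opN (ck P b) (nn P n)) := hΓ.opIn hbI (hn n)
      have e1 : Γ.of (opN (ck P a) (nn P n)) = op (Γ.of (ck P a)) (Γ.N n) := hΓ.ofOp haI (hn n)
      have e2 : Γ.of (opN (ck P b) (nn P n)) = op (Γ.of (ck P b)) (Γ.N n) := hΓ.ofOp hbI (hn n)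
      rw [← e1, ← e2]
      exact (hΓ.op_mem h2 h3 hΓ.sy).2 ⟨l, h1⟩
    · exfalso
      obtain ⟨q, hq, n, h2⟩ := hD.c_tot a b hab' hbl (Γ.g l)
      refine h1 q hq (fun _ => ck P a) (fun _ => hs_ck _) ⟨n, ?_⟩
      exact fmem_el (syN D.lam D.c) (i := ⟨(a, b, n), hab', hbl⟩) ⟨q, le_rfl, h2⟩
  · obtain ⟨z, hzl, hzI, rfl⟩ := (mem_ck hΓ.lam).1 hz
    obtain ⟨y, hyz', hyI, rfl⟩ := (mem_ck hzI).1 hyz
    obtain ⟨x, hxy', hxI, rfl⟩ := (mem_ck hyI).1 hxy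
    obtain ⟨n, rfl⟩ := Gen.mem_om'.1 hn'
    obtain ⟨m1, h3⟩ := (hΓ.sy_mem hD hxI hyI hxy' (hyz'.trans hzl)).1 h1
    obtain ⟨m2, h4⟩ := (hΓ.sy_mem hD hyI hzI hyz' hzl).1 h2
    exact (hΓ.sy_mem hD hxI hzI (hxy'.trans hyz') hzl).2 ⟨max m1 m2,
      hD.c_trans x y z n hxy' hyz' hzl _ ((hD.c_ro _ _ _).mono _ _ (Γ.anti (le_max_left _ _)) h3)
        ((hD.c_ro _ _ _).mono _ _ (Γ.anti (le_max_right _ _)) h4)⟩
  · obtain ⟨z, hzl, hzI, rfl⟩ := (mem_ck hΓ.lam).1 hz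
    obtain ⟨y, hyz', hyI, rfl⟩ := (mem_ck hzI).1 hyz
    obtain ⟨x, hxy', hxI, rfl⟩ := (mem_ck hyI).1 hxy
    obtain ⟨n, rfl⟩ := Gen.mem_om'.1 hn'
    obtain ⟨m1, h3⟩ := (hΓ.sy_mem hD hxI hzI (hxy'.trans hyz') hzl).1 h1
    obtain ⟨m2, h4⟩ := (hΓ.sy_mem hD hyI hzI hyz' hzl).1 h2
    exact (hΓ.sy_mem hD hxI hyI hxy' (hyz'.trans hzl)).2 ⟨max m1 m2,
      hD.c_like x y z n hxy' hyz' hzl _ ((hD.c_ro _ _ _).mono _ _ (Γ.anti (le_max_left _ _)) h3)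
        ((hD.c_ro _ _ _).mono _ _ (Γ.anti (le_max_right _ _)) h4)⟩
  · obtain ⟨n, rfl⟩ := Gen.mem_om'.1 hn'
    obtain ⟨b, hb, rfl⟩ := exists_In' B
    obtain ⟨k1, h1⟩ : ∃ m, ∀ q ≤ Γ.g m, ∀ C : ℕ → Nm P, (∀ i, HS G (C i)) →
        ¬ QQ G D .na b b b C q := by
      rcases hΓ.ev .na b b b hb hb hb with ⟨m, C, hC, x, hx, e0, h⟩ | h
      · exfalso
        have hxI : Γ.In (ck P x) := e0 ▸ hC 0
        obtain ⟨a, ha, hxa, hal⟩ := hun _ ((of_ck_mem hxI hΓ.lam).2 hx)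
        obtain ⟨a, hal', haI, rfl⟩ := (mem_ck hΓ.lam).1 hal
        obtain ⟨l, hl⟩ := (mem_of haI hb).1 ha
        exact h (Γ.g (max m l)) (Γ.anti (le_max_left _ _)) a ((of_ck_mem hxI haI).1 hxa) hal'
          (hl.mono (Γ.anti (le_max_right _ _)))
      · exact h
    obtain ⟨k2, h2⟩ : ∃ m, ∀ q ≤ Γ.g m, ∀ C : ℕ → Nm P, (∀ i, HS G (C i)) →
        ¬ QQ G D (.nb n) b b b C q := by
      rcases hΓ.ev (.nb n) b b b hb hb hb with ⟨m, C, hC, x, y, hxy, hy, e0, e1, h, h', h''⟩ | h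
      · exfalso
        have hxI : Γ.In (ck P x) := e0 ▸ hC 0
        have hyI : Γ.In (ck P y) := e1 ▸ hC 1
        have h3 := hall _ _ ((of_ck_mem hxI hyI).2 hxy) ((of_ck_mem hyI hΓ.lam).2 hy)
          ((mem_of hxI hb).2 ⟨m, h⟩) ((mem_of hyI hb).2 ⟨m, h'⟩)
        obtain ⟨l, hl⟩ := (hΓ.sy_mem hD hxI hyI hxy hy).1 h3
        exact h'' (Γ.g (max m l)) (Γ.anti (le_max_left _ _))
          ((hD.c_ro _ _ _).mono _ _ (Γ.anti (le_max_right _ _)) hl)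
      · exact h
    refine hD.c_nobr n (fun a => fmem (ck P a) b) (fun _ => ro_fmem)
      (fun _ => iv_fmem (hs_ck _) (inHS hb)) (Γ.g (max k1 k2)) (fun x hx q hq => ?_)
      fun x y hxy hy q hq hBx hBy => ?_
    · by_contra hcon
      push Not at hcon
      exact h1 q (hq.trans (Γ.anti (le_max_left _ _))) (fun _ => ck P x) (fun _ => hs_ck _)
        ⟨x, hx, rfl, hcon⟩
    · refine (hD.c_ro _ _ _).dense _ fun r hr => ?_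
      by_contra hcon
      push Not at hcon
      exact h2 r (hr.trans (hq.trans (Γ.anti (le_max_right _ _))))
        (fun i => ck P (six x y x x x x i)) (fun _ => hs_ck _)
        ⟨x, y, hxy, hy, rfl, rfl, hBx.mono hr, hBy.mono hr, hcon⟩

end FullM

end model

theorem exists_model {K G P : Type} [LinearOrder K] [WellFoundedLT K] [Group G] [Preorder P]
    [Nonempty P] [MulAction G P] [OrdAct G P] {w mu lam : K} (h : NSData K G P w mu lam) :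
    ∃ (M : Type) (_ : ZFModel M), AC M ∧
      ∃ mu lam : M, IsSingular mu ∧ IsSuccCard mu lam ∧ TP lam ∧ ¬ NSP lam := by
  obtain ⟨D, hD⟩ := h.exists_gd
  let _ : TopSys G P := topSys G P
  obtain ⟨Γ, hΓ⟩ := exists_full' D hD
  have : Fact Γ.HasOm := ⟨hΓ.hasOm⟩
  have hac := hΓ.ac_of
  exact ⟨Γ.Mod, inferInstance, hac, Γ.of (ck P D.mu), Γ.of (ck P D.lam), hΓ.sing hD,
    hΓ.succ_lam hD, tp_of_coded hac (hΓ.sing hD) (hΓ.succ_lam hD) (hΓ.branch hD),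
    not_nsp_of_coded (hΓ.sing hD) (hΓ.succ_lam hD) (hΓ.csys hD)⟩

end Pool.Agent.helper75.NS
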