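import Pool.Agent.helper75.NS.Choose
import Pool.Agent.helper75.NS.BdP
import Pool.Agent.helper75.NS.Model
import Pool.Agent.helper15.NS.Data

/-!
# The tree property without the narrow system property
-/

namespace Pool.Agent.helper75.NS

open Cardinal Pool.Agent.helper31.ZF

theorem main (κ : Cardinal.{0}) (h : Pool.Agent.helper74.HY.IsVopenka κ) :
    ∃ (M : Type) (_ : ZFModel M), AC M ∧
      ∃ mu lam : M, IsSingular mu ∧ IsSuccCard mu lam ∧ TP lam ∧ ¬ NSP lam := by
  have h0 : κ.ord ≠ 0 := by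
    rw [ne_eq, ord_eq_zero]
    exact (aleph0_pos.trans h.1.1).ne'
  have hne : Nonempty κ.ord.ToType := by
    rw [← mk_ne_zero_iff, mk_ord_toType]
    exact (aleph0_pos.trans h.1.1).ne'
  let _ : Inhabited κ.ord.ToType := Classical.inhabited_of_nonempty hne
  have hK : Ordinal.type (fun x y : κ.ord.ToType => x < y) = κ.ord := Ordinal.type_toType _
  obtain ⟨mu, L, hs, hL, hlim, htp⟩ := exists_tpv hK h
  obtain ⟨w, hw⟩ := nsdata hs hL hlim htp
  have : Nonempty (Pt L) := ⟨⟨∅, empty_Dl L⟩⟩
  exact exists_model hw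

end Pool.Agent.helper75.NS
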