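import Pool.Agent.helper75.NS.Fact

/-!
# Counting conditions; fusion
-/

namespace Pool.Agent.helper75.NS

open Cardinal Set Fa

/-! ### recursion -/

theorem exists_chain {Θ α : Type} [LinearOrder Θ] [WellFoundedLT Θ] [Nonempty α]
    (R : (x : Θ) → ((y : Θ) → y < x → α) → α → Prop)
    (h : ∀ x (prev : (y : Θ) → y < x → α),
      (∀ y (hy : y < x), R y (fun z hz => prev z (hz.trans hy)) (prev y hy)) →
        ∃ a, R x prev a) :
    ∃ d : Θ → α, ∀ x, R x (fun y _ => d y) (d x) := by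
  classical
  let F : (x : Θ) → ((y : Θ) → y < x → α) → α := fun x prev =>
    if h : ∃ a, R x prev a then h.choose else Classical.arbitrary α
  let d : Θ → α := (wellFounded_lt (α := Θ)).fix F
  have hd : ∀ x, d x = F x (fun y _ => d y) := fun x => WellFounded.fix_eq _ _ _
  refine ⟨d, fun x => ?_⟩
  induction x using WellFoundedLT.induction with
  | ind x ih =>
    have hex := h x (fun y _ => d y) (fun y hy => ih y hy)
    have h1 : d x = hex.choose := by
      rw [hd x]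
      exact dif_pos hex
    have h2 := hex.choose_spec
    rw [← h1] at h2
    exact h2

section K

variable {K : Type} [LinearOrder K] [WellFoundedLT K] [Inhabited K]

/-! ### counting -/

theorem card_wf {c : Cardinal.{0}} (hc : ℵ₀ ≤ c) (ν : K) (hν : #(Iio ν) ≤ c) :
    #{f : Fa K | Wf f ∧ f.st ≤ ν} ≤ 2 ^ c := by
  classical
  induction ν using WellFoundedLT.induction with
  | ind ν ih =>
    have h2 : ℵ₀ ≤ (2 : Cardinal.{0}) ^ c := hc.trans (cantor c).le
    have hcc : c ≤ 2 ^ c := (cantor c).le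
    let B : Set (Fa K) := {f | Wf f ∧ f.st < ν}
    have hB : #B ≤ 2 ^ c := by
      have h3 : B ⊆ ⋃ x : Iio ν, {f : Fa K | Wf f ∧ f.st ≤ (x : K)} := fun f hf =>
        mem_iUnion.2 ⟨⟨f.st, hf.2⟩, hf.1, le_rfl⟩
      refine (mk_le_mk_of_subset h3).trans ((mk_iUnion_le _).trans ?_)
      refine (mul_le_mul' (hν.trans hcc) (ciSup_le' fun x => ?_)).trans (mul_eq_self h2).le
      exact ih x x.2 ((card_mono (le_of_lt x.2)).trans hν)
    let C : Set (Fa K) := {f | Wf f ∧ f.st = ν}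
    have hC : #C ≤ 2 ^ c := by
      let N : Set (Fa K) := insert nil B
      have hN : #N ≤ 2 ^ c := mk_insert_le.trans
        ((add_le_add hB (one_lt_aleph0.le.trans h2)).trans (add_eq_self h2).le)
      let F : C → Iio ν × ℕ × Bool × Iio ν × (Iio ν → N) := fun f =>
        (⟨f.1.xi, f.2.2 ▸ f.2.1.xi_lt⟩, f.1.nn, f.1.bb, ⟨f.1.ln, f.2.2 ▸ f.2.1.ln_lt⟩,
          fun i => ⟨f.1.en i, by
            rcases lt_or_ge (i : K) f.1.ln with h | h
            · refine Or.inr ⟨((wf_iff.1 f.2.1).2.2.2.2.1 i h).1, ?_⟩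
              have := ((wf_iff.1 f.2.1).2.2.2.2.1 i h).2
              rwa [f.2.2] at this
            · exact Or.inl ((wf_iff.1 f.2.1).2.2.2.2.2 i h)⟩)
      have hF : Function.Injective F := by
        rintro ⟨f, hf, hf'⟩ ⟨g, hg, hg'⟩ h
        simp only [F, Prod.mk.injEq, Subtype.mk.injEq] at h
        obtain ⟨h3, h4, h5, h6, h7⟩ := h
        refine Subtype.ext (ext' hf.ne hg.ne (hf'.trans hg'.symm) h3 h4 h5 h6 fun i => ?_)
        rcases lt_or_ge i ν with hi | hi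
        · have := congrFun h7 ⟨i, hi⟩
          exact congrArg Subtype.val this
        · have e1 : f.en i = nil := (wf_iff.1 hf).2.2.2.2.2 i
            (le_of_lt ((wf_iff.1 hf).2.2.2.1.trans_le (hf' ▸ hi)))
          have e2 : g.en i = nil := (wf_iff.1 hg).2.2.2.2.2 i
            (le_of_lt ((wf_iff.1 hg).2.2.2.1.trans_le (hg' ▸ hi)))
          rw [e1, e2]
      refine (mk_le_of_injective hF).trans ?_
      simp only [mk_prod, lift_id, mk_nat, mk_bool, mk_pi, prod_const]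
      have h3 : #N ^ #(Iio ν) ≤ 2 ^ c := by
        refine (power_le_power_right hN).trans ?_
        rw [← power_mul]
        refine power_le_power_left two_ne_zero ?_
        exact (mul_le_mul' le_rfl hν).trans (mul_eq_self hc).le
      have h4 : #(Iio ν) ≤ 2 ^ c := hν.trans hcc
      refine (mul_le_mul' h4 (mul_le_mul' h2 (mul_le_mul' ((natCast_lt_aleph0 (n := 2)).le.trans h2)
        (mul_le_mul' h4 h3)))).trans ?_
      rw [mul_eq_self h2, mul_eq_self h2, mul_eq_self h2, mul_eq_self h2]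
    have h3 : {f : Fa K | Wf f ∧ f.st ≤ ν} ⊆ B ∪ C := by
      rintro f ⟨hf, hf'⟩
      rcases hf'.lt_or_eq with h | h
      · exact Or.inl ⟨hf, h⟩
      · exact Or.inr ⟨hf, h⟩
    exact (mk_le_mk_of_subset h3).trans ((mk_union_le _ _).trans
      ((add_le_add hB hC).trans (add_eq_self h2).le))

/-- Conditions with all stages at most `b`. -/
def Dl (b : K) : Set (Set (Fa K)) := {p | Cd p ∧ ∀ f ∈ p, f.st ≤ b}

theorem card_Dl {c : Cardinal.{0}} (hc : ℵ₀ ≤ c) (b : K) (hb : #(Iio b) ≤ c) :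
    #(Dl b) ≤ 2 ^ (2 : Cardinal.{0}) ^ c := by
  have h1 : Dl b ⊆ 𝒫 {f : Fa K | Wf f ∧ f.st ≤ b} := fun p hp f hf => ⟨hp.1.wf f hf, hp.2 f hf⟩
  refine (mk_le_mk_of_subset h1).trans ?_
  rw [mk_powerset]
  exact power_le_power_left two_ne_zero (card_wf hc b hb)

/-- `b` is good: the next stage is far above `b`. -/
def Gd (b : K) : Prop := ℵ₀ ≤ #(Iio b) ∧ ∀ ν : K, InA ν → b < ν →
  ∃ s, InS s ∧ IsSuc s ν ∧ #(Iio b) < #(Iio s)

omit [WellFoundedLT K] [Inhabited K] in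
theorem IsSuc.gd {y b : K} (h : IsSuc y b) (hy : ℵ₀ ≤ #(Iio y)) : Gd b := by
  refine ⟨hy.trans (card_mono h.lt.le), ?_⟩
  rintro ν ⟨s, hs, hν⟩ hb
  refine ⟨s, hs, hν, lt_of_le_of_ne (hν.lt_iff.1 hb) fun e => ?_⟩
  have := ini_eq h.ini hs.ini e
  subst this
  exact hs.not_suc h

omit [WellFoundedLT K] [Inhabited K] in
theorem InS.two_two {s : K} (hs : InS s) {c : Cardinal.{0}} (h : c < #(Iio s)) :
    2 ^ (2 : Cardinal.{0}) ^ c < #(Iio s) :=
  hs.sl.isStrongPrelimit (hs.sl.isStrongPrelimit h)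

/-- `b` is followed by few conditions before the regular cardinal `r`. -/
theorem Gd.card {b r : K} (hb : Gd b) (hr : ∃ ν : K, InA ν ∧ b < ν ∧ ν ≤ r) :
    #(Iio b × Dl b) < #(Iio r) := by
  obtain ⟨ν, hν, hbν, hνr⟩ := hr
  obtain ⟨s, hs, hsν, hbs⟩ := hb.2 ν hν hbν
  have h1 : #(Dl b) < #(Iio s) := (card_Dl hb.1 b le_rfl).trans_lt (hs.two_two hbs)
  rw [mk_prod, lift_id, lift_id]
  exact (mul_lt_of_lt hs.inf hbs h1).trans_le (card_mono (hsν.lt.le.trans hνr))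

/-- In a strong limit, good elements are cofinal. -/
theorem InS.exists_gd {s x : K} (hs : InS s) (hx : x < s) : ∃ b < s, x < b ∧ Gd b := by
  obtain ⟨y, hy, hxy, hyi⟩ : ∃ y < s, x ≤ y ∧ ℵ₀ ≤ #(Iio y) := by
    obtain ⟨z, hz, h1, _⟩ := exists_card_eq hs.unc
    rcases le_total x z with h | h
    · exact ⟨z, hz, h, h1.ge⟩
    · exact ⟨x, hx, le_rfl, h1.ge.trans (card_mono h)⟩
  have h1 : Order.succ #(Iio y) < #(Iio s) :=
    (Order.succ_le_of_lt (cantor _)).trans_lt (hs.two hy)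
  obtain ⟨b, hb, h2, h3⟩ := exists_card_eq h1
  have h4 : IsSuc y b := ⟨h2, h3⟩
  exact ⟨b, hb, hxy.trans_lt h4.lt, h4.gd hyi⟩

/-! ### fusion -/

section fusion

variable {Θ : Type} [LinearOrder Θ] [WellFoundedLT Θ]

/-- The condition built from the recorded conditions `r t`, `t ∈ U`. -/
def QU (p : Set (Fa K)) (bt : Θ → K) (r : Θ → Set (Fa K)) (U : Set Θ) : Set (Fa K) :=
  p ∪ ⋃ t ∈ U, sh (bt t) (r t)

theorem QU_mono {p : Set (Fa K)} {bt : Θ → K} {r : Θ → Set (Fa K)} {U V : Set Θ} (h : U ⊆ V) :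
    QU p bt r U ⊆ QU p bt r V :=
  union_subset_union_right _ (biUnion_subset_biUnion_left h)

theorem sub_QU {p : Set (Fa K)} {bt : Θ → K} {r : Θ → Set (Fa K)} {U : Set Θ} :
    p ⊆ QU p bt r U := subset_union_left

theorem sh_sub_QU {p : Set (Fa K)} {bt : Θ → K} {r : Θ → Set (Fa K)} {U : Set Θ} {t : Θ}
    (ht : t ∈ U) : sh (bt t) (r t) ⊆ QU p bt r U := fun f hf =>
  Or.inr (mem_iUnion₂.2 ⟨t, ht, hf⟩)

/-- Few steps below each regular cardinal. -/
def Few (bt : Θ → K) : Prop :=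
  ∀ r : K, IsReg r → #{t : Θ | ∃ ν : K, InA ν ∧ bt t < ν ∧ ν ≤ r} < #(Iio r)

theorem QU_sp {p : Set (Fa K)} {bt : Θ → K} {r : Θ → Set (Fa K)} {U : Set Θ} (hp : Sp p)
    (hf : Few bt) (hr : ∀ t ∈ U, Cd (r t)) : Sp (QU p bt r U) := by
  intro c hc
  have h1 : le c (QU p bt r U) ⊆ le c p ∪
      ⋃ t ∈ {t : Θ | ∃ ν : K, InA ν ∧ bt t < ν ∧ ν ≤ c}, ⋃ _ : t ∈ U, le c (sh (bt t) (r t)) := by
    rintro f ⟨hf | hf, hfc⟩
    · exact Or.inl ⟨hf, hfc⟩
    · obtain ⟨t, ht, hft⟩ := mem_iUnion₂.1 hf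
      refine Or.inr (mem_iUnion₂.2 ⟨t, ⟨f.st, (sh_wf (hr t ht) hft).inA, sh_st hft, hfc⟩,
        mem_iUnion.2 ⟨ht, hft, hfc⟩⟩)
  refine sm_mono h1 (sm_union hc.reg.aleph0_le (hp c hc) (sm_biUnion hc.reg (hf c hc) ?_))
  intro t _
  by_cases ht : t ∈ U
  · simp only [ht, iUnion_true]
    exact sh_sp (hr t ht).sp c hc
  · simp only [ht, iUnion_false]
    exact (lt_aleph0_iff_set_finite.2 finite_empty).trans_le hc.reg.aleph0_le

theorem QU_cd_aux {p : Set (Fa K)} {bt : Θ → K} {r : Θ → Set (Fa K)} {U : Set Θ} (hp : Cd p)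
    (hf : Few bt) (hd : ∀ t ∈ U, Iio t ⊆ U)
    (hU : ∀ t ∈ U, Cd (r t) ∧ (r t = ∅ ∨ QU p bt r (Iio t) ⊆ r t))
    (hQ : ∀ t ∈ U, Cd (QU p bt r (Iio t))) : Cd (QU p bt r U) := by
  refine Cd.mk' ?_ (QU_sp hp.sp hf fun t ht => (hU t ht).1) ?_
  · rintro f (hf | hf)
    · exact hp.wf f hf
    · obtain ⟨t, ht, hft⟩ := mem_iUnion₂.1 hf
      exact sh_wf (hU t ht).1 hft
  · have key : ∀ t ∈ U, Cd (QU p bt r (Iio t) ∪ sh (bt t) (r t)) := by
      intro t ht
      rcases (hU t ht).2 with h | h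
      · have e : sh (bt t) (r t) = ∅ := by
          rw [h]
          refine eq_empty_of_forall_notMem fun x hx => ?_
          obtain ⟨f, hf, _⟩ := hx
          exact hf
        rw [e, union_empty]
        exact hQ t ht
      · exact (hQ t ht).fuse (hU t ht).1 h
    have hsub : ∀ t ∈ U, QU p bt r (Iio t) ∪ sh (bt t) (r t) ⊆ QU p bt r U := fun t ht =>
      union_subset (QU_mono (hd t ht)) (sh_sub_QU ht)
    intro f hfQ g hgQ hc s hs h1 h2 h3 h4
    have hV : ∃ V, Cd V ∧ V ⊆ QU p bt r U ∧ f ∈ V ∧ g ∈ V := by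
      have hpos : ∀ x ∈ QU p bt r U, x ∈ p ∨ ∃ t ∈ U, x ∈ sh (bt t) (r t) := by
        rintro x (hx | hx)
        · exact Or.inl hx
        · obtain ⟨t, ht, hx⟩ := mem_iUnion₂.1 hx
          exact Or.inr ⟨t, ht, hx⟩
      have hin : ∀ x t, x ∈ p ∨ x ∈ sh (bt t) (r t) →
          x ∈ QU p bt r (Iio t) ∪ sh (bt t) (r t) := by
        rintro x t (hx | hx)
        · exact Or.inl (sub_QU hx)
        · exact Or.inr hx
      rcases hpos f hfQ with hfp | ⟨t, ht, hft⟩ <;> rcases hpos g hgQ with hgp | ⟨t', ht', hgt⟩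
      · exact ⟨p, hp, sub_QU, hfp, hgp⟩
      · exact ⟨_, key t' ht', hsub t' ht', hin _ _ (Or.inl hfp), hin _ _ (Or.inr hgt)⟩
      · exact ⟨_, key t ht, hsub t ht, hin _ _ (Or.inr hft), hin _ _ (Or.inl hgp)⟩
      · rcases lt_trichotomy t t' with h | rfl | h
        · exact ⟨_, key t' ht', hsub t' ht', Or.inl (sh_sub_QU (mem_Iio.2 h) hft), Or.inr hgt⟩
        · exact ⟨_, key t ht, hsub t ht, Or.inr hft, Or.inr hgt⟩
        · exact ⟨_, key t ht, hsub t ht, Or.inr hft, Or.inl (sh_sub_QU (mem_Iio.2 h) hgt)⟩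
    obtain ⟨V, hV, hVU, hfV, hgV⟩ := hV
    exact hV.val hfV hgV hc hs h1 ((lo_mono hVU).trans h2) h3 h4

theorem QU_cd {p : Set (Fa K)} {bt : Θ → K} {r : Θ → Set (Fa K)} {U : Set Θ} (hp : Cd p)
    (hf : Few bt) (hd : ∀ t ∈ U, Iio t ⊆ U)
    (hU : ∀ t ∈ U, Cd (r t) ∧ (r t = ∅ ∨ QU p bt r (Iio t) ⊆ r t)) : Cd (QU p bt r U) := by
  have h1 : ∀ t, t ∈ U → Cd (QU p bt r (Iio t)) := by
    intro t
    induction t using WellFoundedLT.induction with
    | ind t ih =>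
      intro ht
      exact QU_cd_aux hp hf (fun x hx => Iio_subset_Iio (le_of_lt hx))
        (fun x hx => hU x (hd t ht hx)) fun x hx => ih x hx (hd t ht hx)
  exact QU_cd_aux hp hf hd hU h1

open Classical in
/-- Fusion. -/
theorem fusion {X : Type} [Nonempty X] (bt : Θ → K) (hf : Few bt) {p : Set (Fa K)} (hp : Cd p)
    (T : (t : Θ) → (Θ → Set (Fa K) × X) → Set (Fa K) × X → Prop)
    (hloc : ∀ t d d' a, (∀ x < t, d x = d' x) → T t d a → T t d' a)
    (hT1 : ∀ t d a, T t d a → Cd a.1 ∧ (a.1 = ∅ ∨ QU p bt (fun x => (d x).1) (Iio t) ⊆ a.1))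
    (hT2 : ∀ t d, Cd (QU p bt (fun x => (d x).1) (Iio t)) → (∀ x < t, T x d (d x)) →
      ∃ a, T t d a) :
    ∃ d : Θ → Set (Fa K) × X, (∀ t, T t d (d t)) ∧
      (∀ t, Cd (QU p bt (fun x => (d x).1) (Iio t))) ∧ Cd (QU p bt (fun x => (d x).1) univ) := by
  have hne : Nonempty (Set (Fa K) × X) := inferInstance
  let ex : (t : Θ) → ((y : Θ) → y < t → Set (Fa K) × X) → Θ → Set (Fa K) × X :=
    fun t prev y => if h : y < t then prev y h else Classical.arbitrary _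
  have hex : ∀ t prev y (h : y < t), ex t prev y = prev y h := fun t prev y h => dif_pos h
  obtain ⟨d, hd⟩ := exists_chain (Θ := Θ) (α := Set (Fa K) × X)
    (fun t prev a => T t (ex t prev) a) (by
      intro t prev hprev
      have h1 : ∀ x < t, T x (ex t prev) (ex t prev x) := by
        intro x hx
        have h2 := hprev x hx
        rw [← hex t prev x hx] at h2
        refine hloc _ _ _ _ (fun y hy => ?_) h2
        exact (hex x (fun z hz => prev z (hz.trans hx)) y hy).trans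
          (hex t prev y (hy.trans hx)).symm
      refine hT2 t _ (QU_cd hp hf (fun x hx => Iio_subset_Iio (le_of_lt hx)) fun x hx => ?_) h1
      exact hT1 _ _ _ (h1 x hx))
  have hd' : ∀ t, T t d (d t) := fun t => hloc _ _ _ _ (fun y hy => hex t (fun y _ => d y) y hy) (hd t)
  refine ⟨d, hd', fun t => QU_cd hp hf (fun x hx => Iio_subset_Iio (le_of_lt hx))
    fun x _ => hT1 _ _ _ (hd' x), QU_cd hp hf (fun _ _ => subset_univ _) fun x _ =>
    hT1 _ _ _ (hd' x)⟩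

end fusion

end K

end Pool.Agent.helper75.NS
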