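import Pool.Agent.helper75.NS.Tree

/-!
# Lifts and master conditions
-/

namespace Pool.Agent.helper75.NS

open Cardinal Set Fa

section K

variable {K : Type} [LinearOrder K] [WellFoundedLT K] [Inhabited K]

/-- Names of relations. -/
abbrev Rn (K : Type) : Type := K → K → K → K → Set (Set (Fa K))

/-- The relation name lives on elements up to `L`. -/
def Bdr (L : K) (R : Rn K) : Prop :=
  ∀ a i c k, (∀ p ∈ R a i c k, p ∈ Dl L) ∧ ((R a i c k).Nonempty → a ≤ L ∧ i ≤ L ∧ c ≤ L ∧ k ≤ L)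

/-- `u` forces that no two nodes below `z` of the levels `a`, `c` are related. -/
def Neg (L : K) (R : Rn K) (u : Set (Fa K)) (a c z : K) : Prop :=
  ∀ i < z, ∀ k < z, ∀ v ∈ Dl L, u ⊆ v → v ∉ R a i c k

/-- `u` forces that `(a, i)`, `(c, i)` are not related. -/
def Neg1 (L : K) (R : Rn K) (u : Set (Fa K)) (a c i : K) : Prop :=
  ∀ v ∈ Dl L, u ⊆ v → v ∉ R a i c i

/-- The name `I` of a set of levels is upward closed. -/
def Upc (L : K) (I : Rn K) : Prop := ∀ a, ∀ u ∈ I a a a a, ∀ v ∈ Dl L, u ⊆ v → v ∈ I a a a a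

/-- `p` forces that the levels in `I` form a narrow system. -/
def Nar (L : K) (R I : Rn K) (p : Set (Fa K)) (z : K) : Prop :=
  ∀ a c, a < c → c < L → ∀ u ∈ Dl L, p ⊆ u → u ∈ I a a a a → u ∈ I c c c c →
    ∃ v ∈ Dl L, u ⊆ v ∧ ∃ i < z, ∃ k < z, v ∈ R a i c k

/-- `p` forces that `I` is unbounded. -/
def Unb (L : K) (I : Rn K) (p : Set (Fa K)) : Prop :=
  ∀ x < L, ∀ u ∈ Dl L, p ⊆ u → ∃ v ∈ Dl L, u ⊆ v ∧ ∃ a, x < a ∧ a < L ∧ v ∈ I a a a a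

/-- A lift: the action of an elementary embedding with critical point `k` that maps `k` above
`L`. -/
structure Lf (mu L k mu' L' : K) (j : K → K) (e : Set (Fa K) → Set (Fa K)) (E : Rn K → Rn K) :
    Prop where
  hs : InS mu
  hL : IsSuc mu L
  kmu : k < mu
  hs' : InS mu'
  hL' : IsSuc mu' L'
  jmu : j mu = mu'
  jL : j L = L'
  mono : ∀ x y, y ≤ L → x < y → j x < j y
  fix : ∀ x < k, j x = x
  big : L < j k
  big' : #(Dl L) < #(Iio (j k))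
  dl : ∀ q ∈ Dl L, e q ∈ Dl L'
  sub : ∀ q ∈ Dl L, ∀ q' ∈ Dl L, q ⊆ q' → e q ⊆ e q'
  low : ∀ q ∈ Dl L, lo (j k) (e q) = lo k q
  sup : ∀ t < k, ∀ f : K → K, (∀ i < t, f i ≤ L) → ∀ x ≤ L, (∀ y < x, ∃ i < t, y ≤ f i) →
    ∀ y < j x, ∃ i < t, y ≤ j (f i)
  ro : ∀ R, Bdr L R → (∀ a i c k, Ro L (R a i c k)) → ∀ a i c k, Ro L' (E R a i c k)
  tr : ∀ R, Bdr L R → ∀ p ∈ Dl L, Tr mu L R p → Tr mu' L' (E R) (e p)
  neg : ∀ R, Bdr L R → ∀ u ∈ Dl L, ∀ a ≤ L, ∀ c ≤ L, ∀ z ≤ L, Neg L R u a c z →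
    Neg L' (E R) (e u) (j a) (j c) (j z)
  neg1 : ∀ R, Bdr L R → ∀ u ∈ Dl L, ∀ a ≤ L, ∀ c ≤ L, ∀ i ≤ L, Neg1 L R u a c i →
    Neg1 L' (E R) (e u) (j a) (j c) (j i)
  upc : ∀ I, Bdr L I → Upc L I → Upc L' (E I)
  nar : ∀ R, Bdr L R → ∀ I, Bdr L I → ∀ u ∈ Dl L, ∀ z ≤ L, Nar L R I u z →
    Nar L' (E R) (E I) (e u) (j z)
  unb : ∀ I, Bdr L I → ∀ u ∈ Dl L, Unb L I u → Unb L' (E I) (e u)
  mem : ∀ I, Bdr L I → ∀ u ∈ Dl L, ∀ a ≤ L, u ∈ I a a a a → e u ∈ E I (j a) (j a) (j a) (j a)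

variable {mu L k mu' L' : K} {j : K → K} {e : Set (Fa K) → Set (Fa K)} {E : Rn K → Rn K}

/-- The master condition. -/
def Ms (L k : K) (j : K → K) (e : Set (Fa K) → Set (Fa K)) : Set (Fa K) :=
  {g | ∃ q ∈ Dl L, ∃ f ∈ e q, j k ≤ f.st ∧ g = f.reP (f.pre ∪ q)}

namespace Lf

theorem jk_lt (h : Lf mu L k mu' L' j e E) : j k < mu' := by
  rw [← h.jmu]
  exact h.mono _ _ h.hL.lt.le h.kmu

theorem L_lt (h : Lf mu L k mu' L' j e E) : L < mu' := h.big.trans h.jk_lt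

theorem L_lt' (h : Lf mu L k mu' L' j e E) : L < L' := h.L_lt.trans h.hL'.lt

theorem reg (h : Lf mu L k mu' L' j e E) : IsReg L := h.hL.reg h.hs.inf

theorem reg' (h : Lf mu L k mu' L' j e E) : IsReg L' := h.hL'.reg h.hs'.inf

theorem q_card (h : Lf mu L k mu' L' j e E) {q : Set (Fa K)} (hq : q ∈ Dl L) :
    #q < #(Iio L) := sm_mono (t := le L q) (fun f hf => ⟨hf, hq.2 f hf⟩) (hq.1.sp L h.reg)

theorem spec (h : Lf mu L k mu' L' j e E) {q : Set (Fa K)} (hq : q ∈ Dl L) {f : Fa K}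
    (hf : f ∈ e q) (hk : j k ≤ f.st) : Wf (f.reP (f.pre ∪ q)) ∧ Sim f (f.reP (f.pre ∪ q)) ∧
      (f.reP (f.pre ∪ q)).pre = f.pre ∪ q := by
  have hw := (h.dl q hq).1.wf f hf
  refine reP_spec hw ?_ ?_
  · rintro g (hg | hg)
    · exact hw.pre hg
    · exact ⟨hq.1.wf g hg, (hq.2 g hg).trans_lt (h.big.trans_le hk)⟩
  · exact sm_union hw.inA.reg.reg.aleph0_le (pre_card hw)
      ((h.q_card hq).trans_le (card_mono (h.big.le.trans hk)))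

/-- The facts of the image of `q` are implied by the master condition and `q`. -/
theorem implied (h : Lf mu L k mu' L' j e E) {q t : Set (Fa K)} (hq : q ∈ Dl L) (ν : K)
    (hm : lo ν (Ms L k j e) ⊆ t) (hqt : q ⊆ t) {x : Fa K} (hx : x ∈ e q) (hxν : x.st < ν) :
    ∃ g ∈ t, Sim x g ∧ g.pre ⊆ x.pre ∪ lo x.st t := by
  rcases lt_or_ge x.st (j k) with hk | hk
  · have h1 : x ∈ lo k q := by
      rw [← h.low q hq]
      exact ⟨hx, hk⟩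
    exact ⟨x, hqt h1.1, Sim.refl x, subset_union_left⟩
  · obtain ⟨h1, h2, h3⟩ := h.spec hq hx hk
    refine ⟨_, hm ⟨⟨q, hq, x, hx, hk, rfl⟩, ?_⟩, h2, ?_⟩
    · rw [← h2.1]
      exact hxν
    · rw [h3]
      exact union_subset_union_right _ fun y hy =>
        ⟨hqt hy, (hq.2 y hy).trans_lt (h.big.trans_le hk)⟩

theorem ms_st (_h : Lf mu L k mu' L' j e E) {x : Fa K} (hx : x ∈ Ms L k j e) : j k ≤ x.st := by
  obtain ⟨q, hq, f, hf, hk, rfl⟩ := hx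
  rw [← (reP_sim f _).1]
  exact hk

theorem ms_cd (h : Lf mu L k mu' L' j e E) : Ms L k j e ∈ Dl L' := by
  refine ⟨Cd.mk' ?_ ?_ ?_, ?_⟩
  · rintro _ ⟨q, hq, f, hf, hk, rfl⟩
    exact (h.spec hq hf hk).1
  · intro r hr
    rcases lt_or_ge r (j k) with hk | hk
    · have : le r (Ms L k j e) = ∅ := by
        refine eq_empty_of_forall_notMem fun x hx => ?_
        exact absurd ((h.ms_st hx.1).trans hx.2) (not_le.2 hk)
      rw [this]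
      exact (lt_aleph0_iff_set_finite.2 finite_empty).trans_le hr.reg.aleph0_le
    · have h1 : le r (Ms L k j e) ⊆ ⋃ q ∈ Dl L, (fun f : Fa K => f.reP (f.pre ∪ q)) ''
          (le r (e q)) := by
        rintro _ ⟨⟨q, hq, f, hf, hk, rfl⟩, hx⟩
        refine mem_iUnion₂.2 ⟨q, hq, f, ⟨hf, ?_⟩, rfl⟩
        rw [(reP_sim f _).1]
        exact hx
      refine sm_mono h1 (sm_biUnion hr.reg (h.big'.trans_le (card_mono hk)) fun q hq => ?_)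
      exact sm_image _ ((h.dl q hq).1.sp r hr)
  · rintro _ ⟨q1, hq1, f1, hf1, hk1, rfl⟩ _ ⟨q2, hq2, f2, hf2, hk2, rfl⟩ hc t ht h1 h2 h3 h4
    obtain ⟨a1, a2, a3⟩ := h.spec hq1 hf1 hk1
    obtain ⟨b1, b2, b3⟩ := h.spec hq2 hf2 hk2
    rw [a3] at h3
    rw [b3] at h4
    rw [← a2.1] at h1 h2
    have hc' : Cf f1 f2 := hc.sim a2.symm b2.symm
    let q := NS.le L t
    have hq : q ∈ Dl L := ⟨ht.le L, fun f hf => hf.2⟩
    have hs1 : q1 ⊆ q := fun x hx => ⟨h3 (Or.inr hx), hq1.2 x hx⟩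
    have hs2 : q2 ⊆ q := fun x hx => ⟨h4 (Or.inr hx), hq2.2 x hx⟩
    have hr : Cd (t ∪ NS.lo f1.st (e q)) := by
      refine ht.implied (fun f hf => (h.dl q hq).1.wf f hf.1) ((h.dl q hq).1.sp.mono lo_sub)
        fun x hx => ?_
      exact h.implied hq _ h2 le_sub hx.1 hx.2
    refine (h.dl q hq).1.val (h.sub _ hq1 _ hq hs1 hf1) (h.sub _ hq2 _ hq hs2 hf2) hc' hr ?_
      subset_union_right ?_ ?_
    · rintro x (hx | hx)
      · exact h1 x hx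
      · exact hx.2
    · exact (subset_union_left.trans h3).trans subset_union_left
    · exact (subset_union_left.trans h4).trans subset_union_left
  · rintro _ ⟨q, hq, f, hf, hk, rfl⟩
    rw [← (reP_sim f _).1]
    exact (h.dl q hq).2 f hf

/-- A condition that contains the master condition and `q` is compatible with the image of `q`. -/
theorem union_e (h : Lf mu L k mu' L' j e E) {q t : Set (Fa K)} (hq : q ∈ Dl L)
    (ht : t ∈ Dl L') (hm : Ms L k j e ⊆ t) (hqt : q ⊆ t) : t ∪ e q ∈ Dl L' := by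
  refine Dl.union (ht.1.implied (h.dl q hq).1.wf (h.dl q hq).1.sp fun x hx => ?_) ht (h.dl q hq)
  obtain ⟨ν, _, hν⟩ : ∃ ν : K, True ∧ ∀ x ∈ e q, x.st ≤ ν := ⟨L', trivial, (h.dl q hq).2⟩
  rcases lt_or_ge x.st (j k) with hk | hk
  · have h1 : x ∈ lo k q := by
      rw [← h.low q hq]
      exact ⟨hx, hk⟩
    exact ⟨x, hqt h1.1, Sim.refl x, subset_union_left⟩
  · obtain ⟨h1, h2, h3⟩ := h.spec hq hx hk
    refine ⟨_, hm ⟨q, hq, x, hx, hk, rfl⟩, h2, ?_⟩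
    rw [h3]
    exact union_subset_union_right _ fun y hy =>
      ⟨hqt hy, (hq.2 y hy).trans_lt (h.big.trans_le hk)⟩

/-- Adding a small condition to a tail. -/
theorem tail_union {LL : K} (hLL : L ≤ LL) {u b : Set (Fa K)} (hu : u ∈ Dl L) (hb : b ∈ Dl LL)
    (hbL : ∀ f ∈ b, L < f.st) : u ∪ b ∈ Dl LL := by
  have h1 : Cd (b ∪ u) := hb.1.union_le hu.1 hu.2 fun f hf => absurd hf.2 (not_le.2 (hbL f hf.1))
  rw [union_comm] at h1
  exact Dl.union h1 (Dl.mono hLL hu) hb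

/-- Deciding `L` many statements by a tail, modulo the small part. -/
theorem decide_tail {LL : K} (hLL : L ≤ LL) (hs : InS mu) (hL : IsSuc mu L)
    (D : K → Set (Set (Fa K))) {b : Set (Fa K)} (hb : b ∈ Dl LL) (hbL : ∀ f ∈ b, L < f.st) :
    ∃ q ∈ Dl LL, b ⊆ q ∧ (∀ f ∈ q, L < f.st) ∧ ∀ x < L, ∀ u ∈ Dl L,
      (∃ r ∈ D x, r ∈ Dl LL ∧ u ⊆ r ∧ q ⊆ r) → ∃ u' ∈ Dl L, u ⊆ u' ∧ ∃ r ∈ D x, r ∈ Dl LL ∧
        ∀ v ∈ Dl LL, u' ⊆ v → q ⊆ v → v ∪ r ∈ Dl LL := by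
  have hg : Gd L := hL.gd hs.inf
  have hfew : Few (fun _ : Iio L => L) := by
    intro r hr
    by_cases hex : ∃ ν : K, InA ν ∧ L < ν ∧ ν ≤ r
    · obtain ⟨ν, h1, h2, h3⟩ := hex
      have h4 : #{_t : Iio L | ∃ ν : K, InA ν ∧ L < ν ∧ ν ≤ r} ≤ #(Iio L) := mk_set_le _
      exact h4.trans_lt ((h1.reg.ini _ h2).trans_le (card_mono h3))
    · have : {_t : Iio L | ∃ ν : K, InA ν ∧ L < ν ∧ ν ≤ r} = ∅ :=
        eq_empty_of_forall_notMem fun x hx => hex hx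
      rw [this]
      exact (lt_aleph0_iff_set_finite.2 finite_empty).trans_le hr.reg.aleph0_le
  obtain ⟨q, hq, hbq, hqs, Rec, _, h2, h3⟩ := decide_all (fun _ : Iio L => L) (fun _ => hg) hfew LL
    (fun x : Iio L => D x) hb
  have hqL : ∀ f ∈ q, L < f.st := fun f hf => by
    rcases hqs f hf with h | ⟨_, h⟩
    · exact hbL f h
    · exact h
  refine ⟨q, hq, hbq, hqL, fun x hx u hu hex => ?_⟩
  obtain ⟨r0, hr0, hr0L, hur0, hqr0⟩ := hex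
  have hU : u ∪ q ∈ Dl LL := tail_union hLL hu hq hqL
  obtain ⟨r, hr, h4, _, _⟩ := h3 ⟨x, hx⟩ (u ∪ q) hU subset_union_right
    ⟨r0, hr0, hr0L, union_subset hur0 hqr0⟩
  obtain ⟨h5, h6, _, h7⟩ := h2 _ r hr
  refine ⟨NS.le L r, Dl.le h6, fun f hf => ⟨h4 ⟨Or.inl hf, hu.2 f hf⟩, hu.2 f hf⟩, r, h5, h6,
    fun v hv hrv hqv => ?_⟩
  exact Dl.union (hv.1.union_sh h6.1 (h7.trans hqv) hrv) hv h6

end Lf

/-- Pigeonhole for countably many names of subsets of `L`. -/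
theorem unb_nat (hL : IsReg L) (A : ℕ → K → Set (Set (Fa K)))
    (hA : ∀ n x, ∀ u ∈ A n x, ∀ v ∈ Dl L, u ⊆ v → v ∈ A n x) {p : Set (Fa K)} (hp : p ∈ Dl L)
    (h : ∀ x < L, ∀ u ∈ Dl L, p ⊆ u → ∃ v ∈ Dl L, u ⊆ v ∧ ∃ n, v ∈ A n x) :
    ∃ q ∈ Dl L, p ⊆ q ∧ ∃ n, ∀ x < L, ∀ u ∈ Dl L, q ⊆ u → ∃ v ∈ Dl L, u ⊆ v ∧
      ∃ a, x < a ∧ a < L ∧ v ∈ A n a := by
  by_contra hcon
  push Not at hcon
  have h3 : ∀ (i : ℕ) (q : {q : Set (Fa K) // q ∈ Dl L ∧ p ⊆ q}), ∃ x < L,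
      ∃ r : {q : Set (Fa K) // q ∈ Dl L ∧ p ⊆ q}, q.1 ⊆ r.1 ∧ ∀ s ∈ Dl L, r.1 ⊆ s →
        ∀ a, x < a → a < L → s ∉ A i a := by
    rintro i ⟨q, hq, hpq⟩
    obtain ⟨x, hx, r, hr, hqr, h4⟩ := hcon q hq hpq i
    exact ⟨x, hx, ⟨r, hr, hpq.trans hqr⟩, hqr, h4⟩
  choose X hX F hF hFB using h3
  let g : ℕ → {q : Set (Fa K) // q ∈ Dl L ∧ p ⊆ q} := fun n =>
    Nat.rec ⟨p, hp, subset_rfl⟩ (fun k q => F k q) n
  have hg : ∀ n, g (n + 1) = F n (g n) := fun n => rfl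
  have hgm : ∀ n, (g n).1 ⊆ (g (n + 1)).1 := fun n => by
    rw [hg]
    exact hF n (g n)
  obtain ⟨z, hz, hz'⟩ := hL.bdd (X := range fun n => X n (g n)) (by
    refine mk_range_le.trans_lt ?_
    rw [mk_nat]
    exact hL.unc) (by
    rintro _ ⟨n, rfl⟩
    exact hX n (g n))
  have hgU := Dl.iUnion (fun n => (g n).2.1) hgm
  have hpU : p ⊆ ⋃ n, (g n).1 :=
    (subset_rfl : (g 0).1 ⊆ (g 0).1).trans (subset_iUnion (fun n => (g n).1) 0)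
  obtain ⟨v, hv, hgv, n, hn⟩ := h z hz _ hgU hpU
  refine hFB n (g n) v hv ?_ z (hz' _ ⟨n, rfl⟩) hz hn
  rw [← hg]
  exact (subset_iUnion (fun n => (g n).1) (n + 1)).trans hgv

end K

end Pool.Agent.helper75.NS
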