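import Pool.Agent.helper75.NS.Master
import Pool.Agent.helper15.NS.Ext

/-!
# From extendibility to lifts
-/

namespace Pool.Agent.helper75.NS

open Cardinal Set Fa

section K

variable {K : Type} [LinearOrder K] [WellFoundedLT K]

omit [WellFoundedLT K] in
theorem Rg.ini {k : K} (h : Rg k) : Ini k := by
  classical
  intro y hy
  by_contra hc
  rw [not_lt] at hc
  obtain ⟨e⟩ := hc
  have hk : y < k := hy
  let f : K → K := fun i => if hi : ∃ x : Iio k, ((e x : Iio y) : K) = i then (hi.choose : K) else y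
  obtain ⟨z, hz, hb⟩ := h y hy f fun i _ => by
    change (if hi : ∃ x : Iio k, ((e x : Iio y) : K) = i then (hi.choose : K) else y) < k
    split
    · next hi => exact hi.choose.2
    · exact hk
  have h1 := hb (e ⟨z, hz⟩) (e ⟨z, hz⟩).2
  have hex : ∃ x : Iio k, ((e x : Iio y) : K) = (e ⟨z, hz⟩ : K) := ⟨_, rfl⟩
  have h2 : f (e ⟨z, hz⟩) = z := by
    have h3 : f (e ⟨z, hz⟩) = (hex.choose : K) := dif_pos hex
    rw [h3]
    have h4 := e.injective (Subtype.ext hex.choose_spec)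
    rw [h4]
  rw [h2] at h1
  exact lt_irrefl _ h1

theorem Rg.isReg {k : K} (h : Rg k) (hu : ℵ₀ < #(Iio k)) : IsReg k where
  unc := hu
  ini := h.ini
  reg := by
    classical
    refine ⟨hu.le, ?_⟩
    have h1 : Ordinal.typein (fun a b : K => a < b) k = (#(Iio k)).ord := by
      have e1 : ∀ z : K, (Ordinal.typein (fun a b : K => a < b) z).card = #(Iio z) :=
        fun z => Ordinal.card_typein z
      refine le_antisymm ?_ ?_
      · by_contra hc
        rw [not_le] at hc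
        obtain ⟨o, ho⟩ := Ordinal.typein_surj (fun a b : K => a < b)
          (hc.trans (Ordinal.typein_lt_type _ k))
        have hok : o < k := by
          rw [← ho] at hc
          exact (Ordinal.typein_lt_typein (fun a b : K => a < b)).1 hc
        have h2 := h.ini o hok
        rw [← e1 o] at h2
        have h3 : Ordinal.typein (fun a b : K => a < b) o = (#(Iio k)).ord := ho
        rw [h3, card_ord] at h2
        exact lt_irrefl _ h2
      · rw [← e1 k]
        exact ord_card_le _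
    rw [← h1]
    have h2 : (Ordinal.typein (fun a b : K => a < b) k).cof = Order.cof (Iio k) := by
      rw [Order.cof_Iio]
    rw [h2, Order.le_cof_iff]
    intro s hs
    by_contra hc
    rw [not_le] at hc
    obtain ⟨o, ho, f, hf⟩ := exists_enum hc
    obtain ⟨z, hz, hb⟩ := h o ho (fun i => if hi : i < o then (f ⟨i, hi⟩ : K) else i) fun i hi => by
      simp only [hi, dite_true]
      exact (f ⟨i, hi⟩).2
    obtain ⟨y, hy, hzy⟩ := hs ⟨z, hz⟩
    rw [← hf] at hy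
    obtain ⟨⟨i, hi⟩, rfl⟩ := hy
    have h3 := hb i hi
    have hi' : i < o := hi
    simp only [hi', dite_true] at h3
    exact absurd h3 (not_lt.2 hzy)

end K

/-! ### objects -/

/-- Objects: facts, sets of facts, names of relations. -/
inductive Ob (K : Type) : Type
  | f (x : Fa K)
  | s (p : Set (Fa K))
  | r (R : Rn K)

/-- Indices of the preserved relations. -/
inductive Sc : Type
  | dat (n : ℕ) (b : Bool)
  | isF | isS | isR | ent | pres | sub | low | suc | dl | ro | tr | neg | neg1 | upc | nar | unb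
  | mem

/-- Code of an index. -/
def Sc.code : Sc → ℕ × ℕ × Bool
  | .dat n b => (0, n, b)
  | .isF => (1, 0, true)
  | .isS => (2, 0, true)
  | .isR => (3, 0, true)
  | .ent => (4, 0, true)
  | .pres => (5, 0, true)
  | .sub => (6, 0, true)
  | .low => (7, 0, true)
  | .suc => (8, 0, true)
  | .dl => (9, 0, true)
  | .ro => (10, 0, true)
  | .tr => (11, 0, true)
  | .neg => (12, 0, true)
  | .neg1 => (13, 0, true)
  | .upc => (14, 0, true)
  | .nar => (15, 0, true)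
  | .unb => (16, 0, true)
  | .mem => (17, 0, true)

theorem Sc.code_injective : Function.Injective Sc.code := by
  intro a b h
  cases a <;> cases b <;> simp_all [Sc.code]

namespace Ob

variable {K : Type}

/-- The fact. -/
def fa : Ob K → Fa K
  | f x => x
  | _ => nil

/-- The set of facts. -/
def se : Ob K → Set (Fa K)
  | s p => p
  | _ => ∅

/-- The name. -/
def re : Ob K → Rn K
  | r R => R
  | _ => fun _ _ _ _ => ∅

variable [LinearOrder K] [WellFoundedLT K] [Inhabited K]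

/-- The object is bounded by `h`. -/
def bd (h : K) : Ob K → Prop
  | f x => Wf x ∧ x.st ≤ h
  | s p => ∀ x ∈ p, Wf x ∧ x.st ≤ h
  | r R => ∀ a i c k, (∀ p ∈ R a i c k, ∀ x ∈ p, Wf x ∧ x.st ≤ h) ∧
      ((R a i c k).Nonempty → a ≤ h ∧ i ≤ h ∧ c ≤ h ∧ k ≤ h)

omit [WellFoundedLT K] in
theorem bd.mono {h h' : K} (hh : h ≤ h') {x : Ob K} (hx : x.bd h) : x.bd h' := by
  cases x with
  | f x => exact ⟨hx.1, hx.2.trans hh⟩
  | s p => exact fun x hxp => ⟨(hx x hxp).1, (hx x hxp).2.trans hh⟩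
  | r R => exact fun a i c k => ⟨fun p hp x hxp => ⟨((hx a i c k).1 p hp x hxp).1,
      ((hx a i c k).1 p hp x hxp).2.trans hh⟩, fun hne =>
      ⟨((hx a i c k).2 hne).1.trans hh, ((hx a i c k).2 hne).2.1.trans hh,
        ((hx a i c k).2 hne).2.2.1.trans hh, ((hx a i c k).2 hne).2.2.2.trans hh⟩⟩

/-- Bounded objects. -/
def Bo (K : Type) [LinearOrder K] [WellFoundedLT K] [Inhabited K] : Type :=
  {x : Ob K // ∃ h, x.bd h}

open Classical in
/-- The least bound. -/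
noncomputable def lev (x : Bo K) : K := WellFounded.min (wellFounded_lt (α := K)) {h | x.1.bd h} x.2

theorem lev_le_iff {x : Bo K} {h : K} : lev x ≤ h ↔ x.1.bd h := by
  constructor
  · intro hh
    exact bd.mono hh (WellFounded.min_mem (wellFounded_lt (α := K)) {h | x.1.bd h} x.2)
  · intro hh
    exact not_lt.1 (WellFounded.not_lt_min (wellFounded_lt (α := K)) (s := {h | x.1.bd h}) hh)

/-- The relations. -/
def rel : Sc → List (K ⊕ Bo K) → Prop
  | .isF, [.inr u] => ∃ x, u.1 = f x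
  | .isS, [.inr u] => ∃ x, u.1 = s x
  | .isR, [.inr u] => ∃ x, u.1 = r x
  | .dat n b, [.inr u, .inl ν, .inl ξ, .inl o] =>
      u.1.fa.st = ν ∧ u.1.fa.xi = ξ ∧ u.1.fa.nn = n ∧ u.1.fa.bb = b ∧ u.1.fa.ln = o
  | .ent, [.inr u, .inl i, .inr v] => i < u.1.fa.ln ∧ u.1.fa.en i = v.1.fa
  | .pres, [.inr u, .inr p] => u.1.fa.pre = p.1.se
  | .sub, [.inr p, .inr q] => p.1.se ⊆ q.1.se
  | .low, [.inr p, .inl ν, .inr q] => q.1.se = lo ν p.1.se
  | .suc, [.inl m, .inl L] => InS m ∧ IsSuc m L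
  | .dl, [.inl L, .inr p] => p.1.se ∈ Dl L
  | .ro, [.inl L, .inr R] => ∀ a i c k, Ro L (R.1.re a i c k)
  | .tr, [.inl m, .inl L, .inr R, .inr p] => Tr m L R.1.re p.1.se
  | .neg, [.inl L, .inr R, .inr u, .inl a, .inl c, .inl z] => Neg L R.1.re u.1.se a c z
  | .neg1, [.inl L, .inr R, .inr u, .inl a, .inl c, .inl i] => Neg1 L R.1.re u.1.se a c i
  | .upc, [.inl L, .inr I] => Upc L I.1.re
  | .nar, [.inl L, .inr R, .inr I, .inr p, .inl z] => Nar L R.1.re I.1.re p.1.se z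
  | .unb, [.inl L, .inr I, .inr p] => Unb L I.1.re p.1.se
  | .mem, [.inr I, .inl a, .inr p] => p.1.se ∈ I.1.re a a a a
  | _, _ => False

/-- Well-formed facts of stage at most `h`. -/
abbrev FF (K : Type) [LinearOrder K] [WellFoundedLT K] [Inhabited K] (h : K) : Type :=
  {x : Fa K // Wf x ∧ x.st ≤ h}

open Classical in
/-- Codes of objects. -/
noncomputable def enc (h : K) : Ob K → FF K h ⊕ Set (FF K h) ⊕
    Set (({x : K // x ≤ h} × {x : K // x ≤ h} × {x : K // x ≤ h} × {x : K // x ≤ h}) ×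
      Set (FF K h))
  | f x => if hx : Wf x ∧ x.st ≤ h then .inl ⟨x, hx⟩ else .inr (.inl ∅)
  | s p => .inr (.inl {y | y.1 ∈ p})
  | r R => .inr (.inr {t | Subtype.val '' t.2 ∈ R t.1.1 t.1.2.1 t.1.2.2.1 t.1.2.2.2})

theorem set_eq {h : K} {p : Set (Fa K)} (hp : ∀ x ∈ p, Wf x ∧ x.st ≤ h) :
    Subtype.val '' {y : FF K h | y.1 ∈ p} = p := by
  ext x
  constructor
  · rintro ⟨y, hy, rfl⟩
    exact hy
  · intro hx
    exact ⟨⟨x, hp x hx⟩, hx, rfl⟩

theorem enc_inj {h : K} {x y : Ob K} (hx : x.bd h) (hy : y.bd h) (hxy : enc h x = enc h y) :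
    x = y := by
  cases x with
  | f x =>
    cases y with
    | f y =>
      have h1 : enc h (f x) = .inl ⟨x, hx⟩ := dif_pos hx
      have h2 : enc h (f y) = .inl ⟨y, hy⟩ := dif_pos hy
      rw [h1, h2] at hxy
      exact congrArg Ob.f (congrArg Subtype.val (Sum.inl.inj hxy))
    | s p =>
      have h1 : enc h (f x) = .inl ⟨x, hx⟩ := dif_pos hx
      rw [h1] at hxy
      exact nomatch hxy
    | r R =>
      have h1 : enc h (f x) = .inl ⟨x, hx⟩ := dif_pos hx
      rw [h1] at hxy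
      exact nomatch hxy
  | s p =>
    cases y with
    | f y =>
      have h2 : enc h (f y) = .inl ⟨y, hy⟩ := dif_pos hy
      rw [h2] at hxy
      exact nomatch hxy
    | s q =>
      simp only [enc, Sum.inr.injEq, Sum.inl.injEq] at hxy
      rw [← set_eq hx, ← set_eq hy, hxy]
    | r R =>
      simp only [enc, Sum.inr.injEq] at hxy
      exact nomatch hxy
  | r R =>
    cases y with
    | f y =>
      have h2 : enc h (f y) = .inl ⟨y, hy⟩ := dif_pos hy
      rw [h2] at hxy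
      exact nomatch hxy
    | s q =>
      simp only [enc, Sum.inr.injEq] at hxy
      exact nomatch hxy
    | r R' =>
      simp only [enc, Sum.inr.injEq] at hxy
      have key : ∀ (R R' : Rn K), (Ob.r R).bd h → {t : (({x : K // x ≤ h} × {x : K // x ≤ h} ×
          {x : K // x ≤ h} × {x : K // x ≤ h}) × Set (FF K h)) | Subtype.val '' t.2 ∈
          R t.1.1 t.1.2.1 t.1.2.2.1 t.1.2.2.2} = {t | Subtype.val '' t.2 ∈
          R' t.1.1 t.1.2.1 t.1.2.2.1 t.1.2.2.2} → ∀ a i c k p, p ∈ R a i c k → p ∈ R' a i c k := by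
        intro R R' hR he a i c k p hp
        obtain ⟨h1, h2⟩ := hR a i c k
        obtain ⟨ha, hi, hc, hk⟩ := h2 ⟨p, hp⟩
        have h3 := set_eq (h1 p hp)
        have h4 : (((⟨a, ha⟩, ⟨i, hi⟩, ⟨c, hc⟩, ⟨k, hk⟩), {y : FF K h | y.1 ∈ p}) :
            (({x : K // x ≤ h} × {x : K // x ≤ h} × {x : K // x ≤ h} × {x : K // x ≤ h}) ×
              Set (FF K h))) ∈ {t : (({x : K // x ≤ h} × {x : K // x ≤ h} ×
          {x : K // x ≤ h} × {x : K // x ≤ h}) × Set (FF K h)) | Subtype.val '' t.2 ∈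
          R t.1.1 t.1.2.1 t.1.2.2.1 t.1.2.2.2} := by
          change Subtype.val '' {y : FF K h | y.1 ∈ p} ∈ R a i c k
          rw [h3]
          exact hp
        rw [he] at h4
        change Subtype.val '' {y : FF K h | y.1 ∈ p} ∈ R' a i c k at h4
        rwa [h3] at h4
      have : R = R' := by
        funext a i c k
        ext p
        exact ⟨key R R' hx hxy a i c k p, key R' R hy hxy.symm a i c k p⟩
      rw [this]

theorem small {Om : Cardinal.{0}} (hO : Om.IsInaccessible)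
    (hK : Ordinal.type (fun x y : K => x < y) = Om.ord) (h : K) :
    #{x : Bo K // lev x ≤ h} < Om := by
  have h1 : #(FF K h) < Om := by
    have h2 := card_wf (K := K) (c := max ℵ₀ #(Iio h)) (le_max_left _ _) h (le_max_right _ _)
    refine lt_of_le_of_lt h2 (hO.isStrongLimit.isStrongPrelimit (max_lt hO.1 ?_))
    exact Pool.Agent.helper15.NS.mk_Iio_lt hO hK h
  have h2 := Pool.Agent.helper15.NS.mk_Iic_lt hO hK h
  refine Pool.Agent.helper15.NS.inj_lt hO (fun x : {x : Bo K // lev x ≤ h} => enc h x.1.1) ?_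
    (Pool.Agent.helper15.NS.sum_lt hO h1 (Pool.Agent.helper15.NS.sum_lt hO
      (Pool.Agent.helper15.NS.set_lt hO h1) (Pool.Agent.helper15.NS.set_lt hO
        (Pool.Agent.helper15.NS.prod_lt hO (Pool.Agent.helper15.NS.prod_lt hO h2
          (Pool.Agent.helper15.NS.prod_lt hO h2 (Pool.Agent.helper15.NS.prod_lt hO h2 h2)))
          (Pool.Agent.helper15.NS.set_lt hO h1)))))
  rintro ⟨x, hx⟩ ⟨y, hy⟩ hxy
  exact Subtype.ext (Subtype.ext (enc_inj (lev_le_iff.1 hx) (lev_le_iff.1 hy) hxy))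

/-! ### the embedding -/

open Classical in
/-- Action on facts. -/
noncomputable def jf (e : Bo K → Bo K) (x : Fa K) : Fa K :=
  if hx : ∃ h, (f x).bd h then (e ⟨f x, hx⟩).1.fa else x

open Classical in
/-- Action on sets. -/
noncomputable def js (e : Bo K → Bo K) (p : Set (Fa K)) : Set (Fa K) :=
  if hx : ∃ h, (s p).bd h then (e ⟨s p, hx⟩).1.se else p

open Classical in
/-- Action on names. -/
noncomputable def jr (e : Bo K → Bo K) (R : Rn K) : Rn K :=
  if hx : ∃ h, (r R).bd h then (e ⟨r R, hx⟩).1.re else R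

/-- The members of the list are bounded by `h`. -/
def okl (h : K) : List (K ⊕ Bo K) → Prop
  | [] => True
  | .inl x :: l => x ≤ h ∧ okl h l
  | .inr u :: l => u.1.bd h ∧ okl h l

theorem okl.spec {h : K} : ∀ {l : List (K ⊕ Bo K)}, okl h l →
    (∀ x, Sum.inl x ∈ l → x ≤ h) ∧ ∀ x, Sum.inr x ∈ l → lev x ≤ h
  | [], _ => ⟨fun _ hx => absurd hx List.not_mem_nil, fun _ hx => absurd hx List.not_mem_nil⟩
  | .inl y :: l, hl => by
    obtain ⟨h1, h2⟩ := okl.spec hl.2
    refine ⟨fun x hx => ?_, fun x hx => ?_⟩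
    · rcases List.mem_cons.1 hx with h3 | h3
      · rw [Sum.inl.inj h3]
        exact hl.1
      · exact h1 x h3
    · rcases List.mem_cons.1 hx with h3 | h3
      · exact nomatch h3
      · exact h2 x h3
  | .inr y :: l, hl => by
    obtain ⟨h1, h2⟩ := okl.spec hl.2
    refine ⟨fun x hx => ?_, fun x hx => ?_⟩
    · rcases List.mem_cons.1 hx with h3 | h3
      · exact nomatch h3
      · exact h1 x h3
    · rcases List.mem_cons.1 hx with h3 | h3
      · rw [Sum.inr.inj h3]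
        exact lev_le_iff.2 hl.1
      · exact h2 x h3

section emb

variable {h : K} {j : K → K} {e : Bo K → Bo K} (he : Emb (lev (K := K)) rel h j e)

include he

theorem re_iff (s : Sc) {l : List (K ⊕ Bo K)} (hl : okl h l) :
    rel s l ↔ rel s (l.map (Sum.map j e)) := he.rel s l hl.spec.1 hl.spec.2

theorem ef_eq {x : Fa K} (hx : (f x).bd h) : (e ⟨f x, h, hx⟩).1 = f (jf e x) := by
  have h1 := (re_iff he .isF (l := [.inr ⟨f x, h, hx⟩]) ⟨hx, trivial⟩).1 ⟨x, rfl⟩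
  obtain ⟨y, hy⟩ := h1
  have h2 : jf e x = (e ⟨f x, h, hx⟩).1.fa := dif_pos ⟨h, hx⟩
  rw [h2]
  change (e ⟨f x, h, hx⟩).1 = f y at hy
  rw [hy]
  rfl

theorem es_eq {p : Set (Fa K)} (hx : (s p).bd h) : (e ⟨s p, h, hx⟩).1 = s (js e p) := by
  have h1 := (re_iff he .isS (l := [.inr ⟨s p, h, hx⟩]) ⟨hx, trivial⟩).1 ⟨p, rfl⟩
  obtain ⟨y, hy⟩ := h1
  have h2 : js e p = (e ⟨s p, h, hx⟩).1.se := dif_pos ⟨h, hx⟩
  rw [h2]
  change (e ⟨s p, h, hx⟩).1 = s y at hy
  rw [hy]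
  rfl

theorem er_eq {R : Rn K} (hx : (r R).bd h) : (e ⟨r R, h, hx⟩).1 = r (jr e R) := by
  have h1 := (re_iff he .isR (l := [.inr ⟨r R, h, hx⟩]) ⟨hx, trivial⟩).1 ⟨R, rfl⟩
  obtain ⟨y, hy⟩ := h1
  have h2 : jr e R = (e ⟨r R, h, hx⟩).1.re := dif_pos ⟨h, hx⟩
  rw [h2]
  change (e ⟨r R, h, hx⟩).1 = r y at hy
  rw [hy]
  rfl

theorem jf_bd {x : Fa K} {y : K} (hy : y ≤ h) (hx : (f x).bd y) : (f (jf e x)).bd (j y) := by
  rw [← ef_eq he (hx.mono hy)]
  exact lev_le_iff.1 (he.lev_le _ _ hy (lev_le_iff.2 hx))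

theorem js_bd {p : Set (Fa K)} {y : K} (hy : y ≤ h) (hx : (s p).bd y) : (s (js e p)).bd (j y) := by
  rw [← es_eq he (hx.mono hy)]
  exact lev_le_iff.1 (he.lev_le _ _ hy (lev_le_iff.2 hx))

theorem jf_dat {x : Fa K} (hx : (f x).bd h) (hxi : x.xi ≤ h) (hln : x.ln ≤ h) :
    (jf e x).st = j x.st ∧ (jf e x).xi = j x.xi ∧ (jf e x).nn = x.nn ∧ (jf e x).bb = x.bb ∧
      (jf e x).ln = j x.ln := by
  have h1 := (re_iff he (.dat x.nn x.bb) (l := [.inr ⟨f x, h, hx⟩, .inl x.st, .inl x.xi, .inl x.ln])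
    ⟨hx, hx.2, hxi, hln, trivial⟩).1 ⟨rfl, rfl, rfl, rfl, rfl⟩
  change (e ⟨f x, h, hx⟩).1.fa.st = _ ∧ (e ⟨f x, h, hx⟩).1.fa.xi = _ ∧
    (e ⟨f x, h, hx⟩).1.fa.nn = _ ∧ (e ⟨f x, h, hx⟩).1.fa.bb = _ ∧
      (e ⟨f x, h, hx⟩).1.fa.ln = _ at h1
  rw [ef_eq he hx] at h1
  exact h1

theorem jf_en {x : Fa K} (hx : (f x).bd h) {i : K} (hi : i < x.ln) (hy : (f (x.en i)).bd h) :
    (jf e x).en (j i) = jf e (x.en i) := by
  have hih : i ≤ h := hi.le.trans (hx.1.ln_lt.le.trans hx.2)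
  have h1 := (re_iff he .ent (l := [.inr ⟨f x, h, hx⟩, .inl i, .inr ⟨f (x.en i), h, hy⟩])
    ⟨hx, hih, hy, trivial⟩).1 ⟨hi, rfl⟩
  change j i < (e ⟨f x, h, hx⟩).1.fa.ln ∧ (e ⟨f x, h, hx⟩).1.fa.en (j i) =
    (e ⟨f (x.en i), h, hy⟩).1.fa at h1
  rw [ef_eq he hx, ef_eq he hy] at h1
  exact h1.2

/-- Facts of small stages are fixed. -/
theorem jf_fix {k : K} (hk : k ≤ h) (hj : ∀ x < k, j x = x) (x : Fa K) (hx : Wf x)
    (hxk : x.st < k) : jf e x = x := by
  have key : ∀ ν : K, ∀ x : Fa K, x.st = ν → Wf x → x.st < k → jf e x = x := by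
    intro ν
    induction ν using WellFoundedLT.induction with
    | ind ν ih =>
      rintro x rfl hx hxk
      have hb : (f x).bd h := ⟨hx, hxk.le.trans hk⟩
      have hxi : x.xi < k := hx.xi_lt.trans hxk
      have hln : x.ln < k := hx.ln_lt.trans hxk
      obtain ⟨h1, h2, h3, h4, h5⟩ := jf_dat he hb (hxi.le.trans hk) (hln.le.trans hk)
      rw [hj _ hxk] at h1
      rw [hj _ hxi] at h2
      rw [hj _ hln] at h5
      have hw := (jf_bd he le_rfl hb).1
      refine ext' hw.ne hx.ne h1 h2 h3 h4 h5 fun i => ?_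
      rcases lt_or_ge i x.ln with hi | hi
      · have h6 := (wf_iff.1 hx).2.2.2.2.1 i hi
        have h7 := jf_en he hb hi ⟨h6.1, h6.2.le.trans hb.2⟩
        rw [hj i (hi.trans hln)] at h7
        rw [h7]
        exact ih _ h6.2 _ rfl h6.1 (h6.2.trans hxk)
      · rw [(wf_iff.1 hx).2.2.2.2.2 i hi, (wf_iff.1 hw).2.2.2.2.2 i (h5.le.trans hi)]
  exact key _ x rfl hx hxk

theorem js_pre {x : Fa K} (hx : (f x).bd h) (hp : (s x.pre).bd h) :
    js e x.pre = (jf e x).pre := by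
  have h1 := (re_iff he .pres (l := [.inr ⟨f x, h, hx⟩, .inr ⟨s x.pre, h, hp⟩])
    ⟨hx, hp, trivial⟩).1 rfl
  change (e ⟨f x, h, hx⟩).1.fa.pre = (e ⟨s x.pre, h, hp⟩).1.se at h1
  rw [ef_eq he hx, es_eq he hp] at h1
  exact h1.symm

/-- The premise of a short fact with premises of small stages is fixed. -/
theorem js_pre_fix {k : K} (hk : k ≤ h) (hj : ∀ x < k, j x = x) {x : Fa K} (hx : (f x).bd h)
    (hln : x.ln < k) (hp : ∀ y ∈ x.pre, y.st < k) : js e x.pre = x.pre := by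
  have hpb : (s x.pre).bd h := fun y hy => ⟨(hx.1.pre hy).1, (hp y hy).le.trans hk⟩
  rw [js_pre he hx hpb]
  have h5 := (jf_dat he hx (hx.1.xi_lt.le.trans hx.2) (hln.le.trans hk)).2.2.2.2
  rw [hj _ hln] at h5
  have key : ∀ i < x.ln, (jf e x).en i = x.en i := by
    intro i hi
    have h6 := (wf_iff.1 hx.1).2.2.2.2.1 i hi
    have h7 := jf_en he hx hi ⟨h6.1, h6.2.le.trans hx.2⟩
    rw [hj i (hi.trans hln)] at h7
    rw [h7]
    exact jf_fix he hk hj _ h6.1 (hp _ ⟨i, hi, rfl⟩)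
  ext y
  constructor
  · rintro ⟨i, hi, rfl⟩
    rw [h5] at hi
    exact ⟨i, hi, (key i hi).symm⟩
  · rintro ⟨i, hi, rfl⟩
    exact ⟨i, by rwa [h5], key i hi⟩

/-- Facts of small stages in the image of a condition. -/
theorem js_low {k L mu : K} (hk : k ≤ L) (hLh : L ≤ h) (hkr : IsReg k) (hs : InS mu)
    (hL : IsSuc mu L) (hj : ∀ x < k, j x = x) {q : Set (Fa K)} (hq : q ∈ Dl L) :
    lo (j k) (js e q) = lo k q := by
  have hb : (s q).bd h := fun x hx => ⟨hq.1.wf x hx, (hq.2 x hx).trans hLh⟩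
  have hb' : (s (lo k q)).bd h := fun x hx => hb x hx.1
  have h1 := (re_iff he .low (l := [.inr ⟨s q, h, hb⟩, .inl k, .inr ⟨s (lo k q), h, hb'⟩])
    ⟨hb, hk.trans hLh, hb', trivial⟩).1 rfl
  change (e ⟨s (lo k q), h, hb'⟩).1.se = lo (j k) (e ⟨s q, h, hb⟩).1.se at h1
  rw [es_eq he hb, es_eq he hb'] at h1
  change js e (lo k q) = lo (j k) (js e q) at h1
  rw [← h1]
  have hc : #(lo k q) < #(Iio k) :=
    sm_mono (t := le k q) (fun f hf => ⟨hf.1, hf.2.le⟩) (hq.1.sp k hkr)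
  obtain ⟨o, ho, en, hen⟩ := exists_enum hc
  classical
  have hw : Wf (Fa.mk L mu 0 true o fun i => if hi : i < o then en ⟨i, hi⟩ else nil) := by
    refine ⟨⟨mu, hs, hL⟩, hL.lt, ho.trans_le hk, fun i hi => ?_, fun i hi => dif_neg (not_lt.2 hi)⟩
    simp only [hi, dite_true]
    have h2 : en ⟨i, hi⟩ ∈ lo k q := hen ▸ mem_range_self _
    exact ⟨hq.1.wf _ h2.1, h2.2.trans_le hk⟩
  have hp : (Fa.mk L mu 0 true o fun i => if hi : i < o then en ⟨i, hi⟩ else nil).pre =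
      lo k q := by
    rw [← hen]
    ext y
    constructor
    · rintro ⟨i, hi, rfl⟩
      have hi' : i < o := hi
      refine ⟨⟨i, hi'⟩, ?_⟩
      change _ = (if hi : i < o then en ⟨i, hi⟩ else nil)
      rw [dif_pos hi']
    · rintro ⟨⟨i, hi⟩, rfl⟩
      have hi' : i < o := hi
      exact ⟨i, hi', dif_pos hi'⟩
  have h3 := js_pre_fix he (hk.trans hLh) hj (x := Fa.mk L mu 0 true o fun i =>
    if hi : i < o then en ⟨i, hi⟩ else nil) ⟨hw, hLh⟩ ho (by
      rw [hp]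
      exact fun y hy => hy.2)
  rwa [hp] at h3

end emb

end Ob

section K

variable {K : Type} [LinearOrder K] [WellFoundedLT K]

theorem exists_card_of_lt {Om : Cardinal.{0}} (hK : Ordinal.type (fun x y : K => x < y) = Om.ord)
    {c : Cardinal.{0}} (hc : c < Om) : ∃ x : K, #(Iio x) = c ∧ Ini x := by
  have e1 : ∀ z : K, (Ordinal.typein (fun a b : K => a < b) z).card = #(Iio z) :=
    fun z => Ordinal.card_typein z
  have h1 : c.ord < Ordinal.type (fun x y : K => x < y) := by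
    rw [hK]
    exact ord_lt_ord.2 hc
  obtain ⟨o, ho⟩ := Ordinal.typein_surj (fun a b : K => a < b) h1
  have ho' : Ordinal.typein (fun a b : K => a < b) o = c.ord := ho
  have hc : #(Iio o) = c := by
    rw [← e1, ho', card_ord]
  refine ⟨o, hc, fun y hy => ?_⟩
  have h3 : Ordinal.typein (fun a b : K => a < b) y < c.ord := by
    rw [← ho']
    exact (Ordinal.typein_lt_typein (fun a b : K => a < b)).2 hy
  rw [hc, ← e1]
  exact lt_ord.1 h3

variable [Inhabited K]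

theorem exists_lf {Om : Cardinal.{0}} (hV : Pool.Agent.helper74.HY.IsVopenka Om)
    (hK : Ordinal.type (fun x y : K => x < y) = Om.ord) (g : K) :
    ∃ k > g, ∀ mu L : K, InS mu → IsSuc mu L → k < mu →
      ∃ (mu' L' : K) (j : K → K) (e : Set (Fa K) → Set (Fa K)) (E : Rn K → Rn K),
        Lf mu L k mu' L' j e E := by
  have hO : Om.IsInaccessible := hV.1
  obtain ⟨w1, hw1, _⟩ := exists_card_of_lt hK (c := Order.succ ℵ₀) (by
    exact (Order.succ_le_of_lt (cantor ℵ₀)).trans_lt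
      (hO.isStrongLimit.isStrongPrelimit hO.1))
  have hJ : #Sc < Om := by
    refine Pool.Agent.helper15.NS.inj_lt hO Sc.code Sc.code_injective ?_
    refine lt_of_le_of_lt ?_ hO.1
    exact Cardinal.mk_le_aleph0
  obtain ⟨k, hk, hrg, hkh⟩ := exists_ext Om hV K hK (Ob.Bo K) Ob.lev (Ob.small hO hK) Sc hJ
    Ob.rel (max g w1)
  have hku : ℵ₀ < #(Iio k) := by
    have h1 : w1 < k := (le_max_right _ _).trans_lt hk
    refine lt_of_lt_of_le ?_ (card_mono h1.le)
    rw [hw1]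
    exact Order.lt_succ _
  have hkr : IsReg k := hrg.isReg hku
  refine ⟨k, (le_max_left _ _).trans_lt hk, fun mu L hs hL hkmu => ?_⟩
  obtain ⟨x, hx, _⟩ := exists_card_of_lt hK (c := Order.succ #(Dl L)) (by
    have h1 : #(Dl L) < Om := by
      refine (card_Dl (le_max_left ℵ₀ #(Iio L)) L (le_max_right _ _)).trans_lt ?_
      exact hO.isStrongLimit.isStrongPrelimit (hO.isStrongLimit.isStrongPrelimit
        (max_lt hO.1 (Pool.Agent.helper15.NS.mk_Iio_lt hO hK L)))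
    exact (Order.succ_le_of_lt (cantor _)).trans_lt (hO.isStrongLimit.isStrongPrelimit h1))
  obtain ⟨j, e, he, hfix, hbig, hsup⟩ := hkh (max x L)
  have hLh : L ≤ max x L := le_max_right _ _
  have hmh : mu ≤ max x L := hL.lt.le.trans hLh
  have hsb : ∀ {q : Set (Fa K)}, q ∈ Dl L → (Ob.s q).bd (max x L) := fun {q} hq x hx =>
    ⟨hq.1.wf x hx, (hq.2 x hx).trans hLh⟩
  have hrb : ∀ {R : Rn K}, Bdr L R → (Ob.r R).bd (max x L) := fun {R} hR a i c k =>
    ⟨fun p hp => hsb ((hR a i c k).1 p hp), fun hne => ⟨((hR a i c k).2 hne).1.trans hLh,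
      ((hR a i c k).2 hne).2.1.trans hLh, ((hR a i c k).2 hne).2.2.1.trans hLh,
      ((hR a i c k).2 hne).2.2.2.trans hLh⟩⟩
  have hsuc := (Ob.re_iff he .suc (l := [.inl mu, .inl L]) ⟨hmh, hLh, trivial⟩).1 ⟨hs, hL⟩
  refine ⟨j mu, j L, j, Ob.js e, Ob.jr e, ?_⟩
  constructor
  case hs => exact hs
  case hL => exact hL
  case kmu => exact hkmu
  case hs' => exact hsuc.1
  case hL' => exact hsuc.2
  case jmu => rfl
  case jL => rfl
  case mono => exact fun x y hy hxy => he.mono x y (hy.trans hLh) hxy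
  case fix => exact hfix
  case big => exact hLh.trans_lt hbig
  case big' =>
    have h1 : x < j k := (le_max_left _ _).trans_lt hbig
    refine lt_of_lt_of_le ?_ (card_mono h1.le)
    rw [hx]
    exact Order.lt_succ _
  case dl =>
    intro q hq
    have h1 := (Ob.re_iff he .dl (l := [.inl L, .inr ⟨.s q, _, hsb hq⟩])
      ⟨hLh, hsb hq, trivial⟩).1 hq
    change (e ⟨.s q, _, hsb hq⟩).1.se ∈ Dl (j L) at h1
    rw [Ob.es_eq he (hsb hq)] at h1
    exact h1
  case sub =>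
    intro q hq q' hq' hqq
    have h1 := (Ob.re_iff he .sub (l := [.inr ⟨.s q, _, hsb hq⟩, .inr ⟨.s q', _, hsb hq'⟩])
      ⟨hsb hq, hsb hq', trivial⟩).1 hqq
    change (e ⟨.s q, _, hsb hq⟩).1.se ⊆ (e ⟨.s q', _, hsb hq'⟩).1.se at h1
    rw [Ob.es_eq he (hsb hq), Ob.es_eq he (hsb hq')] at h1
    exact h1
  case low => exact fun q hq => Ob.js_low he (hkmu.le.trans hL.lt.le) hLh hkr hs hL hfix hq
  case sup =>
    intro t ht f hf x hx
    exact hsup t ht f (fun i hi => (hf i hi).trans hLh) x (hx.trans hLh)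
  case ro =>
    intro R hR hro
    have h1 := (Ob.re_iff he .ro (l := [.inl L, .inr ⟨.r R, _, hrb hR⟩])
      ⟨hLh, hrb hR, trivial⟩).1 hro
    change ∀ a i c k, Ro (j L) ((e ⟨.r R, _, hrb hR⟩).1.re a i c k) at h1
    rw [Ob.er_eq he (hrb hR)] at h1
    exact h1
  case tr =>
    intro R hR p hp ht
    have h1 := (Ob.re_iff he .tr (l := [.inl mu, .inl L, .inr ⟨.r R, _, hrb hR⟩,
      .inr ⟨.s p, _, hsb hp⟩]) ⟨hmh, hLh, hrb hR, hsb hp, trivial⟩).1 ht
    change Tr (j mu) (j L) (e ⟨.r R, _, hrb hR⟩).1.re (e ⟨.s p, _, hsb hp⟩).1.se at h1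
    rw [Ob.er_eq he (hrb hR), Ob.es_eq he (hsb hp)] at h1
    exact h1
  case neg =>
    intro R hR p hp a ha c hc z hz ht
    have h1 := (Ob.re_iff he .neg (l := [.inl L, .inr ⟨.r R, _, hrb hR⟩,
      .inr ⟨.s p, _, hsb hp⟩, .inl a, .inl c, .inl z]) ⟨hLh, hrb hR, hsb hp, ha.trans hLh,
        hc.trans hLh, hz.trans hLh, trivial⟩).1 ht
    change Neg (j L) (e ⟨.r R, _, hrb hR⟩).1.re (e ⟨.s p, _, hsb hp⟩).1.se (j a) (j c) (j z) at h1
    rw [Ob.er_eq he (hrb hR), Ob.es_eq he (hsb hp)] at h1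
    exact h1
  case neg1 =>
    intro R hR p hp a ha c hc z hz ht
    have h1 := (Ob.re_iff he .neg1 (l := [.inl L, .inr ⟨.r R, _, hrb hR⟩,
      .inr ⟨.s p, _, hsb hp⟩, .inl a, .inl c, .inl z]) ⟨hLh, hrb hR, hsb hp, ha.trans hLh,
        hc.trans hLh, hz.trans hLh, trivial⟩).1 ht
    change Neg1 (j L) (e ⟨.r R, _, hrb hR⟩).1.re (e ⟨.s p, _, hsb hp⟩).1.se (j a) (j c) (j z)
      at h1
    rw [Ob.er_eq he (hrb hR), Ob.es_eq he (hsb hp)] at h1
    exact h1
  case upc =>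
    intro R hR ht
    have h1 := (Ob.re_iff he .upc (l := [.inl L, .inr ⟨.r R, _, hrb hR⟩])
      ⟨hLh, hrb hR, trivial⟩).1 ht
    change Upc (j L) (e ⟨.r R, _, hrb hR⟩).1.re at h1
    rw [Ob.er_eq he (hrb hR)] at h1
    exact h1
  case nar =>
    intro R hR I hI p hp z hz ht
    have h1 := (Ob.re_iff he .nar (l := [.inl L, .inr ⟨.r R, _, hrb hR⟩,
      .inr ⟨.r I, _, hrb hI⟩, .inr ⟨.s p, _, hsb hp⟩, .inl z]) ⟨hLh, hrb hR, hrb hI, hsb hp,
        hz.trans hLh, trivial⟩).1 ht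
    change Nar (j L) (e ⟨.r R, _, hrb hR⟩).1.re (e ⟨.r I, _, hrb hI⟩).1.re
      (e ⟨.s p, _, hsb hp⟩).1.se (j z) at h1
    rw [Ob.er_eq he (hrb hR), Ob.er_eq he (hrb hI), Ob.es_eq he (hsb hp)] at h1
    exact h1
  case unb =>
    intro I hI p hp ht
    have h1 := (Ob.re_iff he .unb (l := [.inl L, .inr ⟨.r I, _, hrb hI⟩,
      .inr ⟨.s p, _, hsb hp⟩]) ⟨hLh, hrb hI, hsb hp, trivial⟩).1 ht
    change Unb (j L) (e ⟨.r I, _, hrb hI⟩).1.re (e ⟨.s p, _, hsb hp⟩).1.se at h1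
    rw [Ob.er_eq he (hrb hI), Ob.es_eq he (hsb hp)] at h1
    exact h1
  case mem =>
    intro I hI p hp a ha ht
    have h1 := (Ob.re_iff he .mem (l := [.inr ⟨.r I, _, hrb hI⟩, .inl a,
      .inr ⟨.s p, _, hsb hp⟩]) ⟨hrb hI, ha.trans hLh, hsb hp, trivial⟩).1 ht
    change (e ⟨.s p, _, hsb hp⟩).1.se ∈ (e ⟨.r I, _, hrb hI⟩).1.re (j a) (j a) (j a) (j a) at h1
    rw [Ob.er_eq he (hrb hI), Ob.es_eq he (hsb hp)] at h1
    exact h1

end K

end Pool.Agent.helper75.NS
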