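import Mathlib
import Pool.Agent.helper31.ZFStmt

/-!
# Statements: trees, narrow systems and cardinals in a model of ZFC

All notions are computed in a model `M` of ZF: variables and quantifiers range over `M`.
-/

namespace Pool.Agent.helper75.NS

open Pool.Agent.helper31.ZF

universe u

variable (M : Type u) [ZFModel M]

/-- The axiom of choice in `M`: every set of nonempty sets has a choice function. -/
def AC : Prop := ∀ X : M, (∀ x, x ∈ X → ∃ y, y ∈ x) →
  ∃ f, IsFD f X ∧ ∀ x, x ∈ X → ap f x ∈ x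

variable {M}

/-- `x` is a transitive set. -/
def IsTransSet (x : M) : Prop := ∀ y, y ∈ x → y ⊆ x

/-- `x` is an ordinal: a transitive set of transitive sets. -/
def IsOrd (x : M) : Prop := IsTransSet x ∧ ∀ y, y ∈ x → IsTransSet y

/-- `x` is a cardinal: an ordinal with no bijection from one of its elements onto it. -/
def IsCard (x : M) : Prop := IsOrd x ∧ ∀ y, y ∈ x → ∀ f, ¬ IsBij f y x

/-- `mu` is an infinite singular cardinal: for some ordinal `t` below `mu` there is a function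
from `t` to `mu` with unbounded range. -/
def IsSingular (mu : M) : Prop := IsCard mu ∧ om ⊆ mu ∧
  ∃ t, t ∈ mu ∧ ∃ f, IsFn f t mu ∧ ∀ x, x ∈ mu → ∃ y, y ∈ t ∧ x ∈ ap f y

/-- `lam` is the successor cardinal of the cardinal `mu`. -/
def IsSuccCard (mu lam : M) : Prop := IsCard mu ∧ IsCard lam ∧ mu ∈ lam ∧
  ∀ k, IsCard k → k ∈ lam → k ∈ mu ∨ k = mu

/-! ### trees and the tree property -/

/-- In the set `T` with the relation `L` (a set of ordered pairs), the predecessors of `t` are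
well-ordered with order type the ordinal `a`: there is an order isomorphism from `a` onto the set
of predecessors of `t`. -/
def IsHt (T L t a : M) : Prop := IsOrd a ∧ ∃ f, IsFn f a T ∧
  (∀ x, x ∈ T → (op x t ∈ L ↔ ∃ z, z ∈ a ∧ ap f z = x)) ∧
  ∀ y, y ∈ a → ∀ z, z ∈ a → (y ∈ z ↔ op (ap f y) (ap f z) ∈ L)

/-- `(T, L)` is a tree: `L` is a strict partial order on `T` and the predecessors of each element
are well-ordered. -/
def IsTree (T L : M) : Prop :=
  (∀ z, z ∈ L → ∃ x, x ∈ T ∧ ∃ y, y ∈ T ∧ z = op x y) ∧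
  (∀ x, op x x ∉ L) ∧
  (∀ x y z, op x y ∈ L → op y z ∈ L → op x z ∈ L) ∧
  ∀ t, t ∈ T → ∃ a, IsHt T L t a

/-- `A` is the level `a` of the tree `(T, L)`. -/
def IsLevel (T L a A : M) : Prop := ∀ t, t ∈ A ↔ t ∈ T ∧ IsHt T L t a

/-- `(T, L)` is a `lam`-tree (`lam` a cardinal): a tree of height `lam` all of whose levels have
size less than `lam`. -/
def IsLamTree (lam T L : M) : Prop := IsTree T L ∧
  (∀ t, t ∈ T → ∃ a, a ∈ lam ∧ IsHt T L t a) ∧
  (∀ a, a ∈ lam → ∃ t, t ∈ T ∧ IsHt T L t a) ∧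
  ∀ a, a ∈ lam → ∀ A, IsLevel T L a A → ∃ k, k ∈ lam ∧ ∃ f, IsInj f A k

/-- `B` is a cofinal branch of the tree `(T, L)` of height `lam`: a linearly ordered set that meets
every level. -/
def IsCofBranch (lam T L B : M) : Prop := B ⊆ T ∧
  (∀ x, x ∈ B → ∀ y, y ∈ B → x = y ∨ op x y ∈ L ∨ op y x ∈ L) ∧
  ∀ a, a ∈ lam → ∃ t, t ∈ B ∧ IsHt T L t a

/-- The tree property at `lam`: every `lam`-tree has a cofinal branch. -/
def TP (lam : M) : Prop := ∀ T L, IsLamTree lam T L → ∃ B, IsCofBranch lam T L B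

/-! ### narrow systems -/

/-- `(a, b)` is an element of the underlying set `⋃_{a ∈ I} {a} × K(a)`. -/
def InX (I K x : M) : Prop := ∃ a, a ∈ I ∧ ∃ b, b ∈ ap K a ∧ x = op a b

/-- The set of pairs `R` is a transitive tree-like relation on the underlying set, and it relates
only elements of increasing levels. -/
def IsSysRel (I K R : M) : Prop :=
  (∀ z, z ∈ R → ∃ x y, InX I K x ∧ InX I K y ∧ z = op x y) ∧
  (∀ x y z, op x y ∈ R → op y z ∈ R → op x z ∈ R) ∧
  (∀ a b c, op a c ∈ R → op b c ∈ R → a = b ∨ op a b ∈ R ∨ op b a ∈ R) ∧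
  ∀ a0 b0 a1 b1, op (op a0 b0) (op a1 b1) ∈ R → a0 ∈ a1

/-- `(⋃_{a ∈ I} {a} × K(a), RR)` is a `lam`-system (`lam` a regular cardinal). -/
def IsSystem (lam I K RR : M) : Prop :=
  (I ⊆ lam ∧ (∀ x, x ∈ lam → ∃ a, a ∈ I ∧ x ∈ a) ∧
    IsFD K I ∧ ∀ a, a ∈ I → IsCard (ap K a) ∧ emp ∈ ap K a ∧ ap K a ∈ lam) ∧
  ((∃ R, R ∈ RR) ∧ (∃ k, k ∈ lam ∧ ∃ f, IsInj f RR k) ∧ ∀ R, R ∈ RR → IsSysRel I K R) ∧
  ∀ a0, a0 ∈ I → ∀ a1, a1 ∈ I → a0 ∈ a1 →
    ∃ b0, b0 ∈ ap K a0 ∧ ∃ b1, b1 ∈ ap K a1 ∧ ∃ R, R ∈ RR ∧ op (op a0 b0) (op a1 b1) ∈ R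

/-- The system is narrow: the successor of its width is less than `lam`. That is, there are
cardinals `t < t' < lam` such that all `K(a)` and the number of relations are at most `t`. -/
def IsNarrow (lam I K RR : M) : Prop := ∃ t t', IsCard t ∧ IsCard t' ∧ t ∈ t' ∧ t' ∈ lam ∧
  (∀ a, a ∈ I → ap K a ⊆ t) ∧ ∃ f, IsInj f RR t

/-- `B` is a cofinal branch through the relation `R` of the system: a set of pairwise comparable
elements that meets unboundedly many levels. -/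
def IsSysBranch (lam I K R B : M) : Prop := (∀ x, x ∈ B → InX I K x) ∧
  (∀ x, x ∈ B → ∀ y, y ∈ B → x = y ∨ op x y ∈ R ∨ op y x ∈ R) ∧
  ∀ x, x ∈ lam → ∃ a b, op a b ∈ B ∧ x ∈ a

/-- The narrow system property at `lam`. -/
def NSP (lam : M) : Prop := ∀ I K RR, IsSystem lam I K RR → IsNarrow lam I K RR →
  ∃ R, R ∈ RR ∧ ∃ B, IsSysBranch lam I K R B

end Pool.Agent.helper75.NS
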