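import Pool.Agent.helper75.NS.Check

/-!
# The tasks of the generic model
-/

namespace Pool.Agent.helper75.NS

open Pool.Agent.helper31.ZF Pool.Agent.helper74.Forc

/-! ### names -/

/-- A well-order of an arbitrary type. -/
@[instance_reducible] noncomputable def ixo (A : Type) : LinearOrder A := (exists_wellFoundedLT A).choose

theorem ixw (A : Type) : @WellFoundedLT A (ixo A).toLT := (exists_wellFoundedLT A).choose_spec

/-- Check names of indices. -/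
noncomputable def ckX {P : Type} (X : Nm P) (i : X.ix) : Nm P :=
  @ck X.ix (ixo X.ix) (ixw X.ix) P i

/-- The ordinal that enumerates a name. -/
noncomputable def thN {P : Type} (X : Nm P) : Nm P := @ordN P X.ix (ixo X.ix) (ixw X.ix)

/-- The enumeration of a name. -/
noncomputable def acN {P : Type} (X : Nm P) : Nm P :=
  .mk X.ix (fun i => opN (ckX X i) (X.el i)) (fun _ _ => True)

section names

variable {K P : Type} [LinearOrder K] [WellFoundedLT K]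

/-- Pairs of pairs. -/
noncomputable def N4 (P : Type) (a i b k : K) : Nm P :=
  opN (opN (ck P a) (ck P i)) (opN (ck P b) (ck P k))

/-- A function given by a ground model function. -/
noncomputable def fnN (P : Type) (F : K → K) (mu : K) : Nm P :=
  .mk {x : K // x < mu} (fun x => opN (ck P x.1) (ck P (F x.1))) (fun _ _ => True)

/-- The name of a branch. -/
noncomputable def brN (mu lam : K) (b : K → K → P → Prop) : Nm P :=
  .mk ({x : K // x < lam} × {x : K // x < mu}) (fun s => opN (ck P s.1.1) (ck P s.2.1))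
    (fun s p => b s.1.1 s.2.1 p)

/-- The name of the narrow system. -/
noncomputable def syN (lam : K) (c : K → K → ℕ → P → Prop) : Nm P :=
  .mk {s : K × K × ℕ // s.1 < s.2.1 ∧ s.2.1 < lam}
    (fun s => opN (opN (ck P s.1.1) (nn P s.1.2.2)) (opN (ck P s.1.2.1) (nn P s.1.2.2)))
    (fun s p => c s.1.1 s.1.2.1 s.1.2.2 p)

end names

/-- Ground model data. -/
structure GD (K P : Type) where
  w : K
  mu : K
  lam : K
  e : ℕ → K
  f : ℕ → K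
  BF : K → K → K
  BI : K → K → K
  RR : K → K
  c : K → K → ℕ → P → Prop

/-- Properties of the ground model data. -/
structure GD.Ok {K P : Type} [LinearOrder K] [WellFoundedLT K] (D : GD K P) (G : Type) [Group G]
    [Preorder P] [MulAction G P] : Prop where
  e_mono : StrictMono D.e
  e_w : ∀ x, x < D.w ↔ ∃ n, D.e n = x
  w_mu : D.w < D.mu
  mu_lam : D.mu < D.lam
  f_mu : ∀ n, D.f n < D.mu
  f_cof : ∀ x < D.mu, ∃ n, x < D.f n
  bf : ∀ a, D.mu ≤ a → a < D.lam → ∀ x < D.mu, D.BF a x < a ∧ D.BI a (D.BF a x) = x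
  bi : ∀ a, D.mu ≤ a → a < D.lam → ∀ x < a, D.BI a x < D.mu ∧ D.BF a (D.BI a x) = x
  bd_lam : Bd P D.lam
  rr : ∀ x < D.mu, D.RR x < D.mu ∧ x < D.RR x ∧ Bd P (D.RR x)
  tp : ∀ R : K → K → K → K → P → Prop, (∀ a i b k, RO (R a i b k)) →
    (∀ a i b k, Iv G (R a i b k)) → ∀ p, TreeF D.mu D.lam R p →
      ∃ q ≤ p, ∃ b : K → K → P → Prop, (∀ a i, RO (b a i)) ∧ (∀ a i, Iv G (b a i)) ∧
        BranchF D.mu D.lam R b q
  c_ro : ∀ a b n, RO (D.c a b n)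
  c_iv : ∀ a b n, Iv G (D.c a b n)
  c_tot : ∀ a b, a < b → b < D.lam → ∀ p, ∃ q ≤ p, ∃ n, D.c a b n q
  c_trans : ∀ x y z n, x < y → y < z → z < D.lam → ∀ p, D.c x y n p → D.c y z n p → D.c x z n p
  c_like : ∀ x y z n, x < y → y < z → z < D.lam → ∀ p, D.c x z n p → D.c y z n p → D.c x y n p
  c_nobr : ∀ n, ∀ B : K → P → Prop, (∀ a, RO (B a)) → (∀ a, Iv G (B a)) → ∀ p,
      (∀ x < D.lam, ∀ q ≤ p, ∃ r ≤ q, ∃ a, x < a ∧ a < D.lam ∧ B a r) →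
      ¬ ∀ a b, a < b → b < D.lam → ∀ q ≤ p, B a q → B b q → D.c a b n q

theorem NSData.exists_gd {K G P : Type} [LinearOrder K] [WellFoundedLT K] [Group G] [Preorder P]
    [MulAction G P] [OrdAct G P] {w mu lam : K} (h : NSData K G P w mu lam) :
    ∃ D : GD K P, D.Ok G := by
  obtain ⟨e, he1, he2⟩ := h.isw
  obtain ⟨f, hf1, hf2⟩ := h.cof
  obtain ⟨c, hc1, hc2, hc3, hc4, hc5, hc6⟩ := h.nsp
  have h1 : ∀ a, ∃ F I : K → K, mu ≤ a → a < lam → (∀ x < mu, F x < a ∧ I (F x) = x) ∧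
      ∀ x < a, I x < mu ∧ F (I x) = x := by
    intro a
    by_cases ha : mu ≤ a ∧ a < lam
    · obtain ⟨F, hF⟩ := h.bij a ha.1 ha.2
      have : Nonempty K := ⟨w⟩
      refine ⟨F, Function.invFunOn F (Set.Iio mu), fun _ _ => ⟨fun x hx => ⟨hF.mapsTo hx, ?_⟩,
        fun x hx => ⟨?_, ?_⟩⟩⟩
      · exact hF.injOn.leftInvOn_invFunOn hx
      · exact Function.invFunOn_mem (hF.surjOn hx)
      · exact Function.invFunOn_eq (hF.surjOn hx)
    · exact ⟨id, id, fun h2 h3 => absurd ⟨h2, h3⟩ ha⟩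
  choose BF BI hB using h1
  have h2 : ∀ x, ∃ r, x < mu → r < mu ∧ x < r ∧ Bd P r := by
    intro x
    by_cases hx : x < mu
    · obtain ⟨r, h3, h4, h5⟩ := h.bd_mu x hx
      exact ⟨r, fun _ => ⟨h3, h4, h5⟩⟩
    · exact ⟨x, fun h => absurd h hx⟩
  choose RR hR using h2
  refine ⟨⟨w, mu, lam, e, f, BF, BI, RR, c⟩, he1, he2, h.w_mu, h.mu_lam, hf1, hf2,
    fun a h3 h4 => (hB a h3 h4).1, fun a h3 h4 => (hB a h3 h4).2, h.bd_lam, hR, h.tp, hc1, hc2,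
    hc3, hc4, hc5, hc6⟩

section tasks

variable {K G P : Type} [LinearOrder K] [WellFoundedLT K] [Group G] [Preorder P] [MulAction G P]

/-- Indices of tasks. -/
inductive TI : Type
  | pr | unop | acA | acB | acC | bjA | bjB | rr | bd | wt | t1 | t2 | t3 | br | nt | na
  | nb (n : ℕ)

/-- Code of an index. -/
def TI.code : TI → ℕ
  | .pr => 0
  | .unop => 1
  | .acA => 2
  | .acB => 3
  | .acC => 4
  | .bjA => 5
  | .bjB => 6
  | .rr => 7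
  | .bd => 8
  | .wt => 9
  | .t1 => 10
  | .t2 => 11
  | .t3 => 12
  | .br => 13
  | .nt => 14
  | .na => 15
  | .nb n => n + 16

instance : Countable TI := by
  refine Function.Injective.countable (f := TI.code) ?_
  intro a b h
  cases a <;> cases b <;> simp_all [TI.code]

variable (G) in
/-- The statements decided by the tasks. -/
def QQ (D : GD K P) : TI → Nm P → Nm P → Nm P → (ℕ → Nm P) → P → Prop
  | .pr, x, y, _, C, _ => C 0 = prN x y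
  | .unop, x, _, _, C, _ => x = opN (C 0) (C 1)
  | .acA, x, _, _, C, _ => C 0 = thN x ∧ C 1 = acN x
  | .acB, x, y, _, C, _ => ∃ i : x.ix, y = ckX x i ∧ C 0 = x.el i
  | .acC, x, y, _, C, _ => ∃ i : x.ix, y = x.el i ∧ C 0 = ckX x i
  | .bjA, x, _, _, C, _ => ∃ a, x = ck P a ∧ C 0 = fnN P (D.BF a) D.mu
  | .bjB, x, y, _, C, _ => ∃ a b : K, x = ck P a ∧ y = ck P b ∧ C 0 = ck P (D.BF a b) ∧
      C 1 = ck P (D.BI a b)
  | .rr, x, _, _, C, _ => ∃ a, x = ck P a ∧ C 0 = ck P (D.RR a)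
  | .bd, f, x, y, C, p => ∃ v r : K, v < r ∧ x = ck P v ∧ y = ck P r ∧ ∃ c < r, C 0 = ck P c ∧
      ∀ i < v, ∀ s ≤ p, ∃ t ≤ s, (∃ c' < c, fmem (opN (ck P i) (ck P c')) f t) ∨
        ∀ u ≤ t, ∀ c' < r, ¬ fmem (opN (ck P i) (ck P c')) f u
  | .wt, f, x, y, C, p => ∃ c : K, y = ck P c ∧ ∃ c' < c, C 0 = ck P c' ∧
      fmem (opN x (ck P c')) f p
  | .t1, R, _, _, C, p => ∃ a b k, a < b ∧ b < D.lam ∧ k < D.mu ∧ C 0 = ck P a ∧ C 1 = ck P b ∧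
      C 2 = ck P k ∧ ∀ r ≤ p, ∀ i < D.mu, ¬ fmem (N4 P a i b k) R r
  | .t2, R, _, _, C, p => ∃ a b c i j k, a < b ∧ b < c ∧ c < D.lam ∧ i < D.mu ∧ j < D.mu ∧
      k < D.mu ∧ C 0 = ck P a ∧ C 1 = ck P b ∧ C 2 = ck P c ∧ C 3 = ck P i ∧ C 4 = ck P j ∧
      C 5 = ck P k ∧ fmem (N4 P a i c k) R p ∧ fmem (N4 P b j c k) R p ∧
      ∀ r ≤ p, ¬ fmem (N4 P a i b j) R r
  | .t3, R, _, _, C, p => ∃ a b c i j k, a < b ∧ b < c ∧ c < D.lam ∧ i < D.mu ∧ j < D.mu ∧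
      k < D.mu ∧ C 0 = ck P a ∧ C 1 = ck P b ∧ C 2 = ck P c ∧ C 3 = ck P i ∧ C 4 = ck P j ∧
      C 5 = ck P k ∧ fmem (N4 P a i b j) R p ∧ fmem (N4 P b j c k) R p ∧
      ∀ r ≤ p, ¬ fmem (N4 P a i c k) R r
  | .br, R, _, _, C, p => ∃ b : K → K → P → Prop, (∀ a i, RO (b a i)) ∧ (∀ a i, Iv G (b a i)) ∧
      BranchF D.mu D.lam (fun a i b k => fmem (N4 P a i b k) R) b p ∧ C 0 = brN D.mu D.lam b
  | .nt, f, x, y, _, p => ∃ n, fmem (opN (opN x (nn P n)) (opN y (nn P n))) f p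
  | .na, B, _, _, C, p => ∃ x, x < D.lam ∧ C 0 = ck P x ∧
      ∀ r ≤ p, ∀ a, x < a → a < D.lam → ¬ fmem (ck P a) B r
  | .nb n, B, _, _, C, p => ∃ a b, a < b ∧ b < D.lam ∧ C 0 = ck P a ∧ C 1 = ck P b ∧
      fmem (ck P a) B p ∧ fmem (ck P b) B p ∧ ∀ r ≤ p, ¬ D.c a b n r

variable [TopSys G P]

/-- Achieve `Q` if possible. -/
def qT (Q : Nm P → Nm P → Nm P → (ℕ → Nm P) → P → Prop) : Task G P where
  n := 3
  T v C p := Q (v 0).1 (v 1).1 (v 2).1 (fun i => (C i).1) p ∨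
    ∀ q ≤ p, ∀ C : ℕ → HN G P, ¬ Q (v 0).1 (v 1).1 (v 2).1 (fun i => (C i).1) q
  dense v p := by
    by_cases h : ∃ q ≤ p, ∃ C : ℕ → HN G P, Q (v 0).1 (v 1).1 (v 2).1 (fun i => (C i).1) q
    · obtain ⟨q, hq, C, hC⟩ := h
      exact ⟨q, hq, C, Or.inl hC⟩
    · push Not at h
      exact ⟨p, le_rfl, fun _ => em G P, Or.inr h⟩

/-- Evaluation of a query. -/
def Ev (Γ : Gen G P) (Q : Nm P → Nm P → Nm P → (ℕ → Nm P) → P → Prop) : Prop :=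
  ∀ x y z, Γ.In x → Γ.In y → Γ.In z →
    (∃ k, ∃ C : ℕ → Nm P, (∀ i, Γ.In (C i)) ∧ Q x y z C (Γ.g k)) ∨
    ∃ k, ∀ q ≤ Γ.g k, ∀ C : ℕ → Nm P, (∀ i, HS G (C i)) → ¬ Q x y z C q

theorem hs_fnN (F : K → K) (mu : K) : HS G (fnN P F mu) :=
  hs_mk (fun _ => hs_opN (hs_ck _) (hs_ck _)) fun _ _ _ => Iff.rfl

theorem hs_thN (X : Nm P) : HS G (thN X) := by
  let _ := ixo X.ix
  have _ := ixw X.ix
  exact hs_mk (fun _ => hs_ck _) fun _ _ _ => Iff.rfl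

theorem hs_ckX (X : Nm P) (i : X.ix) : HS G (ckX X i) := by
  let _ := ixo X.ix
  have _ := ixw X.ix
  exact hs_ck _

theorem hs_acN {X : Nm P} (hX : HS G X) : HS G (acN X) :=
  hs_mk (fun i => hs_opN (hs_ckX X i) (hX.el i)) fun _ _ _ => Iff.rfl

theorem hs_brN {mu lam : K} {b : K → K → P → Prop} (hb : ∀ a i, Iv G (b a i)) :
    HS G (brN mu lam b) :=
  hs_mk (fun _ => hs_opN (hs_ck _) (hs_ck _)) fun _ => hb _ _

theorem hs_syN {lam : K} {c : K → K → ℕ → P → Prop} (hc : ∀ a b n, Iv G (c a b n)) :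
    HS G (syN lam c) :=
  hs_mk (fun _ => hs_opN (hs_opN (hs_ck _) (hs_nn _)) (hs_opN (hs_ck _) (hs_nn _)))
    fun _ => hc _ _ _

theorem hs_seqK (f : ℕ → K) : HS G (Gen.seqN fun n => ck P (f n)) :=
  hs_mk (fun _ => hs_opN (hs_nn _) (hs_ck _)) fun _ _ _ => Iff.rfl

/-- The initial names. -/
noncomputable def ini (D : GD K P) (hD : D.Ok G) : Fin 6 ⊕ (ℕ ⊕ (ℕ ⊕ ℕ)) → HN G P
  | .inl 0 => ⟨omN P, hs_omN⟩
  | .inl 1 => ⟨ck P D.w, hs_ck _⟩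
  | .inl 2 => ⟨ck P D.mu, hs_ck _⟩
  | .inl 3 => ⟨ck P D.lam, hs_ck _⟩
  | .inl 4 => ⟨Gen.seqN fun n => ck P (D.f n), hs_seqK _⟩
  | .inl 5 => ⟨syN D.lam D.c, hs_syN hD.c_iv⟩
  | .inr (.inl n) => ⟨nn P n, hs_nn n⟩
  | .inr (.inr (.inl n)) => ⟨ck P (D.e n), hs_ck _⟩
  | .inr (.inr (.inr n)) => ⟨ck P (D.f n), hs_ck _⟩

/-- Properties of the generic model. -/
structure FullM (D : GD K P) (Γ : Gen G P) : Prop where
  hasOm : Γ.HasOm
  w : Γ.In (ck P D.w)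
  mu : Γ.In (ck P D.mu)
  lam : Γ.In (ck P D.lam)
  cof : Γ.In (Gen.seqN fun n => ck P (D.f n))
  sy : Γ.In (syN D.lam D.c)
  e : ∀ n, Γ.In (ck P (D.e n))
  f : ∀ n, Γ.In (ck P (D.f n))
  ev : ∀ t, Ev Γ (QQ G D t)

theorem exists_full' (D : GD K P) (hD : D.Ok G) [Nonempty P] :
    ∃ Γ : Gen G P, FullM D Γ := by
  obtain ⟨p0⟩ := ‹Nonempty P›
  obtain ⟨s, hs⟩ := exists_surjective_nat (Fin 6 ⊕ (ℕ ⊕ (ℕ ⊕ ℕ)))
  obtain ⟨Γ, _, h0, hT⟩ := exists_gen_tasks (fun t : TI => qT (G := G) (QQ G D t))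
    (fun n => ini D hD (s n)) p0
  have h1 : ∀ x, Γ.In (ini D hD x).1 := by
    intro x
    obtain ⟨n, rfl⟩ := hs x
    obtain ⟨a, ha⟩ := h0 n
    exact ⟨a, congrArg Subtype.val ha⟩
  refine ⟨Γ, ⟨⟨fun n => h1 (.inr (.inl n)), h1 (.inl 0)⟩, h1 (.inl 1), h1 (.inl 2), h1 (.inl 3),
    h1 (.inl 4), h1 (.inl 5), fun n => h1 (.inr (.inr (.inl n))),
    fun n => h1 (.inr (.inr (.inr n))), ?_⟩⟩
  rintro t _ _ _ ⟨a, rfl⟩ ⟨b, rfl⟩ ⟨c, rfl⟩
  obtain ⟨k, C, hC | hC⟩ := hT t ![a, b, c]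
  · exact Or.inl ⟨k, fun i => (Γ.h (C i)).1, fun i => ⟨C i, rfl⟩, hC⟩
  · refine Or.inr ⟨k, fun q hq C hCs => ?_⟩
    exact hC q hq (fun i => ⟨C i, hCs i⟩)

end tasks

end Pool.Agent.helper75.NS
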