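import Pool.Agent.helper75.NS.Branch

/-!
# The tree property in the full extension: statement
-/

namespace Pool.Agent.helper75.NS

open Cardinal Set Fa

section K

variable {K : Type} [LinearOrder K] [WellFoundedLT K] [Inhabited K]

/-- `p` forces that `R` is a tree on `L × mu` (levels with repetitions). -/
structure Tr (mu L : K) (R : K → K → K → K → Set (Set (Fa K))) (p : Set (Fa K)) : Prop where
  pred : ∀ a b, a < b → b < L → ∀ k < mu, ∀ q ∈ Dl L, p ⊆ q →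
    ∃ r ∈ Dl L, q ⊆ r ∧ ∃ i < mu, r ∈ R a i b k
  like : ∀ a b c, a < b → b < c → c < L → ∀ i < mu, ∀ j < mu, ∀ k < mu, ∀ q ∈ Dl L, p ⊆ q →
    q ∈ R a i c k → q ∈ R b j c k → q ∈ R a i b j
  trans : ∀ a b c, a < b → b < c → c < L → ∀ i < mu, ∀ j < mu, ∀ k < mu, ∀ q ∈ Dl L, p ⊆ q →
    q ∈ R a i b j → q ∈ R b j c k → q ∈ R a i c k

/-- The tree property in the full extension by `Dl L`. -/
def TPV (mu L : K) : Prop := ∀ R : K → K → K → K → Set (Set (Fa K)),
  (∀ a i b k, Ro L (R a i b k)) → ∀ p ∈ Dl L, Tr mu L R p →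
    ∃ q ∈ Dl L, p ⊆ q ∧ ∃ b : K → K → Set (Set (Fa K)), (∀ a i, Ro L (b a i)) ∧ Br mu L R b q

end K

end Pool.Agent.helper75.NS
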